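import Pool.Agent.P6ED.Lem

set_option autoImplicit false
set_option maxRecDepth 100000

namespace Pool.Agent.P6ED

/-- Four vertices forming a 4-cycle in the square: two consecutive ones share a dominator. -/
def lemLA : Lem :=
  { m := 4
    X := [(0, 2), (1, 3)]
    A := [(0, 1), (1, 2), (2, 3), (0, 3)]
    T := []
    F := [(0, 1), (1, 2), (2, 3), (0, 3)] }

/-- The refutation tree (201 leaves). -/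
def treeLA : Tree := .sp 0 2 1 (.far 0 2 1) (.sp 0 6 0 (.far 0 2 12) (.sp 2 4 0 (.far 0 2 8) (.sp
  1 6 0 (.far 1 3 12) (.sp 1 3 1 (.far 1 3 3) (.sp 3 5 0 (.far 1 3 10) (.sp 0 5 0 (.far 0 2 10)
  (.sp 3 4 0 (.far 1 3 8) (.sp 1 3 0 (.far 1 3 2) (.sp 2 7 0 (.far 0 2 14) (.sp 1 7 0 (.far 1 3
  14) (.sp 0 2 0 (.far 0 2 0) (.sp 2 4 1 (.sp 0 4 1 (.far 0 2 9) (.sp 1 4 1 (.tr 1 4 2) (.sp 3 4 1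
  (.tr 2 4 3) (.sp 4 6 1 (.sp 1 6 1 (.tr 1 6 4) (.sp 4 6 0 (.sp 3 6 1 (.tr 3 6 4) (.p6
  7620034691)) (.p6 6646169731))) (.sp 2 6 1 (.tr 4 2 6) (.sp 2 3 0 (.sp 0 3 0 (.far 0 2 6) (.p6
  1075859718)) (.sp 0 3 0 (.p6 4448059783) (.sp 3 6 1 (.sp 0 6 1 (.tr 0 6 3) (.sp 2 7 1 (.sp 3 7 1
  (.tr 2 7 3) (.sp 1 7 1 (.tr 1 7 2) (.sp 4 7 0 (.p6 7620558979) (.sp 0 1 0 (.p6 7620526211) (.p6
  7620526594))))) (.sp 6 7 0 (.sp 4 7 1 (.tr 2 4 7) (.sp 0 7 1 (.sp 3 7 1 (.tr 0 7 3) (.sp 1 7 1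
  (.tr 0 7 1) (.sp 4 7 0 (.p6 7620558979) (.p6 9797951879)))) (.p6 5439021057))) (.p6
  236503301)))) (.sp 4 6 0 (.sp 1 6 1 (.sp 0 6 1 (.tr 0 6 1) (.p6 1075888519)) (.p6 7620034691))
  (.p6 8674918791)))))))))) (.sp 2 7 1 (.sp 0 7 1 (.tr 0 7 2) (.sp 4 7 1 (.tr 2 7 4) (.sp 3 7 1
  (.tr 2 7 3) (.sp 1 7 1 (.tr 1 7 2) (.sp 5 7 1 (.sp 1 5 1 (.tr 1 5 7) (.sp 3 5 1 (.tr 3 5 7) (.sp
  5 7 0 (.p6 7620567171) (.p6 3257463686)))) (.sp 2 5 1 (.tr 5 2 7) (.sp 0 3 0 (.sp 0 1 0 (.far 1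
  3 0) (.sp 2 3 0 (.far 0 2 6) (.sp 1 2 0 (.p6 5436375046) (.sp 4 5 0 (.p6 5438472198) (.p6
  134783237))))) (.sp 0 1 0 (.p6 7620526211) (.sp 3 4 1 (.sp 0 4 1 (.tr 0 4 3) (.sp 1 4 1 (.far 1
  3 9) (.sp 1 2 0 (.p6 5436375041) (.sp 4 7 0 (.p6 4550328451) (.p6 3256877967))))) (.sp 4 7 0
  (.sp 1 4 1 (.sp 0 4 1 (.tr 0 4 1) (.sp 1 2 0 (.p6 5436375041) (.sp 4 5 0 (.sp 0 5 1 (.sp 3 5 1
  (.tr 0 5 3) (.sp 1 5 1 (.tr 0 5 1) (.sp 2 3 0 (.p6 7617945731) (.sp 5 7 0 (.p6 7620567171) (.p6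
  4464894343))))) (.p6 5438472193)) (.p6 134783237)))) (.p6 7620558979)) (.p6
  7620526594))))))))))) (.sp 1 2 0 (.sp 2 3 0 (.far 1 3 4) (.sp 0 1 0 (.far 0 2 2) (.sp 0 4 1 (.sp
  4 7 0 (.p6 5436375942) (.sp 0 3 0 (.p6 5436375046) (.sp 3 4 1 (.p6 5436375494) (.sp 3 7 1 (.sp 1
  4 1 (.tr 0 4 1) (.sp 1 7 1 (.tr 1 7 3) (.p6 6677364867))) (.p6 7620526594))))) (.p6
  5436375041)))) (.sp 2 3 0 (.sp 1 7 1 (.p6 5437448386) (.sp 0 3 0 (.far 0 2 6) (.sp 4 7 0 (.p6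
  2285396229) (.sp 0 7 1 (.sp 0 1 0 (.p6 3254837636) (.sp 1 4 1 (.sp 3 7 1 (.tr 0 7 3) (.sp 3 4 1
  (.far 1 3 9) (.p6 7620526594))) (.p6 6677364867))) (.p6 1077436677))))) (.sp 1 6 1 (.sp 0 6 1
  (.tr 0 6 1) (.sp 2 6 1 (.tr 1 6 2) (.sp 0 3 0 (.p6 5438988289) (.sp 6 7 0 (.sp 0 7 1 (.sp 0 1 0
  (.p6 2151203077) (.sp 3 7 1 (.tr 0 7 3) (.sp 1 7 1 (.tr 0 7 1) (.sp 4 7 0 (.sp 4 6 0 (.sp 0 4 1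
  (.sp 1 4 1 (.tr 0 4 1) (.sp 3 4 1 (.tr 0 4 3) (.p6 7620558979))) (.p6 5438996481)) (.p6
  2285420805)) (.sp 3 4 1 (.sp 1 4 1 (.far 1 3 9) (.p6 6677364867)) (.p6 7620526594)))))) (.p6
  5439021057)) (.p6 236503301))))) (.sp 0 5 1 (.sp 3 5 1 (.tr 0 5 3) (.sp 1 5 1 (.tr 0 5 1) (.sp 5
  6 0 (.sp 3 6 1 (.sp 0 6 1 (.tr 0 6 3) (.sp 2 6 1 (.tr 2 6 3) (.sp 0 3 0 (.p6 5438988289) (.sp 6
  7 0 (.sp 1 7 1 (.p6 5439021250) (.sp 0 7 1 (.sp 3 7 1 (.tr 0 7 3) (.sp 5 7 1 (.sp 5 7 0 (.p6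
  7620567171) (.p6 4466729351)) (.tr 5 0 7))) (.p6 5439021057))) (.p6 236503301))))) (.p6
  7620042883)) (.p6 6644867203)))) (.sp 4 6 1 (.sp 1 4 1 (.tr 1 4 6) (.sp 2 6 1 (.tr 2 6 4) (.sp 4
  6 0 (.p6 3256926469) (.p6 5439001090)))) (.sp 0 6 1 (.sp 2 6 1 (.tr 0 6 2) (.sp 0 4 1 (.tr 4 0
  6) (.sp 3 6 1 (.tr 0 6 3) (.sp 0 1 0 (.p6 3254833924) (.sp 4 5 0 (.sp 2 5 1 (.sp 3 5 1 (.tr 2 5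
  3) (.sp 1 5 1 (.tr 1 5 2) (.sp 5 6 0 (.p6 7620042883) (.p6 7620018818)))) (.p6 5438472193)) (.p6
  1075847812)))))) (.sp 2 5 1 (.sp 3 5 1 (.tr 2 5 3) (.sp 4 5 1 (.tr 2 5 4) (.sp 1 5 1 (.tr 1 5 2)
  (.sp 5 6 0 (.sp 3 6 1 (.sp 3 4 1 (.tr 4 3 6) (.sp 2 6 1 (.tr 2 6 3) (.sp 0 3 0 (.p6 5438988289)
  (.sp 6 7 0 (.sp 1 7 1 (.p6 5439021250) (.sp 0 7 1 (.sp 0 1 0 (.p6 3254838020) (.sp 3 7 1 (.tr 0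
  7 3) (.sp 4 7 0 (.sp 1 4 1 (.sp 5 7 0 (.p6 7620567171) (.sp 4 5 0 (.p6 4464894343) (.sp 0 4 1
  (.tr 0 4 1) (.p6 1075847819)))) (.p6 7620558979)) (.p6 7620526594)))) (.p6 5439021057))) (.p6
  236503301))))) (.p6 7620042883)) (.p6 6644867203))))) (.sp 2 6 1 (.sp 6 7 1 (.tr 2 6 7) (.sp 3 6
  1 (.tr 2 6 3) (.sp 5 6 1 (.tr 2 6 5) (.sp 0 3 0 (.sp 3 5 1 (.p6 103588101) (.sp 0 1 0 (.far 1 3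
  0) (.sp 5 6 0 (.p6 1075364482) (.p6 7620018827)))) (.sp 0 7 1 (.sp 3 7 1 (.tr 0 7 3) (.sp 1 7 1
  (.tr 0 7 1) (.sp 0 1 0 (.p6 7620526211) (.sp 4 5 0 (.sp 0 4 1 (.sp 1 4 1 (.tr 0 4 1) (.sp 3 4 1
  (.tr 0 4 3) (.sp 4 7 0 (.p6 7620558979) (.p6 6677364867)))) (.p6 5438472193)) (.p6
  134783237))))) (.sp 5 7 0 (.p6 5438496769) (.sp 5 7 1 (.p6 4466728961) (.sp 6 7 0 (.sp 3 5 1
  (.p6 1077437130) (.sp 1 7 1 (.p6 5438448590) (.sp 0 1 0 (.p6 3254838020) (.sp 5 6 0 (.p6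
  2318458881) (.p6 7620018827))))) (.p6 1077437197))))))))) (.sp 0 3 0 (.p6 5438988289) (.sp 6 7 0
  (.sp 1 7 1 (.p6 5439021250) (.sp 0 7 1 (.sp 0 1 0 (.p6 3254838020) (.sp 3 7 1 (.tr 0 7 3) (.sp 4
  5 0 (.sp 0 4 1 (.sp 1 4 1 (.tr 0 4 1) (.sp 3 4 1 (.tr 0 4 3) (.sp 4 7 0 (.p6 7620558979) (.p6
  6677364867)))) (.p6 5438472193)) (.p6 134783237)))) (.p6 5439021057))) (.p6
  236503301))))))))))))))))))))))))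

theorem validLA : lemLA.Valid := Lem.valid_of_chk _ treeLA (by decide +kernel)

end Pool.Agent.P6ED
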