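import Pool.Agent.P6ED.Lem

set_option autoImplicit false
set_option maxRecDepth 100000

namespace Pool.Agent.P6ED

/-- A window of seven consecutive vertices with dominator pattern 1012010. -/
def lemLC : Lem :=
  { m := 7
    X := [(0, 1), (1, 2), (2, 3), (3, 4), (4, 5), (5, 6)]
    A := [(0, 3), (0, 4), (0, 6), (1, 3), (1, 5), (2, 4), (2, 6), (3, 5), (3, 6)]
    T := [(0, 2), (2, 5), (1, 4), (4, 6)]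
    F := [] }

/-- The refutation tree (326 leaves). -/
def treeLC : Tree := .sp 3 4 0 (.far 3 4 6) (.sp 5 15 0 (.far 5 6 30) (.sp 3 12 0 (.far 2 3 24)
  (.sp 1 12 0 (.far 1 2 24) (.sp 4 14 0 (.far 3 4 28) (.sp 2 14 0 (.far 2 3 28) (.sp 2 11 0 (.far
  1 2 22) (.sp 5 6 0 (.far 5 6 10) (.sp 1 5 1 (.far 1 2 11) (.sp 2 4 1 (.far 4 5 5) (.sp 1 2 1
  (.tr 1 2 5) (.sp 2 6 1 (.far 5 6 5) (.sp 4 5 1 (.tr 2 5 4) (.sp 3 5 1 (.far 2 3 11) (.sp 5 6 1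
  (.tr 2 5 6) (.sp 2 3 1 (.tr 3 2 5) (.sp 1 7 0 (.far 0 1 14) (.sp 4 7 0 (.far 3 4 14) (.sp 2 7 0
  (.far 2 3 14) (.sp 0 1 0 (.far 0 1 0) (.sp 2 10 0 (.far 2 3 20) (.sp 4 10 0 (.far 3 4 20) (.sp 1
  2 0 (.far 1 2 2) (.sp 4 5 0 (.far 4 5 8) (.sp 0 10 0 (.far 0 1 20) (.sp 5 12 0 (.far 4 5 24)
  (.sp 4 11 0 (.far 4 5 22) (.sp 2 3 0 (.far 2 3 4) (.sp 2 15 0 (.far 2 3 30) (.sp 4 15 0 (.far 3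
  4 30) (.sp 0 1 1 (.far 0 1 1) (.sp 3 4 1 (.far 3 4 7) (.sp 3 6 1 (.tr 3 6 4) (.sp 6 14 0 (.far 5
  6 28) (.sp 0 5 1 (.sp 0 3 1 (.far 2 3 1) (.sp 0 4 1 (.tr 2 0 4) (.sp 1 3 1 (.tr 3 1 4) (.sp 2 10
  1 (.sp 1 10 1 (.tr 1 10 2) (.sp 3 10 1 (.tr 2 10 3) (.sp 5 10 1 (.sp 4 10 1 (.tr 2 10 4) (.sp 6
  10 1 (.tr 2 10 6) (.sp 2 4 0 (.p6 9799030022) (.sp 1 4 0 (.sp 1 3 0 (.far 3 4 2) (.sp 0 4 0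
  (.far 0 1 8) (.sp 10 12 0 (.sp 1 5 0 (.far 4 5 2) (.sp 5 12 1 (.sp 3 12 1 (.tr 3 12 5) (.sp 4 12
  1 (.tr 4 12 5) (.p6 7622197769))) (.sp 2 12 1 (.tr 5 2 12) (.sp 4 12 1 (.sp 3 12 1 (.tr 3 12 4)
  (.sp 6 12 1 (.sp 1 12 1 (.sp 2 5 0 (.sp 2 6 0 (.far 5 6 4) (.sp 3 5 0 (.far 2 3 10) (.sp 5 10 0
  (.sp 12 14 0 (.sp 6 10 0 (.far 5 6 20) (.sp 2 14 1 (.sp 6 14 1 (.tr 2 14 6) (.sp 3 14 1 (.far 2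
  3 29) (.sp 5 14 1 (.sp 3 6 0 (.p6 14161658500) (.sp 6 12 0 (.sp 10 15 0 (.sp 5 15 1 (.sp 3 15 1
  (.tr 3 15 5) (.sp 12 15 0 (.p6 7624818954) (.p6 4700889479))) (.sp 2 15 1 (.tr 5 2 15) (.sp 10
  15 1 (.tr 5 10 15) (.sp 14 15 1 (.tr 5 14 15) (.sp 4 15 1 (.p6 9117975172) (.sp 6 15 1 (.tr 4 6
  15) (.sp 14 15 0 (.p6 14167949956) (.p6 14167861021)))))))) (.p6 13389873796)) (.p6
  7624295244))) (.tr 5 2 14)))) (.sp 0 14 1 (.tr 2 0 14) (.sp 5 14 1 (.tr 2 5 14) (.sp 3 14 1 (.sp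
  1 14 0 (.sp 1 14 1 (.tr 1 14 3) (.sp 0 14 0 (.far 0 1 28) (.sp 0 3 0 (.p6 3262144513) (.sp 7 14
  0 (.sp 2 7 1 (.p6 8630886724) (.sp 0 7 1 (.tr 2 0 7) (.p6 8630886401))) (.p6 8630854528)))))
  (.p6 11986371074)) (.p6 5442224519)))))) (.p6 8993679110)) (.p6 7622197514)))) (.p6
  10822451394)) (.tr 1 4 12)) (.tr 6 4 12))) (.sp 2 5 0 (.sp 1 12 1 (.tr 4 1 12) (.sp 2 6 0 (.far
  5 6 4) (.sp 3 5 0 (.far 2 3 10) (.sp 12 14 0 (.sp 5 10 0 (.sp 6 10 0 (.far 5 6 20) (.sp 5 14 1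
  (.sp 6 14 1 (.tr 5 14 6) (.sp 3 6 0 (.p6 14161658500) (.sp 10 15 0 (.sp 6 15 1 (.sp 4 15 1 (.sp
  5 15 1 (.tr 5 15 6) (.sp 2 15 1 (.tr 2 15 6) (.sp 10 15 1 (.tr 6 15 10) (.p6 9117975172)))) (.tr
  4 6 15)) (.sp 14 15 0 (.p6 14167949956) (.p6 14167861002))) (.p6 13389873796)))) (.sp 2 14 1
  (.tr 5 2 14) (.sp 4 14 1 (.sp 10 14 1 (.tr 5 10 14) (.sp 10 14 0 (.p6 9083896132) (.sp 3 14 1
  (.far 3 4 29) (.p6 31609930052)))) (.p6 11986371081))))) (.p6 10810900611)) (.p6 8993679110)))))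
  (.p6 10822451721)))))) (.p6 6778553860)))) (.p6 8640872772))))) (.tr 5 2 10)))) (.sp 0 10 1 (.tr
  2 0 10) (.sp 2 7 1 (.sp 1 7 1 (.far 1 2 15) (.sp 3 7 1 (.far 2 3 15) (.sp 7 10 1 (.tr 2 7 10)
  (.sp 1 3 0 (.p6 3256410436) (.sp 7 10 0 (.sp 2 4 0 (.p6 7620546824) (.sp 4 7 1 (.tr 2 7 4) (.sp
  1 4 0 (.p6 8628789572) (.sp 1 12 1 (.sp 7 12 1 (.tr 1 12 7) (.sp 2 12 1 (.tr 1 12 2) (.sp 3 12 1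
  (.tr 1 12 3) (.sp 7 12 0 (.sp 4 11 1 (.sp 3 11 1 (.tr 3 11 4) (.sp 2 11 1 (.tr 2 11 4) (.sp 7 11
  1 (.tr 4 11 7) (.sp 7 11 0 (.p6 8981635396) (.sp 3 11 0 (.p6 4550321538) (.sp 2 5 0 (.sp 1 5 0
  (.far 1 2 10) (.sp 3 5 0 (.far 2 3 10) (.sp 5 7 0 (.p6 7620568450) (.p6 7620624650)))) (.sp 1 5
  0 (.p6 8640831812) (.p6 10822451394)))))))) (.sp 1 11 1 (.tr 4 1 11) (.sp 2 11 1 (.p6
  8640880964) (.sp 5 11 1 (.tr 2 5 11) (.sp 1 5 0 (.sp 2 5 0 (.far 1 2 10) (.p6 8640831812)) (.p6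
  8640881291)))))) (.p6 8993698694))))) (.sp 7 12 0 (.p6 6683656386) (.sp 4 12 1 (.tr 1 4 12) (.sp
  7 12 1 (.p6 9804247942) (.p6 9804202958)))))))) (.p6 4550321410)))))) (.sp 5 7 1 (.tr 2 5 7)
  (.sp 0 7 1 (.tr 2 0 7) (.sp 2 14 1 (.sp 6 14 1 (.tr 2 14 6) (.sp 3 14 1 (.far 2 3 29) (.sp 2 4 0
  (.p6 7624216840) (.sp 5 14 1 (.sp 4 14 1 (.tr 2 14 4) (.sp 5 12 1 (.sp 3 12 1 (.tr 3 12 5) (.sp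
  12 14 1 (.sp 4 12 1 (.tr 4 12 5) (.sp 12 14 0 (.p6 7624294921) (.p6 6918865417))) (.tr 12 5
  14))) (.sp 2 12 1 (.tr 5 2 12) (.sp 12 14 1 (.tr 5 14 12) (.sp 4 12 1 (.sp 3 12 1 (.tr 3 12 4)
  (.sp 6 12 1 (.sp 1 12 1 (.sp 1 3 0 (.p6 6482657541) (.sp 1 10 1 (.sp 3 10 1 (.tr 1 10 3) (.sp 10
  12 0 (.p6 5442191751) (.sp 1 4 0 (.p6 7622107672) (.sp 5 15 1 (.sp 1 15 1 (.tr 1 15 5) (.sp 4 15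
  1 (.far 4 5 31) (.sp 6 15 1 (.tr 5 15 6) (.sp 2 15 1 (.sp 1 15 0 (.p6 8640913732) (.sp 1 5 0
  (.p6 32399434312) (.sp 2 5 0 (.sp 2 6 0 (.far 5 6 4) (.sp 3 5 0 (.far 2 3 10) (.sp 3 6 0 (.p6
  14161658500) (.sp 14 15 0 (.p6 14167949956) (.p6 14167861002))))) (.p6 10822451394)))) (.tr 2 5
  15))))) (.sp 14 15 1 (.tr 5 14 15) (.sp 1 5 0 (.sp 2 5 0 (.far 1 2 10) (.p6 8640831812)) (.sp 2
  5 0 (.sp 2 6 0 (.far 5 6 4) (.sp 3 5 0 (.far 2 3 10) (.sp 12 14 0 (.sp 3 6 0 (.p6 14161658500)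
  (.sp 6 12 0 (.sp 4 15 1 (.sp 3 15 1 (.far 3 4 31) (.sp 12 15 0 (.p6 7624818954) (.p6
  4700889479))) (.sp 6 15 1 (.tr 4 6 15) (.sp 14 15 0 (.p6 14167949956) (.p6 14167861021)))) (.p6
  7624295244))) (.p6 6914852377)))) (.p6 10822451394)))))))) (.sp 0 3 0 (.p6 3260047361) (.sp 7 10
  0 (.sp 0 2 0 (.sp 1 7 1 (.sp 7 12 1 (.sp 3 7 1 (.tr 1 7 3) (.sp 7 12 0 (.p6 5442167175) (.p6
  4701610375))) (.tr 7 1 12)) (.p6 3260080132)) (.p6 4311803138)) (.p6 2484658177))))) (.tr 1 4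
  12)) (.tr 6 4 12))) (.sp 1 4 0 (.sp 1 3 0 (.far 3 4 2) (.sp 0 4 0 (.far 0 1 8) (.sp 7 10 0 (.p6
  8628789249) (.sp 0 3 0 (.p6 8628756481) (.p6 8628757376))))) (.p6 2300674309))))))) (.tr 5 2
  14))))) (.sp 5 14 1 (.tr 2 5 14) (.sp 2 15 1 (.sp 5 15 1 (.sp 1 15 1 (.far 1 2 31) (.sp 3 15 1
  (.tr 2 15 3) (.sp 4 15 1 (.tr 2 15 4) (.sp 6 15 1 (.tr 2 15 6) (.sp 2 4 0 (.p6 7624741128) (.sp
  2 11 1 (.sp 1 11 1 (.tr 1 11 2) (.sp 1 4 0 (.sp 1 3 0 (.far 3 4 2) (.sp 0 4 0 (.far 0 1 8) (.sp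
  7 10 0 (.p6 8628789249) (.sp 0 3 0 (.p6 8628756481) (.p6 8628757376))))) (.p6 8640880964))) (.sp
  5 11 1 (.tr 2 5 11) (.sp 12 15 1 (.sp 3 12 1 (.tr 3 12 15) (.sp 4 12 1 (.tr 4 12 15) (.sp 12 15
  0 (.p6 7624819209) (.p6 7624824328)))) (.sp 2 12 1 (.tr 12 2 15) (.sp 1 4 0 (.sp 1 3 0 (.far 3 4
  2) (.sp 0 4 0 (.far 0 1 8) (.sp 7 10 0 (.p6 8628789249) (.sp 0 3 0 (.p6 8628756481) (.p6
  8628757376))))) (.sp 1 12 1 (.sp 1 15 0 (.p6 8640913732) (.sp 1 5 0 (.p6 32399434312) (.sp 4 11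
  1 (.sp 2 5 0 (.sp 3 12 1 (.tr 1 12 3) (.sp 3 11 1 (.tr 3 11 4) (.sp 6 11 1 (.sp 2 6 0 (.far 5 6
  4) (.sp 3 5 0 (.far 2 3 10) (.sp 12 14 0 (.sp 3 14 1 (.sp 11 14 1 (.tr 3 14 11) (.sp 6 14 1 (.tr
  11 6 14) (.sp 3 6 0 (.p6 14161658500) (.sp 14 15 0 (.p6 14167949956) (.p6 14167861002))))) (.p6
  5442224519)) (.p6 8993679110)))) (.tr 6 4 11)))) (.p6 10822451394)) (.p6 11984708168)))) (.p6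
  5442142402)))))))))))) (.tr 5 2 15)) (.sp 5 15 1 (.tr 2 5 15) (.sp 5 12 1 (.sp 1 12 1 (.tr 1 12
  5) (.sp 3 12 1 (.tr 3 12 5) (.sp 4 12 1 (.tr 4 12 5) (.sp 3 5 0 (.p6 7619581448) (.sp 1 4 0 (.sp
  1 3 0 (.far 3 4 2) (.sp 0 4 0 (.far 0 1 8) (.sp 7 10 0 (.p6 8628789249) (.sp 0 3 0 (.p6
  8628756481) (.p6 8628757376))))) (.sp 1 5 0 (.sp 2 5 0 (.far 1 2 10) (.sp 3 14 1 (.sp 14 15 0
  (.sp 6 14 1 (.tr 3 14 6) (.sp 14 15 1 (.sp 6 15 1 (.tr 6 15 14) (.p6 11986395917)) (.p6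
  33796694340))) (.p6 32320299332)) (.p6 4482253191))) (.p6 11163173058))))))) (.sp 2 12 1 (.tr 5
  2 12) (.sp 4 12 1 (.sp 3 12 1 (.tr 3 12 4) (.sp 1 12 1 (.sp 1 3 0 (.p6 6482657541) (.sp 2 5 0
  (.sp 2 6 0 (.far 5 6 4) (.sp 3 5 0 (.far 2 3 10) (.sp 2 4 0 (.far 4 5 4) (.sp 12 14 0 (.sp 3 14
  1 (.sp 6 14 1 (.tr 3 14 6) (.sp 4 14 1 (.far 3 4 29) (.sp 3 6 0 (.p6 14161658500) (.sp 14 15 0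
  (.sp 4 15 1 (.p6 11986395720) (.sp 6 15 1 (.tr 4 6 15) (.p6 11986395917))) (.p6 13389906571)))))
  (.p6 5442224519)) (.p6 8993679110))))) (.sp 1 5 0 (.sp 0 5 0 (.far 0 1 10) (.sp 1 4 0 (.far 4 5
  2) (.sp 0 4 0 (.sp 2 4 0 (.sp 0 3 0 (.far 3 4 0) (.sp 3 5 0 (.p6 9797939846) (.sp 5 7 0 (.sp 3 7
  1 (.sp 4 7 1 (.tr 3 7 4) (.p6 15200719364)) (.p6 4482195847)) (.p6 6677377666)))) (.p6
  8640831812)) (.p6 8640831552)))) (.p6 10822451394)))) (.tr 1 4 12))) (.sp 1 12 1 (.tr 4 1 12)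
  (.sp 2 5 0 (.sp 1 5 0 (.far 1 2 10) (.sp 2 4 0 (.far 4 5 4) (.sp 1 4 0 (.sp 1 3 0 (.far 3 4 2)
  (.sp 0 4 0 (.far 0 1 8) (.sp 7 10 0 (.p6 8628789249) (.sp 0 3 0 (.p6 8628756481) (.p6
  8628757376))))) (.p6 10810851522)))) (.sp 2 4 0 (.sp 3 5 0 (.p6 8659968391) (.sp 12 14 0 (.sp 3
  14 1 (.sp 4 14 1 (.far 3 4 29) (.p6 11986371081)) (.p6 7624237380)) (.p6 25839838982))) (.p6
  10822451721))))))))))))))))))) (.tr 0 2 5)))))))))))))))))))))))))))))))))))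

theorem validLC : lemLC.Valid := Lem.valid_of_chk _ treeLC (by decide +kernel)

end Pool.Agent.P6ED
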