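import Pool.Agent.P6ED.Cyc
import Pool.Agent.P6ED.LA
import Pool.Agent.P6ED.LB
import Pool.Agent.P6ED.LC

set_option autoImplicit false
set_option maxRecDepth 100000

namespace Pool.Agent.P6ED

/-- The configurations used for cycle length 11. -/
def list11 : List Lem := [lemLA, lemLB, lemLC]

/-- The refutation tree (422 leaves). -/
def treeC11 : CT := .sp 6 10 (.sp 0 6 (.tr 0 6 10) (.sp 5 10 (.tr 5 10 6) (.sp 7 10 (.tr 6 10 7)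
  (.sp 6 9 (.tr 9 6 10) (.sp 3 10 (.sp 0 3 (.tr 0 3 10) (.sp 2 10 (.tr 2 10 3) (.sp 4 10 (.tr 3 10
  4) (.sp 3 6 (.sp 2 6 (.tr 2 6 10) (.sp 4 6 (.tr 4 6 10) (.sp 1 5 (.sp 0 5 (.tr 0 5 1) (.sp 1 6
  (.tr 5 1 6) (.sp 1 10 (.tr 5 1 10) (.sp 2 9 (.app 1 [2, 1, 5, 6, 9, 10]) (.sp 0 4 (.sp 1 9 (.sp
  1 7 (.app 1 [1, 0, 4, 3, 7, 6]) (.sp 2 7 (.app 1 [1, 2, 7, 6, 9, 10]) (.app 0 [1, 6, 2, 7])))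
  (.app 0 [1, 9, 2, 10])) (.app 0 [4, 10, 5, 0])))))) (.sp 1 6 (.sp 1 3 (.sp 1 10 (.sp 1 4 (.tr 4
  1 6) (.sp 1 7 (.tr 6 1 7) (.sp 5 9 (.sp 5 8 (.tr 8 5 9) (.sp 2 4 (.app 1 [1, 2, 4, 5, 10, 9])
  (.sp 2 8 (.app 1 [2, 1, 6, 5, 8, 9]) (.sp 2 5 (.sp 5 7 (.app 2 [1, 2, 3, 4, 5, 6, 7]) (.sp 2 7
  (.tr 5 2 7) (.sp 1 8 (.sp 4 8 (.tr 1 8 4) (.sp 4 7 (.app 1 [1, 2, 5, 4, 8, 7]) (.app 0 [4, 7, 5,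
  8]))) (.app 0 [1, 7, 2, 8])))) (.app 0 [1, 4, 2, 5]))))) (.sp 4 9 (.sp 4 8 (.tr 8 4 9) (.sp 2 5
  (.app 1 [1, 2, 5, 4, 10, 9]) (.sp 2 4 (.sp 2 9 (.sp 5 8 (.app 1 [2, 1, 6, 5, 9, 8]) (.sp 6 8
  (.sp 1 8 (.sp 4 7 (.app 2 [2, 3, 4, 5, 6, 7, 8]) (.sp 5 7 (.app 1 [1, 2, 4, 5, 8, 7]) (.app 0
  [4, 7, 5, 8]))) (.tr 1 6 8)) (.app 0 [5, 8, 6, 9]))) (.tr 2 4 9)) (.app 0 [1, 4, 2, 5])))) (.app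
  0 [4, 9, 5, 10]))))) (.tr 1 6 10)) (.tr 1 6 3)) (.sp 1 3 (.tr 1 3 6) (.sp 1 10 (.tr 1 10 6) (.sp
  0 5 (.sp 2 5 (.sp 0 4 (.tr 4 0 5) (.sp 1 9 (.app 1 [1, 2, 5, 6, 9, 10]) (.sp 1 4 (.sp 2 9 (.sp 0
  7 (.app 1 [0, 1, 4, 3, 7, 6]) (.sp 1 7 (.app 1 [2, 1, 7, 6, 9, 10]) (.app 0 [0, 6, 1, 7])))
  (.app 0 [1, 9, 2, 10])) (.app 0 [0, 3, 1, 4])))) (.app 0 [1, 5, 2, 6])) (.app 0 [0, 5, 1,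
  6])))))))) (.tr 3 10 6))))) (.sp 3 6 (.tr 3 6 10) (.sp 2 9 (.sp 2 6 (.tr 6 2 9) (.sp 2 10 (.tr 9
  2 10) (.sp 3 5 (.app 1 [2, 3, 5, 6, 9, 10]) (.sp 3 7 (.app 1 [2, 3, 7, 6, 9, 10]) (.sp 2 5 (.sp
  2 7 (.sp 2 4 (.tr 4 2 5) (.sp 0 3 (.app 1 [3, 2, 5, 6, 0, 10]) (.sp 4 7 (.tr 2 7 4) (.sp 0 2
  (.sp 4 6 (.sp 0 7 (.sp 0 4 (.tr 2 0 4) (.sp 1 4 (.app 2 [0, 1, 2, 3, 4, 5, 6]) (.sp 1 3 (.app 1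
  [0, 1, 3, 4, 7, 6]) (.app 0 [0, 3, 1, 4])))) (.tr 0 2 7)) (.app 0 [3, 6, 4, 7])) (.app 0 [2, 10,
  3, 0]))))) (.app 0 [2, 6, 3, 7])) (.app 0 [2, 5, 3, 6])))))) (.sp 2 10 (.sp 0 2 (.tr 0 2 10)
  (.sp 1 10 (.tr 1 10 2) (.sp 2 6 (.sp 2 5 (.tr 5 2 10) (.sp 2 7 (.tr 7 2 10) (.sp 1 6 (.tr 1 6
  10) (.sp 1 8 (.sp 0 8 (.tr 0 8 1) (.sp 2 8 (.tr 1 8 2) (.sp 6 8 (.tr 1 8 6) (.sp 8 10 (.tr 1 8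
  10) (.sp 5 9 (.app 1 [1, 2, 6, 5, 8, 9]) (.sp 0 7 (.sp 5 8 (.sp 3 8 (.app 1 [2, 3, 8, 7, 10, 0])
  (.sp 3 9 (.app 1 [3, 2, 6, 5, 9, 8]) (.app 0 [2, 8, 3, 9]))) (.app 0 [5, 8, 6, 9])) (.app 0 [7,
  10, 8, 0]))))))) (.sp 2 8 (.sp 0 8 (.tr 0 8 2) (.sp 3 8 (.tr 2 8 3) (.sp 6 8 (.sp 8 10 (.sp 1 5
  (.sp 1 4 (.tr 4 1 5) (.sp 0 9 (.app 1 [0, 1, 5, 6, 9, 8]) (.sp 4 9 (.app 1 [2, 1, 5, 4, 8, 9])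
  (.sp 1 9 (.sp 1 3 (.app 2 [8, 9, 10, 0, 1, 2, 3]) (.sp 3 9 (.tr 1 9 3) (.sp 4 8 (.sp 0 4 (.tr 0
  4 8) (.sp 0 3 (.app 1 [1, 0, 3, 4, 9, 8]) (.app 0 [0, 3, 1, 4]))) (.app 0 [3, 8, 4, 9])))) (.app
  0 [0, 8, 1, 9]))))) (.sp 0 5 (.sp 0 4 (.tr 4 0 5) (.sp 1 9 (.app 1 [1, 0, 5, 6, 9, 8]) (.sp 0 9
  (.sp 5 9 (.sp 1 4 (.app 1 [2, 1, 4, 5, 8, 9]) (.sp 2 4 (.sp 4 8 (.sp 0 3 (.app 2 [9, 10, 0, 1,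
  2, 3, 4]) (.sp 1 3 (.app 1 [0, 1, 3, 4, 9, 8]) (.app 0 [0, 3, 1, 4]))) (.tr 4 2 8)) (.app 0 [1,
  4, 2, 5]))) (.tr 5 0 9)) (.app 0 [0, 8, 1, 9])))) (.app 0 [0, 5, 1, 6]))) (.tr 8 2 10)) (.tr 6 2
  8)))) (.sp 6 8 (.tr 2 6 8) (.sp 8 10 (.tr 2 10 8) (.sp 1 7 (.sp 1 9 (.sp 0 7 (.tr 0 7 1) (.sp 5
  8 (.app 1 [1, 2, 6, 5, 9, 8]) (.sp 0 8 (.sp 5 9 (.sp 3 7 (.app 1 [2, 3, 7, 8, 10, 0]) (.sp 3 8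
  (.app 1 [3, 2, 6, 5, 8, 9]) (.app 0 [2, 7, 3, 8]))) (.app 0 [5, 8, 6, 9])) (.app 0 [7, 10, 8,
  0])))) (.app 0 [1, 8, 2, 9])) (.app 0 [1, 7, 2, 8]))))))))) (.tr 2 10 6)))) (.sp 2 6 (.tr 2 6
  10) (.sp 3 9 (.sp 2 5 (.app 1 [3, 2, 5, 6, 9, 10]) (.sp 3 5 (.sp 5 9 (.sp 0 2 (.app 1 [2, 3, 5,
  6, 0, 10]) (.sp 0 3 (.sp 1 3 (.tr 0 3 1) (.sp 1 5 (.tr 1 5 3) (.sp 1 9 (.tr 1 9 3) (.sp 1 10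
  (.sp 2 4 (.app 1 [1, 2, 4, 5, 10, 9]) (.sp 1 4 (.app 2 [10, 0, 1, 2, 3, 4, 5]) (.app 0 [1, 4, 2,
  5]))) (.app 0 [1, 9, 2, 10]))))) (.app 0 [2, 10, 3, 0]))) (.tr 5 3 9)) (.app 0 [2, 5, 3, 6])))
  (.app 0 [2, 9, 3, 10]))))))))))) (.sp 3 10 (.sp 0 3 (.tr 0 3 10) (.sp 2 10 (.tr 2 10 3) (.sp 4
  10 (.tr 3 10 4) (.sp 3 6 (.tr 6 3 10) (.sp 3 9 (.tr 9 3 10) (.sp 0 7 (.sp 3 7 (.tr 0 7 3) (.sp 7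
  10 (.tr 0 7 10) (.sp 2 6 (.app 1 [3, 2, 6, 7, 10, 0]) (.sp 4 6 (.app 1 [3, 4, 6, 7, 10, 0]) (.sp
  2 7 (.sp 4 7 (.sp 2 4 (.sp 6 9 (.app 1 [3, 2, 7, 6, 10, 9]) (.sp 5 7 (.tr 4 7 5) (.sp 2 5 (.tr 4
  2 5) (.sp 7 9 (.sp 5 9 (.tr 5 9 7) (.sp 3 5 (.sp 2 9 (.sp 5 8 (.app 2 [3, 4, 5, 6, 7, 8, 9])
  (.sp 6 8 (.app 1 [2, 3, 5, 6, 9, 8]) (.app 0 [5, 8, 6, 9]))) (.tr 2 7 9)) (.app 0 [2, 5, 3,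
  6]))) (.app 0 [6, 9, 7, 10]))))) (.tr 2 7 4)) (.app 0 [3, 6, 4, 7])) (.app 0 [2, 6, 3, 7]))))))
  (.sp 7 10 (.sp 3 7 (.sp 4 7 (.tr 4 7 10) (.sp 8 10 (.tr 7 10 8) (.sp 3 8 (.tr 7 3 8) (.sp 5 9
  (.sp 3 5 (.tr 3 5 9) (.sp 4 9 (.tr 4 9 5) (.sp 2 6 (.app 1 [3, 2, 6, 5, 10, 9]) (.sp 2 5 (.sp 4
  8 (.sp 1 5 (.tr 1 5 2) (.sp 2 9 (.sp 0 6 (.app 1 [3, 2, 5, 6, 10, 0]) (.sp 0 5 (.app 1 [5, 4, 8,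
  7, 0, 10]) (.sp 1 6 (.app 1 [2, 1, 6, 7, 9, 10]) (.app 0 [0, 5, 1, 6])))) (.tr 2 5 9))) (.app 0
  [3, 8, 4, 9])) (.app 0 [2, 5, 3, 6]))))) (.sp 5 10 (.sp 0 5 (.tr 0 5 10) (.sp 3 5 (.sp 5 7 (.sp
  5 8 (.tr 8 5 10) (.sp 2 9 (.sp 1 9 (.tr 1 9 2) (.sp 1 6 (.app 1 [2, 1, 6, 5, 9, 10]) (.sp 6 8
  (.app 1 [2, 3, 5, 6, 9, 8]) (.sp 6 9 (.sp 0 9 (.app 2 [5, 6, 7, 8, 9, 10, 0]) (.sp 0 6 (.tr 0 6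
  9) (.sp 1 5 (.sp 1 8 (.tr 5 1 8) (.sp 0 8 (.app 1 [0, 1, 5, 6, 8, 9]) (.app 0 [0, 8, 1, 9])))
  (.app 0 [0, 5, 1, 6])))) (.app 0 [5, 8, 6, 9]))))) (.sp 2 8 (.sp 1 8 (.tr 1 8 2) (.sp 6 9 (.app
  1 [2, 3, 5, 6, 8, 9]) (.sp 6 8 (.sp 2 6 (.sp 1 9 (.app 1 [1, 2, 6, 5, 9, 10]) (.sp 1 10 (.sp 1 5
  (.sp 0 8 (.app 2 [6, 7, 8, 9, 10, 0, 1]) (.sp 0 9 (.app 1 [0, 1, 5, 6, 9, 8]) (.app 0 [0, 8, 1,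
  9]))) (.tr 1 10 5)) (.app 0 [1, 9, 2, 10]))) (.tr 2 8 6)) (.app 0 [5, 8, 6, 9])))) (.app 0 [2,
  8, 3, 9])))) (.tr 5 10 7)) (.tr 3 10 5))) (.sp 3 5 (.tr 5 3 10) (.sp 5 7 (.tr 5 7 10) (.sp 4 9
  (.sp 6 9 (.sp 4 8 (.tr 8 4 9) (.sp 2 5 (.app 1 [3, 2, 5, 6, 10, 9]) (.sp 5 8 (.sp 2 6 (.sp 0 4
  (.app 1 [4, 5, 8, 7, 0, 10]) (.sp 0 5 (.app 1 [3, 2, 6, 5, 10, 0]) (.app 0 [4, 10, 5, 0])))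
  (.app 0 [2, 5, 3, 6])) (.app 0 [4, 7, 5, 8])))) (.app 0 [5, 9, 6, 10])) (.app 0 [4, 9, 5,
  10]))))))))) (.tr 3 10 7)) (.sp 3 7 (.tr 7 3 10) (.sp 0 6 (.sp 2 7 (.app 1 [3, 2, 7, 6, 10, 0])
  (.sp 4 7 (.app 1 [3, 4, 7, 6, 10, 0]) (.sp 2 6 (.sp 4 6 (.sp 7 9 (.app 1 [3, 2, 6, 7, 10, 9])
  (.sp 0 4 (.sp 6 9 (.sp 0 9 (.sp 4 9 (.sp 0 8 (.tr 8 0 9) (.sp 4 8 (.tr 8 4 9) (.sp 8 10 (.sp 5 7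
  (.app 1 [4, 5, 7, 8, 0, 10]) (.sp 5 8 (.app 2 [4, 5, 6, 7, 8, 9, 10]) (.app 0 [4, 7, 5, 8])))
  (.app 0 [7, 10, 8, 0])))) (.tr 4 6 9)) (.tr 0 6 9)) (.app 0 [6, 9, 7, 10])) (.tr 0 6 4))) (.app
  0 [3, 6, 4, 7])) (.app 0 [2, 6, 3, 7])))) (.app 0 [6, 10, 7, 0])))))))))) (.sp 3 7 (.sp 2 7 (.tr
  2 7 3) (.sp 4 7 (.tr 3 7 4) (.sp 7 10 (.tr 3 7 10) (.sp 0 7 (.sp 1 7 (.tr 0 7 1) (.sp 0 3 (.sp 0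
  2 (.tr 2 0 7) (.sp 0 4 (.tr 4 0 7) (.sp 0 6 (.tr 6 0 7) (.sp 0 5 (.sp 1 5 (.tr 0 5 1) (.sp 2 5
  (.tr 0 5 2) (.sp 5 10 (.tr 0 5 10) (.sp 3 5 (.sp 5 7 (.sp 1 8 (.sp 1 9 (.tr 8 1 9) (.sp 6 9
  (.app 1 [1, 0, 5, 6, 8, 9]) (.sp 2 4 (.app 1 [1, 2, 4, 5, 8, 7]) (.sp 5 9 (.sp 1 4 (.sp 2 9 (.tr
  2 9 5) (.sp 2 10 (.app 1 [2, 1, 4, 5, 10, 9]) (.sp 1 10 (.app 2 [10, 0, 1, 2, 3, 4, 5]) (.app 0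
  [1, 9, 2, 10])))) (.app 0 [1, 4, 2, 5])) (.app 0 [5, 9, 6, 10]))))) (.sp 2 8 (.sp 2 9 (.tr 8 2
  9) (.sp 1 4 (.app 1 [2, 1, 4, 5, 8, 7]) (.sp 6 9 (.app 1 [2, 3, 5, 6, 8, 9]) (.sp 2 4 (.sp 5 9
  (.sp 1 10 (.app 1 [1, 2, 4, 5, 10, 9]) (.sp 0 9 (.sp 1 9 (.tr 1 9 5) (.sp 2 10 (.app 2 [9, 10,
  0, 1, 2, 3, 4]) (.app 0 [1, 9, 2, 10]))) (.tr 0 5 9))) (.app 0 [5, 9, 6, 10])) (.app 0 [1, 4, 2,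
  5]))))) (.app 0 [1, 7, 2, 8]))) (.tr 5 0 7)) (.tr 3 0 5))))) (.sp 5 7 (.tr 0 7 5) (.sp 5 10 (.sp
  2 6 (.app 1 [3, 2, 6, 5, 0, 10]) (.sp 4 8 (.app 1 [5, 4, 8, 7, 10, 0]) (.sp 1 6 (.sp 5 8 (.sp 1
  5 (.tr 5 1 6) (.sp 1 4 (.app 1 [0, 1, 4, 5, 7, 8]) (.app 0 [0, 4, 1, 5]))) (.app 0 [4, 7, 5,
  8])) (.app 0 [1, 6, 2, 7])))) (.app 0 [5, 10, 6, 0]))))))) (.tr 0 7 3))) (.sp 0 3 (.tr 0 3 7)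
  (.sp 0 6 (.sp 2 10 (.app 1 [2, 3, 7, 6, 10, 0]) (.sp 0 2 (.sp 2 6 (.sp 8 10 (.app 1 [2, 3, 7, 8,
  0, 10]) (.sp 0 8 (.sp 2 8 (.sp 6 8 (.sp 2 9 (.tr 8 2 9) (.sp 6 9 (.tr 8 6 9) (.sp 7 9 (.sp 1 10
  (.app 1 [1, 2, 6, 7, 10, 9]) (.sp 1 9 (.app 2 [7, 8, 9, 10, 0, 1, 2]) (.app 0 [1, 9, 2, 10])))
  (.app 0 [6, 9, 7, 10])))) (.tr 6 0 8)) (.tr 2 0 8)) (.app 0 [7, 10, 8, 0]))) (.tr 2 0 6)) (.app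
  0 [2, 10, 3, 0]))) (.app 0 [6, 10, 7, 0]))))))) (.sp 2 6 (.sp 2 7 (.tr 6 2 7) (.sp 2 10 (.tr 6 2
  10) (.sp 2 8 (.sp 6 8 (.sp 2 9 (.tr 8 2 9) (.sp 6 9 (.tr 8 6 9) (.sp 3 9 (.sp 7 9 (.tr 3 9 7)
  (.sp 7 10 (.app 1 [3, 2, 6, 7, 9, 10]) (.app 0 [6, 9, 7, 10]))) (.app 0 [2, 9, 3, 10])))) (.tr 6
  2 8)) (.sp 3 8 (.sp 8 10 (.tr 3 8 10) (.sp 0 2 (.sp 0 7 (.tr 2 0 7) (.sp 0 8 (.tr 2 0 8) (.sp 7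
  10 (.app 1 [2, 3, 8, 7, 0, 10]) (.app 0 [7, 10, 8, 0])))) (.sp 0 6 (.tr 0 6 2) (.sp 0 3 (.sp 0 7
  (.tr 3 0 7) (.sp 7 10 (.app 1 [3, 2, 6, 7, 0, 10]) (.app 0 [6, 10, 7, 0]))) (.app 0 [2, 10, 3,
  0]))))) (.app 0 [2, 7, 3, 8]))))) (.sp 2 8 (.sp 1 8 (.tr 1 8 2) (.sp 2 7 (.tr 7 2 8) (.sp 2 9
  (.tr 8 2 9) (.sp 3 6 (.sp 2 10 (.sp 0 2 (.tr 0 2 10) (.sp 7 10 (.tr 2 10 7) (.sp 7 9 (.app 1 [2,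
  3, 6, 7, 10, 9]) (.sp 0 7 (.app 1 [2, 3, 6, 7, 10, 0]) (.sp 0 8 (.tr 0 8 2) (.sp 6 9 (.sp 1 7
  (.app 1 [2, 1, 7, 6, 10, 9]) (.app 0 [0, 7, 1, 8])) (.app 0 [6, 9, 7, 10]))))))) (.sp 3 9 (.sp 6
  9 (.sp 1 5 (.app 1 [2, 1, 5, 6, 8, 9]) (.sp 1 10 (.sp 1 6 (.tr 6 1 10) (.sp 2 5 (.app 1 [1, 2,
  5, 6, 10, 9]) (.app 0 [1, 5, 2, 6]))) (.sp 1 9 (.sp 0 9 (.tr 0 9 1) (.sp 0 3 (.tr 0 3 9) (.sp 0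
  6 (.tr 0 6 9) (.sp 0 2 (.sp 0 7 (.tr 2 0 7) (.sp 7 10 (.app 1 [2, 3, 6, 7, 0, 10]) (.app 0 [6,
  10, 7, 0]))) (.app 0 [2, 10, 3, 0]))))) (.app 0 [1, 9, 2, 10])))) (.tr 6 3 9)) (.app 0 [2, 9, 3,
  10]))) (.app 0 [2, 6, 3, 7]))))) (.sp 2 7 (.sp 1 7 (.tr 1 7 2) (.sp 7 10 (.sp 0 7 (.tr 0 7 10)
  (.sp 1 10 (.tr 1 10 7) (.sp 2 10 (.sp 2 9 (.tr 9 2 10) (.sp 5 9 (.sp 2 5 (.tr 2 5 9) (.sp 1 6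
  (.app 1 [2, 1, 6, 5, 10, 9]) (.sp 3 6 (.app 1 [2, 3, 6, 5, 10, 9]) (.sp 3 5 (.sp 0 6 (.app 1 [2,
  3, 5, 6, 10, 0]) (.app 0 [0, 6, 1, 7])) (.app 0 [2, 5, 3, 6]))))) (.sp 5 10 (.sp 0 5 (.tr 0 5
  10) (.sp 1 5 (.tr 1 5 10) (.sp 2 5 (.sp 4 10 (.tr 4 10 5) (.sp 5 7 (.sp 4 7 (.tr 4 7 10) (.sp 0
  4 (.sp 1 8 (.app 1 [1, 0, 4, 5, 8, 7]) (.sp 3 8 (.app 1 [4, 3, 8, 7, 0, 10]) (.sp 1 9 (.sp 4 8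
  (.app 1 [1, 2, 5, 4, 9, 8]) (.app 0 [3, 7, 4, 8])) (.app 0 [1, 8, 2, 9])))) (.sp 1 4 (.sp 0 3
  (.sp 0 8 (.app 1 [0, 1, 4, 5, 8, 7]) (.sp 3 8 (.tr 0 3 8) (.sp 4 8 (.app 1 [3, 4, 8, 7, 0, 10])
  (.app 0 [3, 7, 4, 8])))) (.app 0 [3, 10, 4, 0])) (.app 0 [0, 4, 1, 5])))) (.tr 5 10 7))) (.tr 2
  10 5)))) (.sp 2 5 (.tr 5 2 10) (.sp 6 9 (.sp 1 5 (.app 1 [2, 1, 5, 6, 10, 9]) (.sp 3 5 (.app 1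
  [2, 3, 5, 6, 10, 9]) (.sp 1 6 (.sp 3 6 (.sp 0 6 (.tr 0 6 1) (.sp 0 5 (.app 1 [2, 3, 6, 5, 10,
  0]) (.app 0 [5, 10, 6, 0]))) (.app 0 [2, 5, 3, 6])) (.app 0 [1, 5, 2, 6])))) (.app 0 [5, 9, 6,
  10])))))) (.tr 2 7 10)))) (.sp 2 10 (.tr 7 2 10) (.sp 2 9 (.sp 3 9 (.tr 2 9 3) (.sp 6 9 (.tr 2 9
  6) (.sp 7 9 (.sp 5 9 (.sp 4 9 (.tr 4 9 5) (.sp 4 7 (.tr 4 7 9) (.sp 4 10 (.sp 4 6 (.tr 6 4 10)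
  (.sp 3 6 (.app 1 [4, 3, 6, 7, 10, 9]) (.app 0 [3, 6, 4, 7]))) (.app 0 [3, 9, 4, 10])))) (.sp 2 5
  (.tr 5 2 9) (.sp 5 10 (.sp 3 5 (.tr 3 5 10) (.sp 3 6 (.app 1 [2, 3, 6, 5, 9, 10]) (.app 0 [2, 5,
  3, 6]))) (.app 0 [5, 9, 6, 10])))) (.tr 7 2 9)))) (.sp 7 9 (.tr 2 7 9) (.sp 3 9 (.sp 6 9 (.sp 4
  9 (.tr 3 9 4) (.sp 3 6 (.sp 5 9 (.tr 5 9 6) (.sp 1 10 (.app 1 [1, 2, 7, 6, 10, 9]) (.sp 1 9 (.sp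
  0 9 (.tr 0 9 1) (.sp 0 3 (.tr 0 3 9) (.sp 0 6 (.tr 0 6 9) (.sp 0 2 (.sp 0 7 (.sp 5 10 (.app 1
  [2, 3, 6, 5, 0, 10]) (.sp 4 10 (.app 1 [4, 3, 6, 7, 10, 0]) (.app 0 [4, 9, 5, 10]))) (.app 0 [6,
  10, 7, 0])) (.app 0 [2, 10, 3, 0]))))) (.app 0 [1, 9, 2, 10])))) (.tr 3 9 6))) (.app 0 [6, 9, 7,
  10])) (.app 0 [2, 9, 3, 10]))))))) (.sp 3 6 (.sp 3 8 (.sp 6 8 (.sp 3 9 (.tr 8 3 9) (.sp 6 9 (.tr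
  8 6 9) (.sp 7 10 (.sp 2 10 (.tr 2 10 7) (.sp 2 9 (.app 1 [2, 3, 6, 7, 9, 10]) (.app 0 [2, 9, 3,
  10]))) (.sp 7 9 (.sp 2 9 (.tr 2 9 7) (.sp 2 10 (.app 1 [2, 3, 6, 7, 10, 9]) (.app 0 [2, 9, 3,
  10]))) (.app 0 [6, 9, 7, 10]))))) (.tr 6 3 8)) (.app 0 [2, 7, 3, 8])) (.app 0 [2, 6, 3,
  7])))))))

theorem valid_list11 : ∀ L ∈ list11, L.Valid := by
  intro L hL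
  simp only [list11, List.mem_cons, List.not_mem_nil, or_false] at hL
  rcases hL with rfl | rfl | rfl
  · exact validLA
  · exact validLB
  · exact validLC

theorem cyc11_false (V : Type) (R : V → V → Prop) (dm : V → V) (h : Good R dm) (v : ℕ → V)
    (hadj : ∀ a b, a < 11 → b < 11 → adjc 11 a b = true → ¬ R2 R (v a) (v b))
    (hfar : ∀ a b, a < 11 → b < 11 → a ≠ b → adjc 11 a b = false → R2 R (v a) (v b)) :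
    False :=
  cyc_false 11 list11 treeC11 valid_list11 (by decide +kernel) V R dm h v hadj hfar

end Pool.Agent.P6ED
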