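import Pool.Agent.P6ED.Lem

set_option autoImplicit false
set_option maxRecDepth 100000

namespace Pool.Agent.P6ED

/-- The 7-cycle with dominator pattern 0101012. -/
def lemP0 : Lem :=
  { m := 7
    X := [(0, 1), (1, 2), (2, 3), (3, 4), (4, 5), (5, 6), (0, 6)]
    A := [(0, 3), (0, 5), (1, 4), (1, 6), (2, 5), (2, 6), (3, 6), (4, 6)]
    T := [(0, 2), (2, 4), (1, 3), (3, 5)]
    F := [] }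

/-- The refutation tree (190 leaves). -/
def treeP0 : Tree := .sp 1 7 0 (.far 0 1 14) (.sp 6 7 0 (.far 0 6 14) (.sp 2 7 0 (.far 2 3 14)
  (.sp 4 7 0 (.far 3 4 14) (.sp 1 8 0 (.far 0 1 16) (.sp 6 8 0 (.far 0 6 16) (.sp 4 8 0 (.far 4 5
  16) (.sp 0 9 0 (.far 0 1 18) (.sp 2 9 0 (.far 1 2 18) (.sp 3 9 0 (.far 3 4 18) (.sp 5 9 0 (.far
  4 5 18) (.sp 0 10 0 (.far 0 1 20) (.sp 2 10 0 (.far 1 2 20) (.sp 5 10 0 (.far 5 6 20) (.sp 1 11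
  0 (.far 1 2 22) (.sp 3 11 0 (.far 2 3 22) (.sp 4 11 0 (.far 4 5 22) (.sp 6 11 0 (.far 5 6 22)
  (.sp 1 12 0 (.far 1 2 24) (.sp 3 12 0 (.far 2 3 24) (.sp 5 12 0 (.far 5 6 24) (.sp 0 12 0 (.far
  0 6 24) (.sp 2 13 0 (.far 2 3 26) (.sp 4 13 0 (.far 3 4 26) (.sp 5 13 0 (.far 5 6 26) (.sp 0 13
  0 (.far 0 6 26) (.sp 3 14 0 (.far 3 4 28) (.sp 0 14 0 (.far 0 6 28) (.sp 0 1 0 (.far 0 1 0) (.sp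
  0 1 1 (.far 0 1 1) (.sp 1 2 0 (.far 1 2 2) (.sp 1 2 1 (.far 1 2 3) (.sp 2 3 0 (.far 2 3 4) (.sp
  2 3 1 (.far 2 3 5) (.sp 3 4 0 (.far 3 4 6) (.sp 3 4 1 (.far 3 4 7) (.sp 4 5 0 (.far 4 5 8) (.sp
  4 5 1 (.far 4 5 9) (.sp 5 6 0 (.far 5 6 10) (.sp 5 6 1 (.far 5 6 11) (.sp 0 6 0 (.far 0 6 0)
  (.sp 0 6 1 (.far 0 6 1) (.sp 0 3 1 (.far 2 3 1) (.sp 2 6 1 (.far 0 6 5) (.sp 1 4 1 (.far 1 2 9)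
  (.sp 2 5 1 (.far 4 5 5) (.sp 0 4 1 (.sp 4 6 1 (.tr 2 4 6) (.sp 0 5 1 (.tr 2 0 5) (.sp 3 6 1
  (.far 5 6 7) (.sp 1 5 1 (.sp 1 6 1 (.tr 3 1 6) (.sp 1 7 1 (.sp 0 7 1 (.far 0 1 15) (.sp 6 7 1
  (.tr 1 7 6) (.sp 3 7 1 (.sp 1 6 0 (.p6 1077424268) (.sp 0 2 0 (.sp 0 3 0 (.far 2 3 0) (.sp 2 6 0
  (.far 0 6 4) (.sp 3 6 0 (.p6 4298662669) (.sp 12 13 0 (.sp 10 12 0 (.sp 0 13 1 (.sp 6 13 1 (.far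
  0 6 27) (.sp 7 13 0 (.p6 14166843396) (.p6 14166811520))) (.sp 4 13 1 (.tr 0 4 13) (.sp 7 13 0
  (.sp 6 13 1 (.sp 3 13 1 (.tr 3 13 6) (.sp 4 6 0 (.p6 7623721481) (.sp 3 12 1 (.sp 0 12 1 (.tr 0
  12 3) (.sp 6 12 1 (.tr 3 12 6) (.sp 7 12 1 (.sp 7 12 0 (.sp 1 3 0 (.p6 2251916045) (.sp 1 9 1
  (.sp 2 9 1 (.far 1 2 19) (.sp 4 9 1 (.tr 1 9 4) (.sp 6 9 1 (.tr 1 9 6) (.sp 3 9 1 (.sp 2 4 0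
  (.sp 1 4 0 (.far 1 2 8) (.sp 2 5 0 (.far 4 5 4) (.sp 0 4 0 (.sp 7 9 0 (.sp 0 5 0 (.far 4 5 0)
  (.sp 13 14 0 (.sp 6 9 0 (.p6 14164746244) (.sp 1 5 0 (.p6 10776314112) (.sp 8 9 0 (.sp 3 14 1
  (.sp 1 8 1 (.sp 0 14 1 (.tr 0 14 3) (.sp 6 14 1 (.tr 3 14 6) (.sp 7 14 1 (.sp 0 8 1 (.far 0 1
  17) (.sp 6 8 1 (.tr 1 8 6) (.sp 7 14 0 (.sp 8 14 0 (.p6 1078051597) (.sp 2 14 0 (.sp 9 14 0 (.p6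
  14167385088) (.sp 1 14 0 (.far 1 2 28) (.p6 14167344258))) (.p6 14167367684))) (.p6
  1077532428)))) (.tr 7 3 14)))) (.p6 8594170050)) (.p6 7623787008)) (.p6 11005887618)))) (.p6
  6881919488))) (.p6 6677365890)) (.p6 8606769346)))) (.p6 6765969732)) (.tr 3 1 9))))) (.sp 3 9 1
  (.tr 1 3 9) (.sp 2 9 1 (.p6 6493380932) (.sp 4 9 1 (.tr 2 4 9) (.sp 1 4 0 (.sp 2 4 0 (.far 1 2
  8) (.p6 6493339972)) (.p6 9802621382))))))) (.p6 1077515788)) (.tr 7 3 12)))) (.p6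
  7623770368)))) (.p6 14166843396)) (.p6 13322739713)))) (.p6 2486272256)) (.p6 6881902848)))))
  (.p6 4311802050))) (.tr 3 1 7)))) (.sp 3 7 1 (.tr 1 3 7) (.sp 2 11 1 (.sp 1 11 1 (.far 1 2 23)
  (.sp 3 11 1 (.far 2 3 23) (.sp 0 11 1 (.sp 5 11 1 (.tr 2 11 5) (.sp 6 11 1 (.tr 2 11 6) (.sp 4
  11 1 (.sp 3 5 0 (.sp 2 5 0 (.far 2 3 10) (.sp 3 6 0 (.far 5 6 6) (.sp 2 6 0 (.p6 6616007437)
  (.sp 12 13 0 (.sp 5 12 1 (.sp 6 12 1 (.far 5 6 25) (.sp 11 12 0 (.p6 14166352518) (.p6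
  14166279562))) (.sp 1 12 1 (.tr 5 1 12) (.sp 11 12 0 (.sp 6 12 1 (.sp 0 12 1 (.far 0 6 25) (.sp
  2 12 1 (.tr 2 12 6) (.sp 1 6 0 (.p6 3258024197) (.sp 0 10 1 (.sp 6 10 1 (.far 0 6 21) (.sp 5 10
  1 (.tr 0 10 5) (.sp 10 11 1 (.sp 10 11 0 (.p6 14165303947) (.p6 11984786700)) (.tr 10 0 11))))
  (.sp 2 10 1 (.tr 0 2 10) (.sp 10 12 0 (.sp 0 2 0 (.sp 0 3 0 (.far 2 3 0) (.sp 1 3 0 (.sp 0 5 0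
  (.sp 1 4 0 (.far 3 4 2) (.sp 1 5 0 (.far 0 1 10) (.p6 8981618882))) (.p6 10844995840)) (.p6
  4298662082))) (.p6 2489335872)) (.p6 5442159874))))))) (.p6 14166352523)) (.p6 13288694411))))
  (.p6 10844947972))))) (.p6 8981619142)) (.tr 4 2 11)))) (.tr 0 2 11)))) (.sp 1 9 1 (.sp 2 9 1
  (.far 1 2 19) (.sp 4 9 1 (.tr 1 9 4) (.sp 3 9 1 (.sp 2 4 0 (.sp 1 4 0 (.far 1 2 8) (.sp 1 3 0
  (.sp 9 11 0 (.p6 6480814341) (.p6 23691600006)) (.sp 4 7 1 (.p6 8845287618) (.sp 0 7 1 (.tr 4 0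
  7) (.sp 0 3 0 (.sp 0 2 0 (.far 2 3 0) (.p6 4311769282)) (.p6 2266554369)))))) (.p6 6765969732))
  (.tr 3 1 9)))) (.sp 3 9 1 (.tr 1 3 9) (.sp 5 11 1 (.sp 3 11 1 (.sp 2 4 0 (.sp 1 4 0 (.far 1 2 8)
  (.sp 7 9 0 (.p6 7620600324) (.sp 1 3 0 (.p6 15133647364) (.p6 15133844616)))) (.p6 8674959814))
  (.tr 3 5 11)) (.sp 2 4 0 (.sp 1 4 0 (.far 1 2 8) (.sp 7 9 0 (.p6 7620600324) (.sp 1 3 0 (.p6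
  15133647364) (.p6 15133844616)))) (.sp 2 5 0 (.sp 3 5 0 (.far 2 3 10) (.p6 8674910662)) (.p6
  8674960011)))))))))) (.tr 1 3 5))))) (.tr 0 2 4)))))))))))))))))))))))))))))))))))))))))))))))

theorem validP0 : lemP0.Valid := Lem.valid_of_chk _ treeP0 (by decide +kernel)

end Pool.Agent.P6ED
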