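import Pool.Agent.P6ED.Lem

set_option autoImplicit false
set_option maxRecDepth 100000

namespace Pool.Agent.P6ED

/-- The 7-cycle with dominator pattern 0101202. -/
def lemP1 : Lem :=
  { m := 7
    X := [(0, 1), (1, 2), (2, 3), (3, 4), (4, 5), (5, 6), (0, 6)]
    A := [(0, 3), (0, 4), (1, 4), (1, 5), (1, 6), (2, 4), (2, 6), (3, 5), (3, 6)]
    T := [(0, 2), (2, 5), (1, 3), (4, 6)]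
    F := [] }

/-- The refutation tree (237 leaves). -/
def treeP1 : Tree := .sp 0 15 0 (.far 0 6 30) (.sp 5 15 0 (.far 5 6 30) (.sp 1 13 0 (.far 1 2 26)
  (.sp 4 15 0 (.far 3 4 30) (.sp 2 15 0 (.far 2 3 30) (.sp 2 3 0 (.far 2 3 4) (.sp 3 4 0 (.far 3 4
  6) (.sp 3 4 1 (.far 3 4 7) (.sp 4 10 0 (.far 4 5 20) (.sp 6 10 0 (.far 5 6 20) (.sp 0 11 0 (.far
  0 6 22) (.sp 5 11 0 (.far 5 6 22) (.sp 0 1 1 (.far 0 1 1) (.sp 2 6 1 (.far 0 6 5) (.sp 1 2 1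
  (.tr 0 2 1) (.sp 0 3 1 (.far 2 3 1) (.sp 2 3 1 (.tr 0 2 3) (.sp 0 6 1 (.tr 2 0 6) (.sp 2 7 0
  (.far 2 3 14) (.sp 4 7 0 (.far 3 4 14) (.sp 0 6 0 (.far 0 6 0) (.sp 0 1 0 (.far 0 1 0) (.sp 5 6
  0 (.far 5 6 10) (.sp 2 10 0 (.far 1 2 20) (.sp 0 10 0 (.far 0 1 20) (.sp 0 9 0 (.far 0 1 18)
  (.sp 1 8 0 (.far 0 1 16) (.sp 6 8 0 (.far 0 6 16) (.sp 1 4 1 (.tr 3 1 4) (.sp 5 6 1 (.far 5 6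
  11) (.sp 1 5 1 (.tr 1 5 2) (.sp 3 5 1 (.tr 2 5 3) (.sp 2 4 1 (.far 4 5 5) (.sp 0 5 1 (.sp 4 5 1
  (.tr 2 5 4) (.sp 0 4 1 (.tr 2 0 4) (.sp 3 6 1 (.far 3 4 13) (.sp 1 6 1 (.tr 1 6 4) (.sp 1 2 0
  (.far 1 2 2) (.sp 0 13 0 (.far 0 6 26) (.sp 5 13 0 (.far 5 6 26) (.sp 3 8 0 (.far 3 4 16) (.sp 5
  8 0 (.far 4 5 16) (.sp 4 5 0 (.far 4 5 8) (.sp 1 7 0 (.far 0 1 14) (.sp 6 7 0 (.far 0 6 14) (.sp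
  5 9 0 (.far 4 5 18) (.sp 2 11 0 (.far 1 2 22) (.sp 2 7 1 (.sp 6 7 1 (.tr 2 7 6) (.sp 3 7 1 (.tr
  2 7 3) (.sp 4 7 1 (.tr 2 7 4) (.sp 1 7 1 (.far 1 2 15) (.sp 1 3 0 (.sp 0 3 0 (.far 0 1 6) (.sp 1
  4 0 (.far 3 4 2) (.sp 0 4 0 (.p6 2251817481) (.sp 4 8 1 (.sp 6 8 1 (.sp 0 8 1 (.tr 0 8 4) (.sp 3
  8 1 (.tr 3 8 4) (.sp 7 8 1 (.tr 4 8 7) (.sp 7 8 0 (.sp 3 6 0 (.sp 2 6 0 (.far 2 3 12) (.p6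
  14161600836)) (.p6 7620592460)) (.p6 18522104199))))) (.tr 6 4 8)) (.sp 7 8 0 (.p6 2251883017)
  (.p6 9802089350)))))) (.p6 4550320322)))))) (.sp 0 7 1 (.tr 2 0 7) (.sp 0 8 1 (.sp 3 8 1 (.tr 0
  8 3) (.sp 4 8 1 (.tr 0 8 4) (.sp 5 8 1 (.sp 4 6 0 (.sp 3 6 0 (.far 3 4 12) (.sp 0 4 0 (.far 0 6
  8) (.sp 0 3 0 (.p6 13023314311) (.sp 2 15 1 (.sp 6 15 1 (.tr 2 15 6) (.sp 3 7 1 (.sp 6 7 1 (.tr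
  3 7 6) (.sp 1 7 1 (.sp 7 15 0 (.sp 0 2 0 (.sp 2 6 0 (.far 0 6 4) (.p6 4298760973)) (.p6
  4311802050)) (.p6 236577549)) (.tr 1 3 7))) (.sp 7 8 0 (.p6 13023371655) (.p6 8858427783))))
  (.sp 0 15 1 (.tr 2 0 15) (.sp 7 15 0 (.p6 1077535496) (.p6 1077438348))))))) (.p6 13038060234))
  (.tr 5 0 8)))) (.sp 2 8 1 (.tr 0 2 8) (.sp 5 8 1 (.tr 0 5 8) (.sp 0 15 1 (.sp 5 15 1 (.sp 4 15 1
  (.tr 0 15 4) (.sp 6 15 1 (.far 0 6 31) (.sp 4 6 0 (.sp 0 4 0 (.far 0 6 8) (.sp 0 5 0 (.sp 1 5 0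
  (.far 0 1 10) (.sp 4 10 1 (.sp 0 10 1 (.tr 0 10 4) (.sp 5 10 1 (.far 4 5 21) (.sp 1 10 1 (.tr 1
  10 4) (.sp 3 10 1 (.tr 3 10 4) (.sp 8 10 0 (.p6 13023396491) (.sp 2 5 0 (.sp 1 4 0 (.sp 3 5 0
  (.far 2 3 10) (.sp 1 3 0 (.far 3 4 2) (.sp 3 10 0 (.sp 0 3 0 (.p6 8947523585) (.p6 8858412294))
  (.p6 11984183750)))) (.p6 8858412290)) (.p6 4482220163))))))) (.sp 6 10 1 (.tr 4 6 10) (.sp 1 4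
  0 (.p6 9798500992) (.sp 1 6 0 (.p6 14160577152) (.sp 8 10 0 (.sp 5 10 1 (.sp 1 10 1 (.tr 1 10 5)
  (.sp 1 8 1 (.sp 6 8 1 (.tr 1 8 6) (.sp 6 11 1 (.sp 1 11 1 (.tr 1 11 6) (.sp 2 11 1 (.tr 2 11 6)
  (.sp 2 6 0 (.p6 3260596485) (.sp 6 13 1 (.sp 1 13 1 (.tr 1 13 6) (.sp 2 13 1 (.tr 2 13 6) (.sp
  11 13 0 (.p6 3260653829) (.p6 4734410883)))) (.sp 10 13 0 (.p6 173122317) (.sp 8 13 0 (.p6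
  10741719821) (.sp 2 5 0 (.p6 14166803092) (.sp 0 13 1 (.p6 14166790160) (.sp 5 13 1 (.tr 0 5 13)
  (.p6 14166803146)))))))))) (.sp 10 11 0 (.p6 173105933) (.p6 14165746954)))) (.p6 13023395971)))
  (.p6 13023396491)) (.p6 8858412290))))))) (.p6 13023314634))) (.p6 11265425992)))) (.tr 5 0 15))
  (.sp 2 10 1 (.sp 1 10 1 (.tr 1 10 2) (.sp 0 10 1 (.sp 6 10 1 (.tr 2 10 6) (.sp 4 10 1 (.tr 2 10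
  4) (.sp 1 6 0 (.p6 357573389) (.sp 5 13 1 (.sp 6 13 1 (.tr 5 13 6) (.sp 0 13 1 (.sp 6 8 1 (.sp 1
  8 1 (.tr 1 8 6) (.sp 0 5 0 (.sp 1 5 0 (.far 0 1 10) (.sp 0 4 0 (.far 4 5 0) (.sp 1 4 0 (.p6
  9798500992) (.sp 4 9 1 (.sp 0 9 1 (.tr 0 9 4) (.sp 1 9 1 (.tr 1 9 4) (.sp 8 9 0 (.p6 1078009987)
  (.p6 2451636225)))) (.sp 9 10 0 (.p6 9802695296) (.p6 9802622218)))))) (.p6 13174309578))) (.sp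
  8 13 0 (.sp 4 8 1 (.tr 6 4 8) (.sp 0 5 0 (.p6 10741719821) (.sp 0 4 0 (.sp 4 6 0 (.far 0 6 8)
  (.p6 13037994698)) (.p6 10754261513)))) (.p6 14166790160))) (.tr 0 5 13))) (.sp 2 13 1 (.tr 5 2
  13) (.sp 0 13 1 (.tr 5 0 13) (.sp 6 11 1 (.sp 0 11 1 (.tr 0 11 6) (.sp 1 11 1 (.tr 1 11 6) (.sp
  2 11 1 (.tr 2 11 6) (.sp 5 11 1 (.far 5 6 23) (.sp 2 6 0 (.p6 3260596485) (.sp 11 13 0 (.sp 1 13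
  1 (.sp 0 2 0 (.sp 6 13 1 (.tr 1 13 6) (.sp 2 5 0 (.sp 10 13 0 (.sp 0 5 0 (.p6 173122317) (.sp 2
  4 0 (.far 4 5 4) (.sp 8 13 0 (.p6 13325304522) (.sp 6 8 1 (.p6 13174309578) (.sp 8 11 0 (.p6
  13258195658) (.sp 2 8 0 (.sp 4 8 1 (.tr 6 4 8) (.sp 4 6 0 (.sp 0 4 0 (.far 0 6 8) (.p6
  10754261513)) (.p6 5440045900))) (.p6 17181025666))))))) (.p6 14166803092)) (.p6 14166803146)))
  (.p6 2523414592)) (.p6 3260653829)) (.p6 5442684290))))))) (.sp 2 5 0 (.sp 2 6 0 (.far 5 6 4)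
  (.sp 1 5 0 (.far 1 2 10) (.sp 10 11 0 (.p6 4468073229) (.p6 14165746954)))) (.sp 2 6 0 (.sp 3 6
  0 (.far 2 3 12) (.sp 0 2 0 (.far 0 6 4) (.sp 0 3 0 (.p6 14161022982) (.sp 1 3 0 (.p6 4311802242)
  (.sp 1 7 1 (.p6 4311802050) (.p6 1077436610)))))) (.sp 6 13 1 (.sp 1 13 1 (.tr 1 13 6) (.sp 1 5
  0 (.p6 29428331138) (.sp 10 11 0 (.sp 0 5 0 (.p6 173105933) (.sp 6 8 1 (.p6 13174309578) (.sp 4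
  8 1 (.tr 6 4 8) (.sp 0 4 0 (.sp 4 6 0 (.far 0 6 8) (.p6 13037994698)) (.p6 10754261513))))) (.p6
  14165746954)))) (.p6 14166803146))))))))))) (.tr 0 2 10))) (.sp 0 10 1 (.tr 2 0 10) (.sp 5 10 1
  (.tr 2 5 10) (.sp 0 5 0 (.sp 1 5 0 (.far 0 1 10) (.sp 0 4 0 (.far 4 5 0) (.sp 4 8 1 (.sp 6 8 1
  (.sp 1 8 1 (.tr 1 8 4) (.sp 1 4 0 (.p6 3256942602) (.sp 8 10 0 (.sp 1 10 1 (.sp 6 10 1 (.tr 1 10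
  6) (.p6 11984241484)) (.p6 1078018179)) (.p6 8858412290)))) (.tr 6 4 8)) (.sp 4 6 0 (.sp 7 15 0
  (.p6 1077535496) (.sp 3 6 0 (.far 3 4 12) (.sp 0 3 0 (.p6 1075438344) (.p6 1077438348)))) (.p6
  13038059530))))) (.sp 6 8 1 (.p6 13174309578) (.sp 6 10 1 (.p6 13242507328) (.sp 4 8 1 (.tr 6 4
  8) (.sp 4 10 1 (.tr 6 4 10) (.sp 0 4 0 (.p6 21642871305) (.p6
  10754261513)))))))))))))))))))))))))))))) (.tr 0 2 5))))))))))))))))))))))))))))))))))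

theorem validP1 : lemP1.Valid := Lem.valid_of_chk _ treeP1 (by decide +kernel)

end Pool.Agent.P6ED
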