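import Pool.Agent.P6ED.Lem

set_option autoImplicit false
set_option maxRecDepth 100000

namespace Pool.Agent.P6ED

/-- The 7-cycle with dominator pattern 0102012. -/
def lemP2 : Lem :=
  { m := 7
    X := [(0, 1), (1, 2), (2, 3), (3, 4), (4, 5), (5, 6), (0, 6)]
    A := [(0, 3), (0, 5), (1, 3), (1, 4), (1, 6), (2, 5), (2, 6), (3, 5), (4, 6)]
    T := [(0, 2), (2, 4), (1, 5), (3, 6)]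
    F := [] }

/-- The refutation tree (533 leaves). -/
def treeP2 : Tree := .sp 3 15 0 (.far 3 4 30) (.sp 5 15 0 (.far 4 5 30) (.sp 0 11 0 (.far 0 6 22)
  (.sp 5 11 0 (.far 5 6 22) (.sp 4 7 0 (.far 3 4 14) (.sp 2 7 0 (.far 2 3 14) (.sp 0 1 0 (.far 0 1
  0) (.sp 4 5 0 (.far 4 5 8) (.sp 2 10 0 (.far 1 2 20) (.sp 0 10 0 (.far 0 1 20) (.sp 4 8 0 (.far
  4 5 16) (.sp 6 8 0 (.far 5 6 16) (.sp 4 5 1 (.far 4 5 9) (.sp 3 10 0 (.far 3 4 20) (.sp 5 10 0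
  (.far 4 5 20) (.sp 0 13 0 (.far 0 6 26) (.sp 5 13 0 (.far 5 6 26) (.sp 2 5 1 (.far 1 2 11) (.sp
  1 6 1 (.far 5 6 3) (.sp 5 6 1 (.tr 1 5 6) (.sp 1 4 1 (.tr 4 1 5) (.sp 1 2 1 (.tr 2 1 5) (.sp 0 5
  1 (.far 0 1 11) (.sp 0 1 1 (.tr 0 1 5) (.sp 0 15 0 (.far 0 6 30) (.sp 6 7 0 (.far 0 6 14) (.sp 1
  7 0 (.far 0 1 14) (.sp 2 3 1 (.far 3 4 5) (.sp 3 4 1 (.tr 2 4 3) (.sp 0 6 1 (.far 0 6 1) (.sp 3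
  13 0 (.far 2 3 26) (.sp 1 13 0 (.far 1 2 26) (.sp 0 6 0 (.far 0 6 0) (.sp 3 12 0 (.far 2 3 24)
  (.sp 1 12 0 (.far 1 2 24) (.sp 4 9 0 (.far 3 4 18) (.sp 2 9 0 (.far 2 3 18) (.sp 0 3 1 (.tr 2 0
  3) (.sp 2 6 1 (.tr 0 2 6) (.sp 0 4 1 (.sp 4 6 1 (.tr 2 4 6) (.sp 3 4 0 (.far 3 4 6) (.sp 4 12 0
  (.far 4 5 24) (.sp 6 12 0 (.far 5 6 24) (.sp 2 11 0 (.far 1 2 22) (.sp 5 6 0 (.far 5 6 10) (.sp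
  2 3 0 (.far 2 3 4) (.sp 1 3 1 (.tr 1 3 6) (.sp 3 5 1 (.far 5 6 7) (.sp 2 14 0 (.far 2 3 28) (.sp
  4 14 0 (.far 3 4 28) (.sp 1 8 0 (.far 0 1 16) (.sp 6 14 0 (.far 5 6 28) (.sp 1 2 0 (.far 1 2 2)
  (.sp 0 9 0 (.far 0 1 18) (.sp 0 7 1 (.sp 1 7 1 (.far 0 1 15) (.sp 5 7 1 (.tr 0 7 5) (.sp 3 7 1
  (.tr 0 7 3) (.sp 4 7 1 (.sp 6 7 1 (.tr 0 7 6) (.sp 2 7 1 (.sp 1 3 0 (.p6 3256410436) (.sp 4 10 1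
  (.sp 1 10 1 (.tr 1 10 4) (.sp 5 10 1 (.tr 4 10 5) (.sp 0 10 1 (.sp 3 10 1 (.tr 3 10 4) (.sp 6 10
  1 (.tr 4 10 6) (.sp 2 10 1 (.sp 0 3 0 (.p6 3260026886) (.sp 7 10 0 (.p6 3260080519) (.sp 0 4 0
  (.p6 21609111943) (.sp 0 13 1 (.sp 6 13 1 (.far 0 6 27) (.sp 5 13 1 (.tr 0 13 5) (.sp 3 6 0 (.sp
  2 6 0 (.far 2 3 12) (.sp 3 5 0 (.far 5 6 6) (.sp 2 5 0 (.p6 6650610315) (.sp 13 14 0 (.sp 5 12 1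
  (.sp 2 12 1 (.tr 2 12 5) (.sp 4 14 1 (.sp 5 14 1 (.tr 4 14 5) (.sp 6 14 1 (.tr 4 14 6) (.p6
  14166901387))) (.sp 2 14 1 (.tr 4 2 14) (.sp 12 14 0 (.p6 12993003781) (.p6 5442152198))))) (.sp
  12 13 0 (.p6 11985330950) (.p6 13322257035))) (.p6 11208803972))))) (.p6 6663807040)))) (.sp 10
  13 1 (.tr 0 10 13) (.sp 4 15 1 (.sp 0 15 1 (.sp 5 15 1 (.tr 4 15 5) (.sp 2 15 1 (.sp 6 15 1 (.tr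
  4 15 6) (.sp 3 6 0 (.sp 4 6 0 (.far 3 4 12) (.sp 2 6 0 (.far 2 3 12) (.sp 3 5 0 (.far 5 6 6)
  (.sp 14 15 0 (.sp 2 12 1 (.sp 12 15 1 (.sp 6 12 1 (.tr 2 12 6) (.sp 5 12 1 (.tr 2 12 5) (.sp 12
  15 0 (.p6 14167933579) (.p6 11985352588)))) (.tr 12 2 15)) (.sp 7 14 1 (.sp 5 14 1 (.tr 5 14 7)
  (.sp 6 14 1 (.tr 6 14 7) (.p6 14167949963))) (.sp 2 14 1 (.tr 7 2 14) (.sp 12 14 0 (.p6
  12993003781) (.sp 2 5 0 (.sp 2 4 0 (.far 4 5 4) (.p6 8674912006)) (.p6 5442152198)))))) (.p6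
  11208804232))))) (.p6 6663823424))) (.tr 2 4 15))) (.tr 0 4 15)) (.sp 0 15 1 (.tr 4 0 15) (.sp 7
  15 1 (.tr 4 7 15) (.sp 10 11 1 (.sp 5 11 1 (.tr 5 11 10) (.sp 1 11 1 (.tr 1 11 10) (.sp 6 11 1
  (.tr 6 11 10) (.sp 1 5 0 (.sp 1 6 0 (.far 5 6 2) (.sp 0 5 0 (.far 0 1 10) (.sp 8 11 0 (.sp 1 4 0
  (.far 4 5 2) (.sp 0 8 1 (.sp 6 8 1 (.far 0 6 17) (.sp 5 8 1 (.tr 0 8 5) (.p6 14165803659))) (.p6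
  8606777986))) (.p6 13254566912)))) (.sp 0 5 0 (.sp 1 6 0 (.p6 14160540288) (.p6 10788365069))
  (.p6 10788356160)))))) (.sp 0 11 1 (.tr 10 0 11) (.sp 5 15 1 (.sp 1 15 1 (.sp 6 15 1 (.tr 5 15
  6) (.sp 3 15 1 (.tr 3 15 5) (.sp 4 6 0 (.sp 3 6 0 (.far 3 4 12) (.sp 0 5 0 (.p6 13019382411)
  (.sp 7 15 0 (.sp 1 5 0 (.sp 1 15 0 (.sp 1 4 0 (.far 4 5 2) (.p6 10778869824)) (.p6 2675499399))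
  (.p6 10788356160)) (.p6 33792487822)))) (.p6 153215757)))) (.tr 1 5 15)) (.sp 0 5 0 (.p6
  10739812255) (.sp 1 5 0 (.sp 1 6 0 (.far 5 6 2) (.sp 2 5 0 (.far 1 2 10) (.sp 10 13 0 (.sp 0 2 0
  (.p6 10776322304) (.sp 11 13 0 (.p6 2523414592) (.sp 2 6 0 (.sp 3 6 0 (.far 2 3 12) (.sp 6 12 1
  (.sp 4 6 0 (.sp 4 12 1 (.tr 4 12 6) (.p6 11143528969)) (.p6 13003973192)) (.p6 14161117826)))
  (.p6 23830478912)))) (.p6 27989983370)))) (.p6 10788356160)))))))))))))) (.tr 2 4 10)))) (.tr 0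
  4 10)))) (.sp 7 10 1 (.tr 4 7 10) (.sp 2 10 1 (.tr 4 2 10) (.sp 4 8 1 (.sp 5 8 1 (.far 4 5 17)
  (.sp 6 8 1 (.tr 4 8 6) (.sp 4 13 1 (.sp 5 13 1 (.far 4 5 27) (.sp 8 13 1 (.sp 6 13 1 (.tr 4 13
  6) (.sp 8 13 0 (.p6 14166852235) (.p6 11013038861))) (.tr 8 4 13))) (.sp 2 13 1 (.tr 4 2 13)
  (.sp 0 13 1 (.tr 4 0 13) (.sp 2 11 1 (.sp 5 11 1 (.tr 2 11 5) (.sp 1 11 1 (.tr 1 11 2) (.sp 6 11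
  1 (.tr 2 11 6) (.sp 8 11 0 (.p6 14165803659) (.sp 1 5 0 (.sp 1 6 0 (.far 5 6 2) (.p6
  14165746320)) (.sp 0 5 0 (.sp 1 6 0 (.p6 14160540288) (.p6 10788365069)) (.p6 23658800128)))))))
  (.sp 0 11 1 (.tr 2 0 11) (.sp 3 12 1 (.sp 4 12 1 (.tr 3 12 4) (.sp 2 12 1 (.tr 2 12 3) (.sp 6 12
  1 (.sp 1 12 1 (.tr 1 12 3) (.sp 2 4 0 (.sp 4 6 0 (.p6 11143528969) (.sp 2 5 0 (.far 4 5 4) (.sp
  3 6 0 (.sp 1 5 0 (.sp 2 6 0 (.far 2 3 12) (.sp 1 6 0 (.far 5 6 2) (.sp 0 5 0 (.far 0 1 10) (.sp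
  11 13 0 (.sp 0 2 0 (.p6 10776846592) (.p6 2523414592)) (.p6 5442684290))))) (.p6 5442150594))
  (.p6 13003973192)))) (.p6 8674968006))) (.tr 6 3 12)))) (.sp 6 12 1 (.tr 3 6 12) (.sp 7 9 1 (.sp
  1 9 1 (.tr 1 9 7) (.sp 3 6 0 (.sp 0 3 0 (.far 0 6 6) (.sp 2 6 0 (.far 2 3 12) (.sp 7 9 0 (.sp 0
  2 0 (.p6 3259555844) (.sp 11 13 0 (.p6 2523414592) (.p6 23830478912))) (.p6 3259523968)))) (.sp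
  2 6 0 (.sp 7 12 0 (.sp 2 5 0 (.far 5 6 4) (.sp 3 5 0 (.sp 2 4 0 (.p6 7620624648) (.sp 5 12 1
  (.sp 3 10 1 (.p6 6800048452) (.sp 2 12 1 (.tr 2 12 5) (.sp 10 12 0 (.p6 7619577096) (.p6
  21610382858)))) (.p6 11985240845))) (.p6 11141169606))) (.p6 25840087438)) (.p6 13003972932))))
  (.sp 4 9 1 (.tr 7 4 9) (.sp 2 9 1 (.tr 7 2 9) (.sp 2 4 0 (.sp 1 4 0 (.far 1 2 8) (.sp 7 12 0
  (.p6 7620624648) (.sp 2 5 0 (.far 4 5 4) (.sp 9 10 0 (.sp 1 5 0 (.sp 1 6 0 (.far 5 6 2) (.sp 0 5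
  0 (.far 0 1 10) (.sp 2 6 0 (.p6 14161117826) (.sp 11 13 0 (.sp 0 2 0 (.p6 10776846592) (.p6
  2523414592)) (.p6 5442684290))))) (.sp 5 10 1 (.sp 3 10 1 (.tr 3 10 5) (.sp 3 9 1 (.sp 1 9 1
  (.tr 1 9 3) (.sp 7 9 0 (.sp 0 2 0 (.p6 3259555844) (.sp 11 13 0 (.p6 2523414592) (.sp 2 6 0 (.sp
  3 6 0 (.far 2 3 12) (.p6 25840087438)) (.p6 23830478912)))) (.p6 3259523983))) (.p6
  7621657092))) (.p6 9803145930))) (.p6 9803146374))))) (.sp 1 4 0 (.p6 6744998212) (.sp 9 10 0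
  (.p6 6749716804) (.p6 9803146374)))))))))))))))) (.sp 7 8 1 (.tr 4 7 8) (.sp 0 8 1 (.tr 4 0 8)
  (.sp 4 12 1 (.sp 5 12 1 (.tr 4 12 5) (.sp 3 12 1 (.tr 3 12 4) (.sp 1 12 1 (.tr 1 12 4) (.sp 6 12
  1 (.tr 4 12 6) (.sp 3 5 0 (.p6 9015697799) (.sp 1 5 0 (.sp 1 6 0 (.far 5 6 2) (.sp 2 5 0 (.far 1
  2 10) (.sp 2 6 0 (.p6 14161117826) (.sp 3 6 0 (.sp 12 13 0 (.p6 6650692226) (.sp 6 13 1 (.sp 5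
  13 1 (.far 5 6 27) (.p6 13322257035)) (.p6 14166803978))) (.p6 13003972932))))) (.sp 1 4 0 (.sp
  5 8 1 (.sp 1 8 1 (.sp 2 4 0 (.far 1 2 8) (.sp 0 4 0 (.far 0 1 8) (.sp 0 3 0 (.p6 3256881158)
  (.sp 3 8 1 (.tr 3 8 5) (.sp 2 9 1 (.sp 1 9 1 (.tr 1 9 2) (.sp 7 9 0 (.sp 0 2 0 (.p6 3259555844)
  (.sp 2 8 0 (.sp 3 8 0 (.far 2 3 16) (.sp 7 8 0 (.p6 2436948359) (.p6 18522104199))) (.p6
  4311810242))) (.p6 3259523968))) (.p6 6744998212)))))) (.p6 17348436489)) (.p6 9798464144)) (.p6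
  9015697602)))))))) (.sp 2 12 1 (.tr 4 2 12) (.sp 4 15 1 (.sp 0 15 1 (.sp 3 15 1 (.far 3 4 31)
  (.sp 5 15 1 (.tr 4 15 5) (.sp 2 15 1 (.sp 6 15 1 (.tr 4 15 6) (.sp 14 15 1 (.sp 6 14 1 (.tr 6 14
  15) (.sp 5 14 1 (.tr 5 14 15) (.sp 14 15 0 (.p6 14167949963) (.p6 11215430413)))) (.sp 2 14 1
  (.tr 14 2 15) (.sp 3 6 0 (.sp 2 6 0 (.far 2 3 12) (.sp 3 5 0 (.far 5 6 6) (.sp 12 14 0 (.p6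
  12993003781) (.sp 2 5 0 (.sp 2 4 0 (.far 4 5 4) (.p6 8674912006)) (.p6 5442152198))))) (.sp 0 3
  0 (.sp 3 5 0 (.p6 32415441547) (.sp 1 6 0 (.p6 3257954688) (.sp 4 6 0 (.sp 2 6 0 (.sp 0 5 0 (.p6
  13003915915) (.sp 0 4 0 (.far 3 4 0) (.sp 1 4 0 (.p6 3256881158) (.sp 6 12 1 (.p6 11143528969)
  (.sp 2 5 0 (.far 5 6 4) (.sp 1 5 0 (.p6 14161117826) (.sp 1 8 1 (.p6 8606777538) (.p6
  1077977282)))))))) (.p6 13003972932)) (.p6 13003973192)))) (.p6 6663823424)))))) (.tr 2 4 15))))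
  (.tr 0 4 15)) (.sp 0 15 1 (.tr 4 0 15) (.sp 0 4 0 (.sp 1 4 0 (.far 0 1 8) (.sp 0 3 0 (.far 3 4
  0) (.sp 9 10 0 (.sp 7 10 0 (.sp 1 10 1 (.sp 3 10 1 (.tr 1 10 3) (.sp 3 9 1 (.sp 2 4 0 (.p6
  7620608516) (.sp 2 9 1 (.far 2 3 19) (.p6 6749716804))) (.p6 139534727))) (.p6 4550377603)) (.p6
  6677366018)) (.p6 6745047552)))) (.sp 1 4 0 (.sp 1 8 1 (.sp 0 3 0 (.p6 6444843139) (.sp 2 4 0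
  (.far 1 2 8) (.sp 3 8 1 (.tr 1 8 3) (.sp 2 9 1 (.sp 1 9 1 (.tr 1 9 2) (.sp 7 9 0 (.sp 0 2 0 (.p6
  3259555844) (.sp 2 8 0 (.sp 3 8 0 (.far 2 3 16) (.sp 7 8 0 (.p6 2436948359) (.p6 18522104199)))
  (.p6 4311810242))) (.p6 3259523968))) (.p6 6744998212))))) (.p6 3256881168)) (.sp 1 8 1 (.p6
  8606777538) (.sp 5 8 1 (.tr 1 5 8) (.sp 0 5 0 (.sp 4 6 0 (.p6 13019382411) (.sp 5 15 1 (.sp 6 15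
  1 (.tr 5 15 6) (.p6 153215757)) (.p6 10739812255))) (.p6 11983127112))))))))))))))))) (.tr 2 0
  7))) (.tr 4 0 7))))) (.sp 4 7 1 (.tr 0 4 7) (.sp 2 7 1 (.tr 0 2 7) (.sp 0 10 1 (.sp 1 10 1 (.far
  0 1 21) (.sp 3 10 1 (.tr 0 10 3) (.sp 2 10 1 (.sp 7 10 1 (.tr 0 10 7) (.sp 1 3 0 (.p6
  4652540295) (.sp 0 3 0 (.p6 6448038019) (.sp 7 10 0 (.sp 3 7 1 (.sp 6 7 1 (.sp 1 7 1 (.tr 1 7 3)
  (.sp 1 6 0 (.p6 2352799745) (.sp 0 2 0 (.p6 3260080132) (.sp 2 6 0 (.sp 2 5 0 (.far 5 6 4) (.sp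
  3 6 0 (.far 2 3 12) (.sp 5 12 1 (.sp 6 12 1 (.far 5 6 25) (.sp 3 12 1 (.tr 3 12 5) (.sp 1 5 0
  (.p6 14161117826) (.sp 3 5 0 (.sp 0 5 0 (.sp 2 4 0 (.p6 7619576072) (.sp 0 4 0 (.far 4 5 0) (.sp
  4 6 0 (.p6 14162071562) (.p6 8674918854)))) (.p6 10788356160)) (.p6 11141169606))))) (.sp 6 12 1
  (.sp 4 6 0 (.p6 11985277704) (.sp 2 4 0 (.sp 1 4 0 (.far 1 2 8) (.sp 3 9 1 (.sp 0 9 1 (.tr 0 9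
  3) (.sp 7 9 0 (.p6 4311803010) (.p6 2451103745))) (.sp 9 10 0 (.p6 7621657092) (.p6
  8926077319)))) (.p6 8674918854))) (.p6 11985240845))))) (.p6 13140230468))))) (.tr 6 3 7)) (.p6
  4652589447)) (.p6 6677419266))))) (.tr 2 0 10)))) (.sp 4 10 1 (.tr 0 4 10) (.sp 2 10 1 (.tr 0 2
  10) (.sp 0 13 1 (.sp 6 13 1 (.far 0 6 27) (.sp 5 13 1 (.tr 0 13 5) (.sp 4 13 1 (.sp 4 14 1 (.sp
  5 14 1 (.tr 4 14 5) (.sp 13 14 1 (.sp 6 14 1 (.tr 4 14 6) (.sp 13 14 0 (.p6 14166901387) (.p6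
  11986384524))) (.tr 13 4 14))) (.sp 2 14 1 (.tr 4 2 14) (.sp 3 6 0 (.sp 2 6 0 (.far 2 3 12) (.sp
  3 5 0 (.far 5 6 6) (.sp 2 5 0 (.p6 6650610315) (.sp 5 12 1 (.sp 2 12 1 (.tr 2 12 5) (.sp 12 14 0
  (.p6 12993003781) (.p6 5442152198))) (.sp 12 13 0 (.p6 11985330950) (.p6 13322257035)))))) (.sp
  0 3 0 (.sp 1 3 0 (.far 0 1 6) (.sp 0 2 0 (.far 2 3 0) (.sp 0 4 0 (.far 3 4 0) (.sp 1 4 0 (.p6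
  3256881158) (.sp 7 10 0 (.p6 4311803138) (.p6 15034778882)))))) (.p6 6663807040))))) (.tr 4 0
  13)))) (.sp 2 13 1 (.tr 0 2 13) (.sp 2 12 1 (.sp 6 12 1 (.tr 2 12 6) (.sp 4 12 1 (.sp 0 12 1
  (.sp 5 12 1 (.tr 2 12 5) (.sp 1 12 1 (.tr 1 12 2) (.sp 11 12 1 (.sp 6 11 1 (.tr 6 11 12) (.sp 5
  11 1 (.tr 5 11 12) (.sp 11 12 0 (.p6 14165836427) (.p6 11146191629)))) (.sp 2 11 1 (.tr 11 2 12)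
  (.sp 0 11 1 (.tr 11 0 12) (.sp 0 4 0 (.sp 1 4 0 (.far 0 1 8) (.sp 0 5 0 (.far 4 5 0) (.sp 1 5 0
  (.sp 1 6 0 (.far 5 6 2) (.sp 2 5 0 (.far 1 2 10) (.sp 2 6 0 (.p6 14161117826) (.sp 11 13 0 (.sp
  0 2 0 (.p6 10776846592) (.p6 2523414592)) (.p6 5442684290))))) (.p6 9015697602)))) (.sp 1 7 1
  (.sp 6 7 1 (.tr 1 7 6) (.sp 3 7 1 (.tr 1 7 3) (.sp 0 3 0 (.sp 3 6 0 (.far 0 6 6) (.sp 0 2 0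
  (.far 2 3 0) (.sp 2 6 0 (.p6 16342635268) (.p6 13322162182)))) (.p6 7620526664)))) (.sp 1 4 0
  (.p6 3256881166) (.sp 7 10 0 (.sp 1 5 0 (.sp 0 2 0 (.sp 1 6 0 (.far 5 6 2) (.sp 2 5 0 (.far 1 2
  10) (.sp 0 5 0 (.far 0 1 10) (.sp 2 6 0 (.p6 14161117826) (.sp 11 13 0 (.p6 10776846592) (.p6
  2519834880)))))) (.p6 4311803138)) (.p6 9015697602)) (.p6 15034778882)))))))))) (.tr 0 2 12))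
  (.tr 4 2 12))) (.sp 4 12 1 (.tr 2 4 12) (.sp 4 14 1 (.sp 2 14 1 (.sp 3 14 1 (.far 3 4 29) (.sp 3
  6 0 (.sp 4 6 0 (.far 3 4 12) (.sp 0 3 0 (.far 0 6 6) (.sp 2 6 0 (.far 2 3 12) (.sp 3 5 0 (.far 5
  6 6) (.sp 2 4 0 (.sp 12 14 0 (.p6 12993003784) (.sp 1 4 0 (.far 1 2 8) (.sp 2 5 0 (.far 4 5 4)
  (.sp 3 12 1 (.sp 5 12 1 (.tr 3 12 5) (.sp 1 12 1 (.tr 1 12 3) (.sp 1 5 0 (.sp 10 12 0 (.sp 10 14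
  0 (.sp 1 10 1 (.sp 3 10 1 (.tr 1 10 3) (.p6 7624278532)) (.p6 3260121349)) (.p6 8931813126))
  (.p6 9803145880)) (.p6 2334753029)))) (.p6 4700356999))))) (.sp 7 10 0 (.p6 6682607940) (.sp 3
  10 1 (.p6 6800048452) (.sp 0 4 0 (.sp 1 4 0 (.far 0 1 8) (.sp 1 3 0 (.p6 139469191) (.p6
  6677366018))) (.p6 21609317254))))))))) (.sp 2 6 0 (.sp 3 7 1 (.sp 4 6 0 (.sp 0 2 0 (.far 0 6 4)
  (.sp 1 7 1 (.tr 1 7 3) (.sp 0 4 0 (.far 0 6 8) (.sp 7 10 0 (.p6 4311803138) (.sp 1 4 0 (.p6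
  3256881166) (.p6 15034778882)))))) (.p6 13004030536)) (.p6 5438992782)) (.p6 13004030276))))
  (.tr 2 4 14)) (.sp 2 14 1 (.tr 4 2 14) (.sp 0 15 1 (.sp 6 15 1 (.tr 0 15 6) (.sp 3 6 0 (.sp 2 6
  0 (.far 2 3 12) (.sp 3 5 0 (.far 5 6 6) (.sp 12 14 0 (.p6 12993003781) (.sp 2 5 0 (.sp 2 4 0
  (.far 4 5 4) (.p6 8674912006)) (.p6 5442152198))))) (.sp 0 3 0 (.sp 1 3 0 (.far 0 1 6) (.sp 0 2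
  0 (.far 2 3 0) (.sp 0 4 0 (.far 3 4 0) (.sp 1 4 0 (.p6 3256881158) (.sp 7 10 0 (.p6 4311803138)
  (.p6 15034778882)))))) (.p6 6663823424)))) (.sp 4 15 1 (.tr 0 4 15) (.sp 2 4 0 (.sp 1 4 0 (.far
  1 2 8) (.sp 2 5 0 (.far 4 5 4) (.sp 1 12 1 (.sp 3 12 1 (.tr 1 12 3) (.sp 3 5 0 (.p6 7619576072)
  (.sp 12 14 0 (.sp 3 14 1 (.sp 6 14 1 (.sp 5 14 1 (.tr 3 14 5) (.sp 2 6 0 (.p6 11210637573) (.sp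
  4 6 0 (.p6 11986326280) (.sp 3 6 0 (.p6 12993003784) (.sp 3 15 1 (.sp 14 15 1 (.sp 5 15 1 (.tr 3
  15 5) (.sp 14 15 0 (.p6 11986395657) (.p6 9805879050))) (.tr 14 3 15)) (.p6 9805808070))))))
  (.tr 6 3 14)) (.p6 7624294664)) (.p6 5442152198)))) (.sp 1 5 0 (.sp 5 12 1 (.tr 1 5 12) (.sp 10
  12 0 (.sp 1 6 0 (.far 5 6 2) (.sp 0 5 0 (.far 0 1 10) (.sp 5 10 1 (.sp 3 10 1 (.tr 3 10 5) (.sp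
  1 3 0 (.p6 7617462788) (.sp 1 9 1 (.sp 4 9 1 (.tr 1 9 4) (.sp 3 9 1 (.tr 1 9 3) (.sp 9 10 0 (.p6
  7621657092) (.p6 9803146374)))) (.sp 9 12 0 (.p6 3259597064) (.sp 9 10 0 (.sp 3 9 1 (.sp 0 9 1
  (.tr 0 9 3) (.sp 0 3 0 (.p6 3259523073) (.sp 7 9 0 (.sp 0 2 0 (.sp 11 13 0 (.p6 10776846592)
  (.sp 2 6 0 (.far 0 6 4) (.p6 2519834880))) (.p6 4311803010)) (.p6 2451103745)))) (.p6
  7621657092)) (.p6 6745048580)))))) (.p6 11985306121)))) (.p6 9803145880))) (.p6 5442150594)))))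
  (.sp 12 14 0 (.p6 8674969350) (.sp 2 5 0 (.sp 3 5 0 (.far 2 3 10) (.p6 8674912006)) (.p6
  30238851656))))))))))))))))))))))))))))))))) (.tr 0 2 4))))))))))))))))))))))))))))))))))))))))

theorem validP2 : lemP2.Valid := Lem.valid_of_chk _ treeP2 (by decide +kernel)

end Pool.Agent.P6ED
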