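import Pool.Agent.P6ED.Lem

set_option autoImplicit false
set_option maxRecDepth 100000

namespace Pool.Agent.P6ED

/-- The 7-cycle with dominator pattern 0120123. -/
def lemP3 : Lem :=
  { m := 7
    X := [(0, 1), (1, 2), (2, 3), (3, 4), (4, 5), (5, 6), (0, 6)]
    A := [(0, 2), (0, 4), (0, 5), (1, 3), (1, 5), (1, 6), (2, 4), (2, 6), (3, 5), (3, 6), (4, 6)]
    T := [(0, 3), (1, 4), (2, 5)]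
    F := [(1, 6)] }

/-- The refutation tree (955 leaves). -/
def treeP3 : Tree := .sp 1 7 0 (.far 0 1 14) (.sp 6 7 0 (.far 0 6 14) (.sp 3 7 0 (.far 2 3 14)
  (.sp 1 8 0 (.far 0 1 16) (.sp 6 8 0 (.far 0 6 16) (.sp 3 8 0 (.far 3 4 16) (.sp 5 8 0 (.far 4 5
  16) (.sp 1 9 0 (.far 0 1 18) (.sp 6 9 0 (.far 0 6 18) (.sp 4 9 0 (.far 4 5 18) (.sp 0 10 0 (.far
  0 1 20) (.sp 2 10 0 (.far 1 2 20) (.sp 4 10 0 (.far 3 4 20) (.sp 0 11 0 (.far 0 1 22) (.sp 2 11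
  0 (.far 1 2 22) (.sp 4 11 0 (.far 4 5 22) (.sp 6 11 0 (.far 5 6 22) (.sp 0 12 0 (.far 0 1 24)
  (.sp 2 12 0 (.far 1 2 24) (.sp 5 12 0 (.far 5 6 24) (.sp 1 13 0 (.far 1 2 26) (.sp 3 13 0 (.far
  2 3 26) (.sp 5 13 0 (.far 4 5 26) (.sp 1 14 0 (.far 1 2 28) (.sp 3 14 0 (.far 2 3 28) (.sp 5 14
  0 (.far 5 6 28) (.sp 0 14 0 (.far 0 6 28) (.sp 2 15 0 (.far 2 3 30) (.sp 4 15 0 (.far 3 4 30)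
  (.sp 6 15 0 (.far 5 6 30) (.sp 2 16 0 (.far 2 3 32) (.sp 4 16 0 (.far 3 4 32) (.sp 5 16 0 (.far
  5 6 32) (.sp 0 16 0 (.far 0 6 32) (.sp 3 17 0 (.far 3 4 34) (.sp 5 17 0 (.far 4 5 34) (.sp 0 17
  0 (.far 0 6 34) (.sp 0 1 0 (.far 0 1 0) (.sp 0 1 1 (.far 0 1 1) (.sp 1 2 0 (.far 1 2 2) (.sp 1 2
  1 (.far 1 2 3) (.sp 2 3 0 (.far 2 3 4) (.sp 2 3 1 (.far 2 3 5) (.sp 3 4 0 (.far 3 4 6) (.sp 3 4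
  1 (.far 3 4 7) (.sp 4 5 0 (.far 4 5 8) (.sp 4 5 1 (.far 4 5 9) (.sp 5 6 0 (.far 5 6 10) (.sp 5 6
  1 (.far 5 6 11) (.sp 0 6 0 (.far 0 6 0) (.sp 0 6 1 (.far 0 6 1) (.sp 1 3 1 (.far 0 1 7) (.sp 0 2
  1 (.far 2 3 1) (.sp 0 4 1 (.far 3 4 1) (.sp 3 6 1 (.far 0 6 7) (.sp 2 4 1 (.far 1 2 9) (.sp 1 5
  1 (.far 4 5 3) (.sp 3 5 1 (.far 2 3 11) (.sp 2 6 1 (.far 5 6 5) (.sp 0 5 1 (.tr 0 5 2) (.sp 4 6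
  1 (.tr 1 4 6) (.sp 0 8 1 (.sp 1 8 1 (.far 0 1 17) (.sp 2 8 1 (.tr 0 8 2) (.sp 4 8 1 (.tr 0 8 4)
  (.sp 5 8 1 (.tr 0 8 5) (.sp 3 8 1 (.sp 0 11 1 (.sp 4 11 1 (.tr 0 11 4) (.sp 5 11 1 (.tr 0 11 5)
  (.sp 8 11 1 (.sp 8 11 0 (.p6 11984765449) (.p6 11111039497)) (.tr 8 0 11)))) (.sp 0 9 1 (.sp 4 9
  1 (.tr 0 9 4) (.sp 5 9 1 (.tr 0 9 5) (.sp 8 9 1 (.sp 8 9 0 (.p6 11983716873) (.p6 11043930633))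
  (.tr 8 0 9)))) (.sp 3 13 1 (.sp 2 13 1 (.far 2 3 27) (.sp 1 13 1 (.tr 1 13 3) (.sp 1 3 0 (.p6
  3256465028) (.sp 1 4 0 (.sp 0 4 0 (.far 0 1 8) (.sp 1 5 0 (.far 4 5 2) (.sp 9 11 0 (.p6
  1078550664) (.sp 0 5 0 (.p6 1076453512) (.p6 2519277569))))) (.p6 6731890882))))) (.sp 8 13 1
  (.tr 3 8 13) (.sp 1 4 0 (.sp 0 4 0 (.far 0 1 8) (.sp 1 5 0 (.far 4 5 2) (.sp 9 11 0 (.p6
  1078550664) (.sp 0 5 0 (.p6 1076453512) (.p6 2519277569))))) (.sp 1 5 0 (.p6 18524156042) (.sp 1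
  3 0 (.sp 2 4 0 (.p6 7617417732) (.sp 2 8 0 (.p6 3256423428) (.sp 2 13 1 (.sp 1 13 1 (.far 1 2
  27) (.sp 4 13 1 (.tr 2 13 4) (.sp 5 13 1 (.p6 11197251778) (.tr 5 2 13)))) (.sp 8 13 0 (.p6
  5442699718) (.p6 5442667537))))) (.p6 6731890882)))))))) (.tr 3 0 8)))))) (.sp 3 8 1 (.tr 0 3 8)
  (.sp 0 7 1 (.sp 1 7 1 (.far 0 1 15) (.sp 6 7 1 (.far 0 6 15) (.sp 2 7 1 (.tr 0 7 2) (.sp 3 7 1
  (.sp 1 3 0 (.p6 3256415108) (.sp 0 11 1 (.sp 1 11 1 (.far 0 1 23) (.sp 2 11 1 (.tr 0 11 2) (.sp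
  7 11 1 (.sp 7 11 0 (.p6 3260604677) (.p6 3260609412)) (.tr 7 0 11)))) (.sp 3 10 1 (.sp 2 10 1
  (.far 2 3 21) (.sp 1 10 1 (.tr 1 10 3) (.sp 7 10 1 (.sp 7 10 0 (.p6 3260080389) (.p6
  2487017733)) (.tr 7 3 10)))) (.sp 0 10 1 (.tr 3 0 10) (.sp 1 10 1 (.sp 2 10 1 (.far 1 2 21) (.sp
  5 10 1 (.tr 1 10 5) (.sp 6 10 1 (.tr 1 10 6) (.sp 4 10 1 (.sp 3 13 1 (.sp 2 13 1 (.far 2 3 27)
  (.sp 4 13 1 (.far 3 4 27) (.sp 0 13 1 (.sp 1 13 1 (.tr 1 13 3) (.sp 5 13 1 (.tr 3 13 5) (.sp 3 5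
  0 (.p6 11980617352) (.sp 0 9 1 (.sp 4 9 1 (.tr 0 9 4) (.sp 5 9 1 (.tr 0 9 5) (.sp 9 13 1 (.sp 9
  13 0 (.p6 11983757833) (.p6 11046593033)) (.tr 9 0 13)))) (.sp 0 3 0 (.sp 0 2 0 (.far 2 3 0)
  (.sp 0 4 0 (.far 3 4 0) (.sp 3 6 0 (.far 0 6 6) (.sp 2 6 0 (.p6 6697796365) (.sp 2 5 0 (.sp 1 5
  0 (.far 1 2 10) (.sp 2 4 0 (.far 4 5 4) (.sp 0 5 0 (.p6 13423346308) (.sp 9 11 0 (.sp 1 4 0 (.p6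
  1078550664) (.p6 5442666690)) (.p6 2519277569))))) (.sp 2 4 0 (.sp 1 5 0 (.p6 3257422106) (.sp 5
  10 0 (.p6 4482220423) (.sp 1 4 0 (.far 1 2 8) (.sp 0 5 0 (.p6 11978958082) (.sp 9 11 0 (.sp 1 11
  1 (.sp 2 11 1 (.far 1 2 23) (.sp 10 11 0 (.p6 21846577416) (.p6 21514199364))) (.sp 1 9 1 (.sp 5
  9 1 (.tr 1 9 5) (.sp 6 9 1 (.tr 1 9 6) (.sp 6 14 1 (.sp 1 14 1 (.tr 1 14 6) (.sp 2 14 1 (.tr 2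
  14 6) (.sp 3 14 1 (.tr 3 14 6) (.sp 4 14 1 (.tr 4 14 6) (.sp 10 14 1 (.tr 6 14 10) (.sp 4 14 0
  (.sp 10 14 0 (.p6 7622213893) (.p6 31610459398)) (.p6 2300593949))))))) (.sp 5 14 1 (.sp 9 14 0
  (.sp 0 14 1 (.tr 0 14 5) (.p6 14167384065)) (.p6 14167356050)) (.p6 14167327434))))) (.p6
  3260620801))) (.p6 2519277569)))))) (.p6 9804726986))))))) (.sp 0 4 0 (.sp 0 2 0 (.p6
  5435847060) (.sp 1 4 0 (.far 0 1 8) (.sp 2 4 0 (.p6 6459261189) (.p6 5442666690)))) (.p6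
  8947523648))))))) (.tr 0 3 13)))) (.sp 4 13 1 (.sp 5 13 1 (.far 4 5 27) (.sp 1 13 1 (.sp 2 13 1
  (.tr 2 13 4) (.sp 6 13 1 (.tr 4 13 6) (.sp 10 13 1 (.sp 10 13 0 (.p6 7622205701) (.sp 4 16 1
  (.sp 3 16 1 (.far 3 4 33) (.sp 5 16 1 (.far 4 5 33) (.sp 0 16 1 (.tr 0 16 4) (.sp 2 16 1 (.tr 2
  16 4) (.sp 6 16 1 (.tr 4 16 6) (.sp 13 16 1 (.sp 13 16 0 (.p6 7625351429) (.sp 2 5 0 (.sp 3 5 0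
  (.far 2 3 10) (.sp 2 4 0 (.far 4 5 4) (.sp 2 6 0 (.far 5 6 4) (.sp 3 14 1 (.sp 2 14 1 (.far 2 3
  29) (.sp 14 16 1 (.tr 3 14 16) (.sp 14 16 0 (.sp 0 3 0 (.sp 0 2 0 (.far 2 3 0) (.p6 109166853))
  (.sp 3 6 0 (.sp 6 8 1 (.sp 8 10 0 (.sp 2 8 1 (.tr 2 8 6) (.sp 4 8 1 (.tr 4 8 6) (.sp 8 13 1 (.tr
  6 8 13) (.sp 2 8 0 (.p6 7622164741) (.sp 8 13 0 (.p6 4735451527) (.p6 5442667537)))))) (.p6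
  17181730050)) (.p6 18522075532)) (.p6 119145229))) (.p6 35973611781)))) (.sp 0 14 1 (.tr 3 0 14)
  (.sp 14 16 0 (.p6 10811998599) (.sp 3 6 0 (.sp 0 3 0 (.far 0 6 6) (.sp 5 14 1 (.p6 7620117194)
  (.sp 14 16 1 (.p6 30626832448) (.sp 2 14 1 (.tr 5 2 14) (.p6 35973611781))))) (.p6
  4768006535)))))))) (.p6 34819556042))) (.tr 13 4 16))))))) (.sp 1 8 1 (.sp 6 8 1 (.tr 1 8 6)
  (.sp 0 3 0 (.sp 0 4 0 (.far 3 4 0) (.sp 3 6 0 (.far 0 6 6) (.sp 4 6 0 (.p6 109101577) (.sp 4 17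
  1 (.sp 0 17 1 (.tr 0 17 4) (.sp 6 17 1 (.tr 4 17 6) (.sp 8 17 0 (.p6 1078076173) (.p6
  1077971084)))) (.sp 16 17 0 (.p6 109191689) (.p6 9806858246)))))) (.p6 6459293890))) (.sp 4 8 1
  (.tr 1 4 8) (.sp 8 10 1 (.tr 1 10 8) (.sp 8 13 1 (.tr 1 13 8) (.sp 0 3 0 (.sp 0 4 0 (.far 3 4 0)
  (.sp 3 6 0 (.far 0 6 6) (.sp 4 6 0 (.p6 109101577) (.sp 1 4 0 (.sp 1 5 0 (.far 4 5 2) (.sp 0 5 0
  (.p6 1076453512) (.sp 0 9 1 (.sp 4 9 1 (.tr 0 9 4) (.sp 5 9 1 (.tr 0 9 5) (.sp 8 9 0 (.sp 5 8 1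
  (.sp 6 8 1 (.far 5 6 17) (.sp 4 17 1 (.sp 0 17 1 (.tr 0 17 4) (.sp 6 17 1 (.tr 4 17 6) (.sp 8 17
  0 (.p6 1078076173) (.p6 1077971084)))) (.sp 16 17 0 (.p6 109191689) (.p6 9806858246)))) (.p6
  11983716873)) (.p6 9802089610)))) (.sp 9 11 0 (.p6 1078550664) (.p6 2519277569))))) (.p6
  2300641281))))) (.sp 0 4 0 (.sp 8 10 0 (.sp 0 2 0 (.p6 5435847060) (.sp 0 5 0 (.far 4 5 0) (.sp
  4 6 0 (.far 0 6 8) (.sp 3 5 0 (.p6 11980509192) (.sp 0 16 1 (.p6 13422035465) (.sp 2 4 0 (.p6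
  6459261189) (.sp 5 10 0 (.p6 119095947) (.sp 3 16 1 (.tr 0 3 16) (.sp 5 16 1 (.p6 11299479616)
  (.sp 2 5 0 (.sp 2 8 0 (.p6 10808803719) (.sp 8 16 0 (.p6 7625310729) (.sp 2 16 1 (.tr 5 2 16)
  (.sp 8 13 0 (.p6 4735451527) (.sp 8 16 1 (.sp 2 8 1 (.tr 2 8 16) (.p6 5442667537)) (.p6
  35971928080)))))) (.p6 21934654154))))))))))) (.p6 18522075540)) (.p6 9802088902))))))))) (.tr
  10 4 13)))) (.tr 1 4 13))) (.sp 1 13 1 (.tr 4 1 13) (.sp 10 13 1 (.tr 4 10 13) (.sp 10 13 0 (.sp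
  2 13 1 (.sp 5 13 1 (.sp 5 15 1 (.sp 4 15 1 (.far 4 5 31) (.sp 3 15 1 (.tr 3 15 5) (.sp 13 15 1
  (.sp 13 15 0 (.p6 7624827401) (.p6 9804838790)) (.tr 13 5 15)))) (.sp 5 16 1 (.sp 4 16 1 (.far 4
  5 33) (.sp 3 16 1 (.tr 3 16 5) (.sp 13 16 1 (.sp 13 16 0 (.p6 7625351689) (.p6 9804847110)) (.tr
  13 5 16)))) (.sp 2 16 1 (.tr 5 2 16) (.sp 3 17 1 (.sp 4 17 1 (.far 3 4 35) (.sp 5 17 1 (.tr 3 17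
  5) (.sp 6 17 1 (.tr 3 17 6) (.sp 10 17 1 (.tr 3 17 10) (.sp 3 5 0 (.p6 11980650632) (.sp 3 15 1
  (.sp 4 15 1 (.far 3 4 31) (.sp 15 17 1 (.sp 15 17 0 (.p6 11986936329) (.p6 11250049545)) (.tr 15
  3 17))) (.sp 2 5 0 (.sp 5 10 0 (.sp 6 10 0 (.far 5 6 20) (.sp 3 6 0 (.p6 11984200461) (.sp 10 17
  0 (.p6 14168965771) (.sp 4 6 0 (.sp 15 16 0 (.p6 11986928392) (.p6 13423469195)) (.p6
  13457511690))))) (.p6 10811425159)) (.p6 4482261383)))))))) (.sp 0 17 1 (.tr 3 0 17) (.sp 0 3 0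
  (.sp 0 2 0 (.far 2 3 0) (.sp 0 4 0 (.far 3 4 0) (.sp 3 6 0 (.far 0 6 6) (.sp 2 6 0 (.p6
  6697796365) (.sp 2 14 1 (.sp 3 14 1 (.far 2 3 29) (.sp 6 14 1 (.tr 2 14 6) (.sp 14 16 1 (.tr 2
  14 16) (.sp 4 16 1 (.sp 3 16 1 (.far 3 4 33) (.sp 6 16 1 (.tr 4 16 6) (.sp 14 16 0 (.sp 3 5 0
  (.p6 11980636941) (.sp 2 5 0 (.p6 10811998599) (.sp 3 15 1 (.sp 15 16 0 (.sp 6 15 1 (.tr 3 15 6)
  (.p6 11986928397)) (.p6 13423469195)) (.p6 4482261383)))) (.p6 7625295645)))) (.sp 10 16 1 (.tr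
  4 10 16) (.sp 4 6 0 (.p6 109101577) (.sp 8 17 0 (.sp 3 16 1 (.sp 6 16 1 (.tr 3 16 6) (.sp 3 5 0
  (.p6 11980636941) (.sp 15 16 0 (.sp 6 15 1 (.sp 3 15 1 (.tr 3 15 6) (.sp 2 5 0 (.sp 5 10 0 (.sp
  6 10 0 (.far 5 6 20) (.sp 10 16 0 (.p6 14168441483) (.p6 22885827341))) (.p6 10811425159)) (.p6
  4482261383))) (.p6 11986928397)) (.p6 13423469195)))) (.sp 0 16 1 (.tr 3 0 16) (.sp 16 17 0 (.sp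
  4 17 1 (.sp 5 17 1 (.far 4 5 35) (.sp 6 17 1 (.tr 4 17 6) (.sp 3 5 0 (.p6 11980638344) (.sp 6 8
  1 (.sp 0 5 0 (.p6 11978958881) (.sp 5 8 1 (.far 5 6 17) (.sp 1 8 1 (.tr 1 8 6) (.sp 4 8 1 (.tr 4
  8 6) (.sp 1 4 0 (.sp 1 5 0 (.far 4 5 2) (.sp 3 9 1 (.sp 4 9 1 (.far 3 4 19) (.sp 5 9 1 (.tr 3 9
  5) (.sp 8 9 0 (.p6 11983716873) (.p6 9802089610)))) (.sp 0 9 1 (.tr 3 0 9) (.sp 9 11 0 (.p6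
  1078550664) (.p6 2519277569))))) (.p6 1077969090)))))) (.p6 1078076173))))) (.p6 7625384457))
  (.p6 9163637127)))) (.p6 1077971084)))))))) (.sp 14 16 0 (.p6 109166853) (.p6 5443209222)))))))
  (.sp 0 4 0 (.sp 1 4 0 (.far 0 1 8) (.sp 0 5 0 (.far 4 5 0) (.sp 1 5 0 (.p6 11979493888) (.p6
  11197251778)))) (.p6 8947523648)))))))) (.tr 5 2 13)) (.p6 7622205701)) (.p6 29429421318))))))
  (.tr 4 1 10))))) (.sp 1 4 0 (.sp 0 3 0 (.sp 0 4 0 (.far 0 1 8) (.sp 2 4 0 (.far 1 2 8) (.sp 1 5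
  0 (.far 4 5 2) (.sp 0 5 0 (.p6 1076453512) (.sp 3 6 0 (.far 0 6 6) (.sp 2 6 0 (.p6 6697796365)
  (.sp 0 9 1 (.sp 4 9 1 (.tr 0 9 4) (.sp 5 9 1 (.tr 0 9 5) (.sp 8 9 1 (.tr 0 9 8) (.sp 3 9 1 (.sp
  5 8 1 (.sp 4 8 1 (.far 4 5 17) (.sp 6 8 1 (.far 5 6 17) (.sp 2 8 1 (.sp 3 17 1 (.sp 4 17 1 (.far
  3 4 35) (.sp 5 17 1 (.tr 3 17 5) (.sp 9 17 1 (.sp 9 17 0 (.p6 11983790601) (.p6 11983796360))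
  (.tr 9 3 17)))) (.sp 0 17 1 (.tr 3 0 17) (.sp 4 16 1 (.sp 3 16 1 (.far 3 4 33) (.sp 5 16 1 (.far
  4 5 33) (.sp 2 16 1 (.tr 2 16 4) (.sp 6 16 1 (.tr 4 16 6) (.sp 3 5 0 (.p6 11980636941) (.sp 2 15
  1 (.sp 3 15 1 (.far 2 3 31) (.sp 6 15 1 (.tr 2 15 6) (.sp 15 16 1 (.tr 2 15 16) (.sp 15 16 0
  (.p6 14168482116) (.p6 33791017741))))) (.sp 5 15 1 (.tr 2 5 15) (.sp 8 15 1 (.tr 2 8 15) (.sp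
  15 16 0 (.sp 4 6 0 (.p6 11986928392) (.sp 6 15 1 (.sp 16 17 0 (.sp 8 17 0 (.sp 3 15 1 (.tr 3 15
  6) (.sp 4 15 1 (.tr 4 15 6) (.sp 6 17 1 (.sp 2 5 0 (.sp 8 15 0 (.p6 7624786441) (.sp 4 17 1 (.tr
  4 17 6) (.sp 8 17 1 (.tr 6 17 8) (.sp 15 17 1 (.sp 2 17 0 (.p6 10813571463) (.sp 15 17 0 (.p6
  9806930564) (.p6 18531088262))) (.tr 15 6 17))))) (.p6 4482261383)) (.p6 1078076173)))) (.p6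
  1077971084)) (.p6 9163637127)) (.p6 11986928397))) (.p6 13423469195)))))))))) (.sp 4 6 0 (.p6
  109101577) (.sp 8 17 0 (.sp 6 17 1 (.sp 4 17 1 (.tr 4 17 6) (.sp 16 17 0 (.p6 109191689) (.p6
  9806858246))) (.p6 1078076173)) (.p6 1077971084)))))) (.tr 2 5 8)))) (.sp 8 9 0 (.p6
  11983716866) (.p6 18522120843))) (.tr 3 0 9))))) (.sp 9 11 0 (.p6 1078550664) (.p6
  2519277569))))))))) (.p6 3260047424)) (.p6 8640872839))))))) (.tr 3 0 7))))) (.sp 3 7 1 (.tr 0 3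
  7) (.sp 0 14 1 (.sp 1 14 1 (.far 0 1 29) (.sp 6 14 1 (.far 0 6 29) (.sp 2 14 1 (.tr 0 14 2) (.sp
  5 14 1 (.tr 0 14 5) (.sp 3 14 1 (.sp 1 3 0 (.p6 3256473348) (.sp 3 10 1 (.sp 2 10 1 (.far 2 3
  21) (.sp 1 10 1 (.tr 1 10 3) (.sp 10 14 1 (.sp 10 14 0 (.p6 3260137733) (.p6 2490745093)) (.tr
  10 3 14)))) (.sp 0 10 1 (.tr 3 0 10) (.sp 0 3 0 (.sp 0 2 0 (.far 2 3 0) (.sp 0 4 0 (.far 3 4 0)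
  (.sp 3 6 0 (.far 0 6 6) (.sp 3 5 0 (.p6 11980625676) (.sp 5 16 1 (.sp 4 16 1 (.far 4 5 33) (.sp
  6 16 1 (.far 5 6 33) (.sp 3 16 1 (.tr 3 16 5) (.sp 4 6 0 (.p6 7625294345) (.sp 4 17 1 (.sp 3 17
  1 (.far 3 4 35) (.sp 0 17 1 (.tr 0 17 4) (.sp 6 17 1 (.tr 4 17 6) (.sp 16 17 1 (.tr 4 17 16)
  (.sp 16 17 0 (.sp 8 17 0 (.sp 6 8 1 (.sp 0 5 0 (.p6 10739124360) (.sp 5 8 1 (.far 5 6 17) (.sp 4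
  8 1 (.tr 4 8 6) (.sp 2 5 0 (.sp 2 6 0 (.far 5 6 4) (.sp 6 15 1 (.sp 5 15 1 (.far 5 6 31) (.sp 4
  15 1 (.tr 4 15 6) (.sp 8 15 1 (.sp 8 15 0 (.p6 11986862601) (.p6 11986867208)) (.tr 8 6 15))))
  (.sp 15 16 0 (.p6 14168482436) (.p6 14168385418)))) (.p6 10822467648))))) (.p6 1078076173)) (.p6
  1077971084)) (.p6 38154666375)))))) (.sp 16 17 0 (.p6 109191689) (.p6 9806858246))))))) (.sp 2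
  16 1 (.tr 5 2 16) (.sp 0 5 0 (.p6 11978958860) (.sp 14 16 0 (.p6 109166853) (.sp 2 5 0 (.sp 2 6
  0 (.far 5 6 4) (.p6 5443209222)) (.p6 10822467648)))))))))) (.sp 1 10 1 (.sp 1 8 1 (.p6
  6459293890) (.sp 7 10 0 (.sp 2 10 1 (.far 1 2 21) (.sp 4 10 1 (.sp 2 7 1 (.sp 0 4 0 (.sp 1 7 1
  (.far 1 2 15) (.sp 6 7 1 (.tr 2 7 6) (.sp 1 4 0 (.far 0 1 8) (.sp 4 6 0 (.far 0 6 8) (.sp 3 6 0
  (.p6 16341037452) (.sp 6 16 1 (.sp 0 16 1 (.far 0 6 33) (.sp 1 16 1 (.tr 1 16 6) (.sp 3 16 1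
  (.tr 3 16 6) (.sp 7 16 1 (.tr 6 16 7) (.sp 7 16 0 (.sp 1 16 0 (.p6 3263225857) (.sp 8 16 0 (.p6
  6983549122) (.p6 17181730828))) (.p6 35971928078)))))) (.sp 0 16 1 (.p6 14168363016) (.p6
  14168383552)))))))) (.p6 8947523648)) (.p6 7622156549)) (.tr 4 1 10))) (.p6 15034246402))) (.p6
  3260047424)))))) (.tr 3 0 14)))))) (.sp 3 14 1 (.tr 0 3 14) (.sp 0 11 1 (.sp 1 11 1 (.far 0 1
  23) (.sp 6 11 1 (.far 0 6 23) (.sp 2 11 1 (.tr 0 11 2) (.sp 5 11 1 (.tr 0 11 5) (.sp 2 5 0 (.sp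
  1 5 0 (.far 1 2 10) (.sp 3 5 0 (.far 2 3 10) (.sp 2 6 0 (.far 5 6 4) (.sp 1 4 0 (.sp 0 4 0 (.far
  0 1 8) (.sp 1 3 0 (.far 3 4 2) (.sp 3 16 1 (.sp 2 16 1 (.far 2 3 33) (.sp 0 16 1 (.sp 5 16 1
  (.tr 3 16 5) (.sp 0 3 0 (.sp 0 2 0 (.far 2 3 0) (.sp 3 6 0 (.far 0 6 6) (.sp 0 5 0 (.p6
  11978958860) (.sp 7 14 0 (.sp 14 16 0 (.p6 10811998272) (.sp 2 14 1 (.sp 1 6 0 (.p6 6446236418)
  (.sp 1 14 1 (.far 1 2 29) (.sp 1 12 1 (.sp 5 12 1 (.tr 1 12 5) (.sp 6 12 1 (.tr 1 12 6) (.sp 11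
  12 0 (.p6 14166352523) (.p6 13288170123)))) (.sp 12 14 0 (.p6 10811965571) (.p6 4767973507)))))
  (.p6 5443209222))) (.p6 1077430028))))) (.sp 4 8 1 (.sp 1 8 1 (.p6 6459293890) (.tr 1 4 8)) (.p6
  9802088902)))) (.tr 0 3 16))) (.sp 14 16 0 (.p6 10811998599) (.sp 3 6 0 (.sp 4 6 0 (.far 3 4 12)
  (.sp 0 3 0 (.far 0 6 6) (.p6 12985828360))) (.p6 4768006535)))))) (.p6 8640881291))))) (.sp 1 5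
  0 (.sp 2 6 0 (.p6 25067802892) (.sp 0 5 0 (.far 0 1 10) (.sp 0 2 0 (.sp 6 14 1 (.sp 5 14 1 (.far
  5 6 29) (.sp 1 14 1 (.tr 1 14 6) (.sp 2 14 1 (.tr 2 14 6) (.p6 2316584733)))) (.p6 1074905869))
  (.p6 4482228288)))) (.p6 4482228355))))))) (.sp 0 12 1 (.sp 1 12 1 (.far 0 1 25) (.sp 6 12 1
  (.far 0 6 25) (.sp 2 12 1 (.tr 0 12 2) (.sp 5 12 1 (.tr 0 12 5) (.sp 11 12 1 (.tr 0 12 11) (.sp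
  0 9 1 (.sp 1 9 1 (.far 0 1 19) (.sp 6 9 1 (.far 0 6 19) (.sp 4 9 1 (.tr 0 9 4) (.sp 5 9 1 (.tr 0
  9 5) (.sp 9 12 1 (.sp 9 12 0 (.sp 1 5 0 (.sp 1 4 0 (.far 4 5 2) (.p6 20705714760)) (.p6
  11983749251)) (.p6 11046060813)) (.tr 9 0 12)))))) (.sp 1 6 0 (.sp 2 6 0 (.far 1 2 12) (.sp 7 14
  0 (.p6 2356207617) (.sp 0 2 0 (.p6 2356166657) (.p6 1077430028)))) (.sp 2 6 0 (.p6 3261120773)
  (.sp 1 5 0 (.p6 11979555597) (.sp 5 11 1 (.sp 6 11 1 (.far 5 6 23) (.sp 1 11 1 (.tr 1 11 5) (.sp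
  11 12 0 (.sp 2 5 0 (.p6 14166352516) (.sp 0 5 0 (.p6 3260588033) (.sp 9 11 0 (.sp 1 9 1 (.sp 5 9
  1 (.tr 1 9 5) (.sp 6 9 1 (.tr 1 9 6) (.sp 6 14 1 (.sp 5 14 1 (.far 5 6 29) (.sp 1 14 1 (.tr 1 14
  6) (.sp 2 14 1 (.tr 2 14 6) (.sp 12 14 0 (.p6 3261186309) (.p6 25978487498))))) (.sp 5 14 1 (.sp
  9 14 0 (.p6 14167384065) (.p6 14167356050)) (.p6 14167327434))))) (.p6 3260620801)) (.p6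
  2519277569)))) (.p6 25065784077)))) (.sp 11 12 0 (.sp 6 11 1 (.sp 1 11 1 (.tr 1 11 6) (.sp 0 5 0
  (.p6 1076454220) (.sp 1 4 0 (.sp 9 11 0 (.sp 0 4 0 (.far 0 1 8) (.p6 1078550664)) (.p6
  2519277569)) (.p6 8640881291)))) (.p6 14166352523)) (.p6 27246813835)))))))))))) (.sp 0 9 1 (.sp
  4 9 1 (.tr 0 9 4) (.sp 5 9 1 (.tr 0 9 5) (.sp 8 9 1 (.tr 0 9 8) (.sp 0 17 1 (.sp 6 17 1 (.far 0
  6 35) (.sp 4 17 1 (.tr 0 17 4) (.sp 5 17 1 (.tr 0 17 5) (.sp 9 17 1 (.sp 9 17 0 (.p6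
  11983790601) (.p6 11983796364)) (.tr 9 0 17))))) (.sp 3 17 1 (.tr 0 3 17) (.sp 0 16 1 (.sp 6 16
  1 (.far 0 6 33) (.sp 4 16 1 (.tr 0 16 4) (.sp 5 16 1 (.tr 0 16 5) (.sp 16 17 1 (.tr 0 16 17)
  (.sp 4 15 1 (.sp 3 15 1 (.far 3 4 31) (.sp 5 15 1 (.far 4 5 31) (.sp 6 15 1 (.tr 4 15 6) (.sp 15
  16 1 (.tr 4 15 16) (.sp 15 16 0 (.p6 11986928397) (.sp 3 6 0 (.sp 4 6 0 (.far 3 4 12) (.sp 0 3 0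
  (.far 0 6 6) (.sp 0 4 0 (.p6 14168363016) (.p6 9163530304)))) (.p6 33791017741))))))) (.sp 4 6 0
  (.sp 3 6 0 (.far 3 4 12) (.sp 6 15 1 (.p6 6949224969) (.sp 15 16 0 (.p6 11249173001) (.sp 3 5 0
  (.p6 11980636941) (.p6 14168385418))))) (.sp 0 4 0 (.p6 14168363016) (.sp 8 17 0 (.sp 6 8 1 (.sp
  5 8 1 (.far 5 6 17) (.sp 4 8 1 (.tr 4 8 6) (.sp 0 5 0 (.p6 11978998604) (.sp 8 9 0 (.p6
  11983716873) (.p6 18522120843))))) (.sp 6 17 1 (.sp 4 17 1 (.tr 4 17 6) (.sp 8 17 1 (.tr 6 17 8)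
  (.sp 16 17 0 (.sp 0 3 0 (.p6 109191689) (.p6 38155583942)) (.p6 35973636617)))) (.p6
  1078076173))) (.p6 1077971084))))))))) (.sp 3 16 1 (.tr 0 3 16) (.sp 6 8 1 (.sp 5 8 1 (.far 5 6
  17) (.sp 4 8 1 (.tr 4 8 6) (.sp 0 5 0 (.p6 11978998604) (.sp 8 9 0 (.p6 11983716873) (.p6
  18522120843))))) (.sp 0 3 0 (.sp 0 4 0 (.far 3 4 0) (.sp 3 6 0 (.far 0 6 6) (.sp 4 16 1 (.sp 5
  16 1 (.far 4 5 33) (.sp 2 16 1 (.tr 2 16 4) (.sp 6 16 1 (.tr 4 16 6) (.sp 3 5 0 (.p6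
  11980636941) (.sp 6 15 1 (.sp 5 15 1 (.far 5 6 31) (.sp 3 15 1 (.tr 3 15 6) (.sp 2 5 0 (.sp 2 6
  0 (.far 5 6 4) (.sp 14 16 0 (.p6 10811998599) (.p6 4768006535))) (.p6 4482261383)))) (.sp 15 16
  0 (.sp 5 15 1 (.sp 2 15 1 (.sp 2 6 0 (.sp 2 5 0 (.far 5 6 4) (.p6 35973513930)) (.p6
  14168482116)) (.tr 2 5 15)) (.p6 11986928397)) (.p6 14168385418))))))) (.sp 4 6 0 (.p6
  7625294345) (.sp 16 17 0 (.sp 8 17 0 (.sp 4 17 1 (.sp 6 17 1 (.tr 4 17 6) (.p6 1078076173)) (.p6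
  7625384457)) (.p6 1077971084)) (.p6 9163637127)))))) (.sp 3 6 0 (.p6 18522075532) (.sp 14 16 0
  (.sp 7 14 0 (.p6 13358334406) (.sp 6 16 1 (.sp 0 2 0 (.sp 2 16 1 (.tr 2 16 6) (.sp 2 6 0 (.far 0
  6 4) (.sp 6 14 1 (.sp 2 14 1 (.tr 2 14 6) (.p6 7625359621)) (.p6 1074905869)))) (.p6
  30135550406)) (.p6 119145229))) (.p6 30274510912)))))))))))) (.sp 0 16 1 (.sp 6 16 1 (.far 0 6
  33) (.sp 4 16 1 (.tr 0 16 4) (.sp 5 16 1 (.tr 0 16 5) (.sp 4 15 1 (.sp 3 15 1 (.far 3 4 31) (.sp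
  5 15 1 (.far 4 5 31) (.sp 6 15 1 (.tr 4 15 6) (.sp 15 16 1 (.tr 4 15 16) (.sp 15 16 0 (.p6
  11986928397) (.sp 3 6 0 (.sp 4 6 0 (.far 3 4 12) (.sp 0 3 0 (.far 0 6 6) (.sp 0 4 0 (.p6
  14168363016) (.p6 12985828360)))) (.p6 33791017741))))))) (.sp 4 6 0 (.sp 3 6 0 (.far 3 4 12)
  (.sp 6 15 1 (.p6 6949224969) (.sp 15 16 0 (.p6 11249173001) (.sp 3 5 0 (.p6 11980636941) (.p6
  14168385418))))) (.sp 0 4 0 (.p6 14168363016) (.sp 4 8 1 (.sp 1 8 1 (.sp 2 8 1 (.tr 2 8 4) (.sp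
  6 8 1 (.tr 4 8 6) (.sp 1 6 0 (.p6 1077948556) (.sp 0 17 1 (.sp 6 17 1 (.far 0 6 35) (.sp 2 17 1
  (.tr 0 17 2) (.sp 4 17 1 (.tr 0 17 4) (.sp 8 17 0 (.sp 0 3 0 (.sp 3 6 0 (.far 0 6 6) (.sp 16 17
  0 (.p6 109191689) (.p6 9806858246))) (.sp 3 6 0 (.p6 18522075532) (.sp 1 3 0 (.sp 7 14 0 (.p6
  13358334406) (.sp 1 4 0 (.far 3 4 2) (.sp 0 2 0 (.sp 1 17 0 (.sp 2 8 0 (.sp 2 17 0 (.far 1 2 34)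
  (.p6 6484984069)) (.p6 2436890885)) (.p6 2300715789)) (.p6 30135550406)))) (.p6 6459293890))))
  (.p6 270672653))))) (.sp 3 17 1 (.tr 0 3 17) (.sp 16 17 1 (.tr 0 16 17) (.sp 8 17 0 (.sp 6 17 1
  (.sp 4 17 1 (.tr 4 17 6) (.sp 8 17 1 (.tr 6 17 8) (.sp 16 17 0 (.sp 0 3 0 (.p6 109191689) (.p6
  38155583942)) (.p6 35973636617)))) (.p6 1078076173)) (.p6 1077971084)))))))) (.tr 1 4 8)) (.sp 1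
  4 0 (.sp 1 5 0 (.far 4 5 2) (.sp 9 11 0 (.p6 1078550664) (.sp 0 5 0 (.p6 1076453512) (.p6
  2519277569)))) (.p6 2300641281))))))))) (.sp 3 16 1 (.tr 0 3 16) (.sp 4 13 1 (.sp 3 13 1 (.far 3
  4 27) (.sp 5 13 1 (.far 4 5 27) (.sp 2 13 1 (.tr 2 13 4) (.sp 4 16 1 (.sp 5 16 1 (.far 4 5 33)
  (.sp 2 16 1 (.tr 2 16 4) (.sp 13 16 1 (.sp 13 16 0 (.p6 7625351429) (.sp 2 5 0 (.sp 3 5 0 (.far
  2 3 10) (.sp 2 6 0 (.far 5 6 4) (.sp 14 16 0 (.p6 10811998599) (.sp 3 6 0 (.sp 0 2 0 (.p6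
  34568421377) (.sp 0 3 0 (.far 0 6 6) (.sp 6 7 1 (.sp 2 7 1 (.tr 2 7 6) (.p6 5439488454)) (.p6
  16341037452)))) (.p6 4768006535))))) (.p6 34819556042))) (.tr 13 4 16)))) (.sp 1 16 1 (.tr 4 1
  16) (.sp 1 8 1 (.sp 2 8 1 (.far 1 2 17) (.sp 6 8 1 (.tr 1 8 6) (.sp 8 16 1 (.tr 1 8 16) (.sp 0 3
  0 (.sp 0 4 0 (.far 3 4 0) (.sp 3 6 0 (.far 0 6 6) (.sp 4 6 0 (.p6 109101577) (.sp 4 17 1 (.sp 0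
  17 1 (.tr 0 17 4) (.sp 6 17 1 (.tr 4 17 6) (.sp 8 17 0 (.p6 1078076173) (.p6 1077971084)))) (.sp
  16 17 0 (.p6 109191689) (.p6 9806858246)))))) (.sp 8 16 0 (.sp 3 6 0 (.p6 18522075532) (.sp 7 14
  0 (.p6 13358334406) (.sp 6 16 1 (.sp 0 2 0 (.sp 2 16 1 (.tr 2 16 6) (.sp 2 8 0 (.p6 7625310469)
  (.p6 2436890885))) (.p6 30135550406)) (.p6 1078067981)))) (.p6 35971928080)))))) (.sp 4 8 1 (.tr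
  1 4 8) (.sp 8 16 0 (.p6 7625310729) (.sp 0 3 0 (.sp 0 4 0 (.far 3 4 0) (.sp 1 4 0 (.sp 9 11 0
  (.p6 1078550664) (.sp 1 5 0 (.far 4 5 2) (.sp 0 5 0 (.p6 1076453512) (.p6 2519277569)))) (.p6
  2300641281))) (.sp 3 6 0 (.sp 2 6 0 (.far 2 3 12) (.sp 0 2 0 (.p6 5435847052) (.sp 6 7 1 (.sp 2
  7 1 (.tr 2 7 6) (.p6 5439488454)) (.p6 16341037452)))) (.p6 17181730828))))))))))) (.sp 1 13 1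
  (.tr 4 1 13) (.sp 3 13 1 (.sp 2 13 1 (.far 2 3 27) (.sp 5 13 1 (.tr 3 13 5) (.sp 3 5 0 (.p6
  11980617352) (.sp 1 3 0 (.p6 3256465028) (.sp 0 3 0 (.sp 0 4 0 (.far 3 4 0) (.sp 3 6 0 (.far 0 6
  6) (.sp 2 5 0 (.sp 2 6 0 (.far 5 6 4) (.sp 14 16 0 (.p6 10811998599) (.p6 4768006535))) (.sp 2 4
  0 (.sp 1 5 0 (.p6 3257422106) (.sp 1 4 0 (.far 1 2 8) (.sp 4 8 1 (.sp 1 8 1 (.sp 5 8 1 (.far 4 5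
  17) (.sp 1 6 0 (.p6 1077948556) (.sp 1 10 1 (.sp 0 10 1 (.far 0 1 21) (.sp 2 10 1 (.far 1 2 21)
  (.sp 3 10 1 (.tr 1 10 3) (.sp 5 10 1 (.tr 1 10 5) (.sp 6 10 1 (.tr 1 10 6) (.sp 4 10 1 (.sp 5 10
  0 (.p6 7622140228) (.sp 0 5 0 (.p6 11978958101) (.sp 9 11 0 (.sp 1 11 1 (.sp 2 11 1 (.far 1 2
  23) (.sp 10 11 0 (.p6 21846577416) (.p6 21514199364))) (.sp 1 9 1 (.sp 5 9 1 (.tr 1 9 5) (.sp 6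
  9 1 (.tr 1 9 6) (.sp 8 9 0 (.sp 4 6 0 (.p6 11983716876) (.sp 2 6 0 (.p6 2300592909) (.sp 6 14 1
  (.sp 1 14 1 (.tr 1 14 6) (.sp 2 14 1 (.tr 2 14 6) (.sp 4 14 1 (.tr 4 14 6) (.sp 10 14 1 (.tr 6
  14 10) (.sp 4 14 0 (.sp 10 14 0 (.p6 7622213893) (.p6 31610459398)) (.p6 2300593949)))))) (.sp 5
  14 1 (.sp 9 14 0 (.p6 14167384065) (.p6 14167356050)) (.p6 14167327434))))) (.p6 8858444427))))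
  (.p6 3260620801))) (.p6 2519277569)))) (.tr 4 1 10))))))) (.sp 3 10 1 (.sp 2 10 1 (.far 2 3 21)
  (.p6 5437927572)) (.p6 8640872839))))) (.p6 1077969090)) (.p6 2300641281)))) (.p6
  9804726986))))) (.sp 1 8 1 (.p6 6459293890) (.sp 4 8 1 (.tr 1 4 8) (.sp 0 4 0 (.sp 1 4 0 (.far 0
  1 8) (.sp 0 5 0 (.far 4 5 0) (.sp 2 4 0 (.sp 2 5 0 (.far 4 5 4) (.sp 0 2 0 (.p6 10822353350)
  (.p6 10822385665))) (.p6 5442666690)))) (.p6 9802088902))))))))) (.sp 3 10 1 (.sp 2 10 1 (.far 2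
  3 21) (.sp 4 10 1 (.far 3 4 21) (.sp 0 10 1 (.sp 1 10 1 (.tr 1 10 3) (.sp 10 13 1 (.tr 3 10 13)
  (.sp 1 4 0 (.sp 0 4 0 (.far 0 1 8) (.sp 1 5 0 (.far 4 5 2) (.sp 9 11 0 (.p6 1078550664) (.sp 0 5
  0 (.p6 1076453512) (.p6 2519277569))))) (.sp 10 13 0 (.sp 0 4 0 (.sp 2 13 1 (.sp 0 5 0 (.far 4 5
  0) (.sp 1 5 0 (.p6 11979493888) (.sp 5 13 1 (.p6 11197251778) (.tr 5 2 13)))) (.p6 3260129541))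
  (.p6 8640872512)) (.p6 22884684314))))) (.tr 0 3 10)))) (.sp 0 10 1 (.tr 3 0 10) (.sp 4 10 1
  (.sp 2 10 1 (.tr 2 10 4) (.sp 10 13 1 (.tr 4 10 13) (.sp 10 13 0 (.sp 2 13 1 (.sp 5 13 1 (.sp 0
  3 0 (.sp 0 2 0 (.far 2 3 0) (.sp 0 4 0 (.far 3 4 0) (.sp 3 6 0 (.far 0 6 6) (.sp 1 8 1 (.sp 5 8
  1 (.tr 1 8 5) (.sp 6 8 1 (.tr 1 8 6) (.sp 1 6 0 (.p6 1077948556) (.sp 1 12 1 (.sp 5 12 1 (.tr 1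
  12 5) (.sp 6 12 1 (.tr 1 12 6) (.sp 1 5 0 (.p6 11979555597) (.sp 1 4 0 (.sp 0 5 0 (.p6
  1076453512) (.sp 9 11 0 (.p6 1078550664) (.p6 2519277569))) (.p6 11197251778))))) (.sp 5 17 1
  (.sp 4 17 1 (.far 4 5 35) (.sp 6 17 1 (.far 5 6 35) (.sp 0 17 1 (.tr 0 17 5) (.sp 8 17 1 (.tr 5
  17 8) (.sp 8 17 0 (.p6 1078076173) (.p6 38153551873)))))) (.sp 2 7 1 (.sp 1 7 1 (.far 1 2 15)
  (.sp 6 7 1 (.tr 2 7 6) (.sp 7 12 0 (.p6 3261128705) (.sp 7 12 1 (.p6 3261133696) (.sp 2 6 0 (.p6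
  3261120782) (.sp 2 12 1 (.tr 7 2 12) (.sp 7 14 0 (.sp 6 14 1 (.sp 12 14 0 (.sp 1 14 1 (.tr 1 14
  6) (.sp 2 14 1 (.tr 2 14 6) (.p6 3261186309))) (.p6 2553398144)) (.p6 14167367681)) (.p6
  1077430028)))))))) (.sp 5 7 1 (.tr 2 5 7) (.sp 2 16 1 (.sp 4 16 1 (.tr 2 16 4) (.sp 13 16 1 (.sp
  13 16 0 (.p6 7625351689) (.p6 9804847110)) (.tr 13 2 16))) (.sp 5 16 1 (.tr 2 5 16) (.sp 2 14 1
  (.sp 6 14 1 (.tr 2 14 6) (.sp 14 16 1 (.tr 2 14 16) (.sp 14 16 0 (.sp 1 7 1 (.sp 6 7 1 (.tr 1 7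
  6) (.sp 7 14 0 (.p6 14167367681) (.sp 2 6 0 (.sp 2 12 1 (.sp 7 12 0 (.sp 6 12 1 (.tr 2 12 6)
  (.p6 14166319105)) (.p6 2553299840)) (.p6 3261120773)) (.p6 236045069)))) (.sp 7 12 0 (.p6
  3261128705) (.sp 3 5 0 (.sp 6 16 1 (.sp 3 17 1 (.p6 9162220171) (.sp 16 17 0 (.p6 11980638344)
  (.sp 4 16 1 (.tr 4 16 6) (.sp 4 6 0 (.p6 7625294345) (.p6 9163637127))))) (.p6 11980636941))
  (.sp 0 5 0 (.p6 11978958881) (.sp 2 5 0 (.p6 10811998599) (.sp 5 7 0 (.sp 1 5 0 (.p6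
  13288121216) (.sp 1 4 0 (.sp 9 11 0 (.p6 1078550664) (.p6 2519277569)) (.p6 11197251778))) (.p6
  1077428938))))))) (.p6 7625295645)))) (.sp 5 14 1 (.tr 2 5 14) (.sp 14 16 0 (.p6 7625359621)
  (.sp 2 6 0 (.sp 2 5 0 (.far 5 6 4) (.sp 6 16 1 (.sp 14 16 1 (.p6 34853634762) (.sp 6 14 1 (.tr
  14 6 16) (.p6 7625295645))) (.p6 35973513930))) (.p6 5443209222)))))))))))))) (.sp 1 4 0 (.sp 1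
  5 0 (.far 4 5 2) (.sp 9 11 0 (.p6 1078550664) (.sp 0 5 0 (.p6 1076453512) (.p6 2519277569))))
  (.p6 1077969090)))))) (.sp 0 4 0 (.sp 1 4 0 (.far 0 1 8) (.sp 0 5 0 (.far 4 5 0) (.sp 1 5 0 (.p6
  11979493888) (.p6 11197251778)))) (.p6 8947523648))) (.tr 5 2 13)) (.p6 7622205701)) (.p6
  29429421318)))) (.sp 1 10 1 (.tr 4 1 10) (.sp 10 13 0 (.p6 7622205961) (.sp 1 4 0 (.sp 0 4 0
  (.far 0 1 8) (.sp 1 5 0 (.far 4 5 2) (.sp 9 11 0 (.p6 1078550664) (.sp 0 5 0 (.p6 1076453512)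
  (.p6 2519277569))))) (.sp 1 3 0 (.sp 2 4 0 (.p6 7617417732) (.p6 21510784644)) (.p6
  8640872839))))))))))))))))))))))))))))))))))))))))))))))))))))))))))))))))))))))))))))))))))

theorem validP3 : lemP3.Valid := Lem.valid_of_chk _ treeP3 (by decide +kernel)

end Pool.Agent.P6ED
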