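import Pool.Agent.P6ED.Cyc
import Pool.Agent.P6ED.LA
import Pool.Agent.P6ED.P0
import Pool.Agent.P6ED.P1
import Pool.Agent.P6ED.P2
import Pool.Agent.P6ED.P3

set_option autoImplicit false
set_option maxRecDepth 100000

namespace Pool.Agent.P6ED

/-- The configurations used for cycle length 7. -/
def list7 : List Lem := [lemLA, lemP0, lemP1, lemP2, lemP3]

/-- The refutation tree (97 leaves). -/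
def treeC7 : CT := .sp 1 4 (.sp 1 5 (.tr 4 1 5) (.sp 2 4 (.tr 1 4 2) (.sp 0 4 (.tr 0 4 1) (.sp 2 6
  (.sp 3 6 (.tr 2 6 3) (.sp 4 6 (.tr 2 6 4) (.sp 0 3 (.sp 0 5 (.sp 3 5 (.app 3 [0, 6, 5, 4, 3, 2,
  1]) (.tr 3 0 5)) (.app 4 [6, 0, 1, 2, 3, 4, 5])) (.app 0 [3, 6, 4, 0])))) (.sp 4 6 (.sp 3 6 (.tr
  3 6 4) (.sp 1 6 (.sp 0 2 (.sp 3 5 (.app 2 [6, 0, 1, 2, 3, 4, 5]) (.sp 0 5 (.app 1 [2, 1, 0, 6,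
  5, 4, 3]) (.sp 2 5 (.tr 0 2 5) (.app 0 [2, 5, 3, 6])))) (.sp 0 3 (.sp 2 5 (.app 3 [4, 5, 6, 0,
  1, 2, 3]) (.sp 3 5 (.sp 0 5 (.app 1 [1, 0, 6, 5, 4, 3, 2]) (.tr 0 3 5)) (.app 0 [2, 5, 3, 6])))
  (.app 0 [2, 6, 3, 0]))) (.tr 1 4 6))) (.sp 1 6 (.tr 4 1 6) (.sp 2 5 (.sp 0 3 (.app 4 [0, 1, 2,
  3, 4, 5, 6]) (.sp 3 6 (.sp 0 5 (.sp 0 2 (.app 3 [5, 6, 0, 1, 2, 3, 4]) (.app 4 [1, 2, 3, 4, 5,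
  6, 0])) (.app 4 [6, 5, 4, 3, 2, 1, 0])) (.app 0 [3, 6, 4, 0]))) (.app 0 [1, 5, 2, 6]))))))))
  (.sp 2 5 (.sp 2 4 (.tr 4 2 5) (.sp 3 5 (.tr 2 5 3) (.sp 2 6 (.tr 5 2 6) (.sp 1 5 (.tr 1 5 2)
  (.sp 0 4 (.sp 0 2 (.tr 2 0 4) (.sp 0 3 (.tr 3 0 4) (.sp 3 6 (.sp 1 6 (.sp 1 3 (.app 3 [3, 2, 1,
  0, 6, 5, 4]) (.tr 1 6 3)) (.app 4 [0, 6, 5, 4, 3, 2, 1])) (.app 0 [2, 6, 3, 0])))) (.sp 0 5 (.sp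
  0 2 (.sp 0 3 (.tr 3 0 5) (.sp 1 3 (.sp 4 6 (.app 2 [0, 1, 2, 3, 4, 5, 6]) (.sp 1 6 (.app 1 [5,
  6, 0, 1, 2, 3, 4]) (.sp 3 6 (.tr 1 3 6) (.app 0 [3, 6, 4, 0])))) (.app 0 [0, 3, 1, 4]))) (.tr 0
  5 2)) (.app 0 [0, 4, 1, 5]))))))) (.sp 1 5 (.sp 1 6 (.tr 5 1 6) (.sp 3 6 (.sp 1 3 (.tr 1 3 6)
  (.sp 0 3 (.tr 0 3 6) (.sp 0 4 (.sp 0 2 (.sp 2 4 (.app 3 [0, 1, 2, 3, 4, 5, 6]) (.app 4 [3, 4, 5,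
  6, 0, 1, 2])) (.app 4 [1, 0, 6, 5, 4, 3, 2])) (.app 0 [0, 3, 1, 4])))) (.sp 1 3 (.sp 3 5 (.sp 0
  3 (.tr 0 3 1) (.sp 0 4 (.sp 2 6 (.app 3 [1, 2, 3, 4, 5, 6, 0]) (.sp 0 2 (.sp 2 4 (.app 1 [0, 1,
  2, 3, 4, 5, 6]) (.tr 2 0 4)) (.app 0 [2, 6, 3, 0]))) (.sp 4 6 (.sp 0 2 (.app 2 [3, 2, 1, 0, 6,
  5, 4]) (.sp 2 4 (.app 1 [6, 5, 4, 3, 2, 1, 0]) (.sp 2 6 (.tr 2 6 4) (.app 0 [2, 6, 3, 0]))))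
  (.app 0 [3, 6, 4, 0])))) (.tr 3 1 5)) (.sp 3 5 (.tr 1 5 3) (.sp 2 6 (.sp 0 4 (.app 4 [4, 5, 6,
  0, 1, 2, 3]) (.sp 0 3 (.sp 2 4 (.sp 4 6 (.app 3 [6, 5, 4, 3, 2, 1, 0]) (.app 4 [5, 6, 0, 1, 2,
  3, 4])) (.app 4 [3, 2, 1, 0, 6, 5, 4])) (.app 0 [0, 3, 1, 4]))) (.app 0 [2, 5, 3, 6])))))) (.sp
  2 4 (.sp 0 2 (.sp 2 6 (.tr 0 2 6) (.sp 0 4 (.sp 1 6 (.sp 3 5 (.app 2 [2, 1, 0, 6, 5, 4, 3]) (.sp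
  1 3 (.app 1 [6, 0, 1, 2, 3, 4, 5]) (.sp 3 6 (.tr 1 6 3) (.app 0 [2, 5, 3, 6])))) (.app 0 [1, 5,
  2, 6])) (.tr 0 2 4))) (.sp 0 4 (.tr 0 4 2) (.sp 0 5 (.sp 1 3 (.sp 3 6 (.app 2 [1, 2, 3, 4, 5, 6,
  0]) (.sp 3 5 (.tr 1 3 5) (.sp 2 6 (.app 2 [4, 3, 2, 1, 0, 6, 5]) (.app 0 [2, 5, 3, 6])))) (.sp 0
  3 (.sp 3 5 (.sp 1 6 (.app 2 [5, 4, 3, 2, 1, 0, 6]) (.sp 4 6 (.app 1 [0, 6, 5, 4, 3, 2, 1]) (.sp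
  2 6 (.tr 4 2 6) (.app 0 [1, 5, 2, 6])))) (.tr 3 0 5)) (.app 0 [0, 3, 1, 4]))) (.app 0 [0, 4, 1,
  5])))) (.app 0 [1, 4, 2, 5]))))

theorem valid_list7 : ∀ L ∈ list7, L.Valid := by
  intro L hL
  simp only [list7, List.mem_cons, List.not_mem_nil, or_false] at hL
  rcases hL with rfl | rfl | rfl | rfl | rfl
  · exact validLA
  · exact validP0
  · exact validP1
  · exact validP2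
  · exact validP3

theorem cyc7_false (V : Type) (R : V → V → Prop) (dm : V → V) (h : Good R dm) (v : ℕ → V)
    (hadj : ∀ a b, a < 7 → b < 7 → adjc 7 a b = true → ¬ R2 R (v a) (v b))
    (hfar : ∀ a b, a < 7 → b < 7 → a ≠ b → adjc 7 a b = false → R2 R (v a) (v b)) :
    False :=
  cyc_false 7 list7 treeC7 valid_list7 (by decide +kernel) V R dm h v hadj hfar

end Pool.Agent.P6ED
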