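import Pool.Agent.P6ED.Lem

set_option autoImplicit false
set_option maxRecDepth 100000

namespace Pool.Agent.P6ED

/-- A window of seven consecutive vertices with dominator pattern 0102102. -/
def lemLD : Lem :=
  { m := 7
    X := [(0, 1), (1, 2), (2, 3), (3, 4), (4, 5), (5, 6)]
    A := [(0, 3), (0, 4), (0, 6), (1, 3), (1, 5), (1, 6), (2, 4), (2, 6), (3, 5), (4, 6)]
    T := [(0, 2), (2, 5), (1, 4), (3, 6)]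
    F := [] }

/-- The refutation tree (259 leaves). -/
def treeLD : Tree := .sp 4 15 0 (.far 4 5 30) (.sp 1 7 0 (.far 0 1 14) (.sp 3 4 1 (.far 3 4 7)
  (.sp 2 11 0 (.far 1 2 22) (.sp 2 15 0 (.far 2 3 30) (.sp 0 1 1 (.far 0 1 1) (.sp 2 7 0 (.far 2 3
  14) (.sp 4 7 0 (.far 3 4 14) (.sp 5 12 0 (.far 5 6 24) (.sp 4 5 0 (.far 4 5 8) (.sp 1 2 1 (.far
  1 2 3) (.sp 3 13 0 (.far 2 3 26) (.sp 1 13 0 (.far 1 2 26) (.sp 2 12 0 (.far 1 2 24) (.sp 0 12 0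
  (.far 0 1 24) (.sp 3 4 0 (.far 3 4 6) (.sp 1 8 0 (.far 0 1 16) (.sp 5 6 1 (.far 5 6 11) (.sp 3
  14 0 (.far 2 3 28) (.sp 1 14 0 (.far 1 2 28) (.sp 6 11 0 (.far 5 6 22) (.sp 4 11 0 (.far 4 5 22)
  (.sp 4 5 1 (.far 4 5 9) (.sp 5 14 0 (.far 5 6 28) (.sp 0 3 1 (.far 2 3 1) (.sp 2 3 1 (.tr 0 2 3)
  (.sp 2 10 0 (.far 2 3 20) (.sp 4 10 0 (.far 3 4 20) (.sp 5 8 0 (.far 4 5 16) (.sp 3 8 0 (.far 3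
  4 16) (.sp 3 5 1 (.far 5 6 7) (.sp 0 6 1 (.tr 0 6 3) (.sp 2 6 1 (.tr 2 6 3) (.sp 4 6 1 (.far 3 4
  13) (.sp 2 4 1 (.tr 4 2 5) (.sp 0 5 1 (.sp 1 5 1 (.far 1 2 11) (.sp 0 4 1 (.tr 2 0 4) (.sp 1 3 1
  (.far 3 4 3) (.sp 1 6 1 (.tr 4 1 6) (.sp 1 2 0 (.far 1 2 2) (.sp 5 13 0 (.far 4 5 26) (.sp 0 1 0
  (.far 0 1 0) (.sp 2 3 0 (.far 2 3 4) (.sp 5 6 0 (.far 5 6 10) (.sp 0 10 0 (.far 0 1 20) (.sp 2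
  10 1 (.sp 0 10 1 (.sp 1 10 1 (.far 1 2 21) (.sp 3 10 1 (.far 2 3 21) (.sp 5 10 1 (.sp 4 10 1
  (.tr 2 10 4) (.sp 6 10 1 (.tr 2 10 6) (.sp 2 4 0 (.p6 7622119688) (.sp 2 8 1 (.sp 8 10 1 (.sp 3
  8 1 (.far 2 3 17) (.sp 4 8 1 (.tr 2 8 4) (.sp 8 10 0 (.p6 9802170759) (.p6 8863957383)))) (.tr 8
  2 10)) (.sp 5 8 1 (.tr 2 5 8) (.sp 5 13 1 (.sp 3 13 1 (.tr 3 13 5) (.sp 4 13 1 (.tr 4 13 5) (.sp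
  10 13 1 (.sp 10 13 0 (.p6 9804792199) (.p6 9031729543)) (.tr 10 5 13)))) (.sp 2 13 1 (.tr 5 2
  13) (.sp 0 13 1 (.tr 5 0 13) (.sp 4 13 1 (.sp 1 13 1 (.sp 3 13 1 (.far 3 4 27) (.sp 1 3 0 (.p6
  7617492612) (.sp 1 4 0 (.sp 10 13 0 (.sp 1 5 0 (.far 4 5 2) (.sp 0 4 0 (.far 0 1 8) (.sp 2 5 0
  (.sp 3 5 0 (.far 2 3 10) (.sp 5 10 0 (.sp 2 6 0 (.far 5 6 4) (.sp 6 10 0 (.far 5 6 20) (.sp 1 6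
  0 (.p6 14160577156) (.sp 3 6 0 (.sp 0 6 0 (.p6 3260026892) (.sp 5 7 1 (.sp 4 7 1 (.far 4 5 15)
  (.sp 7 8 1 (.tr 5 7 8) (.sp 1 7 1 (.tr 1 7 5) (.sp 3 7 1 (.tr 3 7 5) (.sp 7 13 0 (.p6
  7620632770) (.sp 5 7 0 (.p6 27987075463) (.sp 7 8 0 (.p6 10992812546) (.sp 0 3 0 (.sp 0 13 0
  (.p6 2288517511) (.sp 0 2 0 (.far 2 3 0) (.p6 2288533568))) (.p6 6677398018))))))))) (.sp 2 7 1
  (.tr 5 2 7) (.sp 7 10 1 (.tr 5 10 7) (.sp 7 10 0 (.sp 0 2 0 (.p6 8628789252) (.sp 0 13 0 (.sp 0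
  5 0 (.sp 0 3 0 (.p6 2288517511) (.sp 6 7 0 (.sp 5 7 0 (.far 5 6 14) (.sp 7 12 0 (.p6 4462798338)
  (.p6 10741138946))) (.p6 12989235524))) (.p6 10754302146)) (.p6 2288533568))) (.p6
  15037972616)))))) (.p6 13003997828))))) (.p6 7622205706))) (.p6 10822459586)))) (.p6
  6778553988)) (.p6 7622107720)))) (.tr 1 4 13)) (.sp 1 13 1 (.tr 4 1 13) (.sp 2 5 0 (.sp 1 4 0
  (.sp 1 5 0 (.far 1 2 10) (.sp 2 6 0 (.far 5 6 4) (.sp 1 3 0 (.far 3 4 2) (.sp 10 13 0 (.sp 3 13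
  1 (.sp 5 10 0 (.sp 6 13 1 (.sp 6 10 0 (.far 5 6 20) (.sp 1 6 0 (.p6 14160577156) (.sp 11 12 0
  (.sp 1 12 1 (.sp 10 12 1 (.tr 1 12 10) (.sp 6 12 1 (.tr 1 12 6) (.sp 10 12 0 (.p6 4652630797)
  (.p6 22884745997)))) (.sp 4 12 1 (.tr 1 4 12) (.sp 12 13 0 (.p6 3261178122) (.sp 12 13 1 (.p6
  3261183620) (.sp 4 12 0 (.sp 6 12 1 (.tr 12 6 13) (.sp 4 11 1 (.sp 6 11 1 (.tr 4 11 6) (.p6
  4468605709)) (.p6 4468605449))) (.p6 25805562122)))))) (.p6 13288170116)))) (.tr 6 3 13)) (.p6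
  3260129546)) (.p6 9804792199)) (.p6 6778553988))))) (.p6 2300682501)) (.p6
  9804726986)))))))))))) (.tr 5 2 10)))) (.tr 0 2 10)) (.sp 0 10 1 (.tr 2 0 10) (.sp 0 7 1 (.sp 3
  7 1 (.tr 0 7 3) (.sp 2 7 1 (.sp 4 7 1 (.tr 0 7 4) (.sp 7 10 1 (.tr 0 7 10) (.sp 1 7 1 (.tr 0 7
  1) (.sp 1 3 0 (.p6 4550320259) (.sp 2 4 0 (.p6 7620546824) (.sp 7 10 0 (.sp 1 4 0 (.p6
  8628789572) (.sp 4 10 1 (.p6 8947556676) (.sp 1 10 1 (.tr 4 1 10) (.sp 0 2 0 (.p6 3260080132)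
  (.sp 0 3 0 (.p6 3260047361) (.sp 0 4 0 (.p6 9797951879) (.sp 2 13 1 (.sp 3 13 1 (.tr 2 13 3)
  (.sp 4 13 1 (.tr 2 13 4) (.sp 7 13 1 (.sp 7 13 0 (.p6 9804767623) (.p6 6684516873)) (.tr 7 2
  13)))) (.sp 1 13 1 (.sp 0 13 1 (.tr 2 0 13) (.sp 3 13 1 (.tr 1 13 3) (.sp 7 13 0 (.p6
  7620632770) (.sp 0 13 0 (.p6 9026199943) (.p6 2607300672))))) (.p6 5442666690))))))))) (.p6
  4550321410))))))) (.tr 2 0 7))) (.sp 2 7 1 (.tr 0 2 7) (.sp 2 13 1 (.sp 5 13 1 (.sp 1 13 1 (.far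
  1 2 27) (.sp 4 13 1 (.tr 2 13 4) (.sp 3 5 0 (.p6 9804755590) (.sp 0 14 1 (.sp 5 14 1 (.sp 6 14 1
  (.tr 0 14 6) (.sp 1 4 0 (.sp 1 3 0 (.far 3 4 2) (.sp 0 4 0 (.far 0 1 8) (.sp 0 3 0 (.p6
  1075396744) (.sp 7 10 0 (.p6 1077493896) (.p6 2484658177))))) (.sp 1 5 0 (.sp 1 6 0 (.far 5 6 2)
  (.p6 14167356034)) (.p6 11197251778)))) (.tr 5 0 14)) (.sp 2 14 1 (.tr 0 2 14) (.sp 5 14 1 (.tr
  0 5 14) (.sp 1 4 0 (.sp 1 3 0 (.far 3 4 2) (.sp 0 4 0 (.far 0 1 8) (.sp 0 3 0 (.p6 1075396744)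
  (.sp 7 10 0 (.p6 1077493896) (.p6 2484658177))))) (.sp 1 5 0 (.sp 1 6 0 (.far 5 6 2) (.sp 2 5 0
  (.far 1 2 10) (.sp 2 6 0 (.p6 3257422092) (.sp 6 14 1 (.sp 3 14 1 (.p6 10822468038) (.tr 3 6
  14)) (.p6 14167327434))))) (.p6 11197251778))))))))) (.tr 5 2 13)) (.sp 5 13 1 (.tr 2 5 13) (.sp
  2 15 1 (.sp 3 15 1 (.tr 2 15 3) (.sp 2 4 0 (.p6 7624741128) (.sp 4 13 1 (.sp 1 13 1 (.sp 3 13 1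
  (.far 3 4 27) (.sp 1 3 0 (.p6 7617492612) (.sp 3 10 1 (.sp 1 10 1 (.tr 1 10 3) (.sp 0 3 0 (.p6
  3260047361) (.sp 7 10 0 (.sp 1 7 1 (.sp 7 13 1 (.sp 3 7 1 (.tr 1 7 3) (.sp 7 13 0 (.p6
  5442691463) (.p6 6684516613))) (.tr 7 1 13)) (.p6 3260080129)) (.p6 2484658177)))) (.sp 10 13 0
  (.p6 5442716039) (.sp 10 13 1 (.p6 6785179909) (.sp 1 4 0 (.p6 6778553988) (.sp 4 10 1 (.tr 10 4
  13) (.p6 7622107720)))))))) (.tr 1 4 13)) (.sp 1 4 0 (.sp 1 3 0 (.far 3 4 2) (.sp 0 4 0 (.far 0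
  1 8) (.sp 0 3 0 (.p6 1075396744) (.sp 7 10 0 (.p6 1077493896) (.p6 2484658177))))) (.p6
  2300682501))))) (.sp 5 15 1 (.tr 2 5 15) (.sp 1 13 1 (.sp 4 13 1 (.sp 3 13 1 (.tr 1 13 3) (.sp 1
  3 0 (.p6 4731969927) (.sp 3 10 1 (.sp 1 10 1 (.tr 1 10 3) (.sp 0 3 0 (.p6 3260047361) (.sp 7 10
  0 (.sp 1 7 1 (.sp 7 13 1 (.sp 3 7 1 (.tr 1 7 3) (.sp 7 13 0 (.p6 5442691463) (.p6 6684516613)))
  (.tr 7 1 13)) (.p6 3260080129)) (.p6 2484658177)))) (.sp 10 13 0 (.p6 5442716039) (.sp 10 13 1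
  (.p6 6785179909) (.sp 1 4 0 (.p6 28052111751) (.sp 4 10 1 (.tr 10 4 13) (.p6 7622107720))))))))
  (.tr 4 1 13)) (.sp 4 13 1 (.tr 1 4 13) (.sp 2 5 0 (.sp 2 4 0 (.far 4 5 4) (.sp 1 4 0 (.sp 1 3 0
  (.far 3 4 2) (.sp 0 4 0 (.far 0 1 8) (.sp 0 3 0 (.p6 1075396744) (.sp 7 10 0 (.p6 1077493896)
  (.p6 2484658177))))) (.p6 5442666690))) (.sp 2 4 0 (.sp 3 5 0 (.p6 8659968391) (.sp 3 15 1 (.sp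
  13 15 0 (.sp 4 15 1 (.tr 3 15 4) (.p6 11986903561)) (.p6 27987322758)) (.p6 7624761668))) (.p6
  9804726986))))))))))))))))))))))) (.tr 0 2 5))))))))))))))))))))))))))))))))))))

theorem validLD : lemLD.Valid := Lem.valid_of_chk _ treeLD (by decide +kernel)

end Pool.Agent.P6ED
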