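import Pool.Agent.P6ED.Lem

set_option autoImplicit false
set_option maxRecDepth 100000

namespace Pool.Agent.P6ED

/-- Windows of four and three vertices with dominator patterns 0120 and 201. -/
def lemLE : Lem :=
  { m := 7
    X := [(0, 1), (1, 2), (2, 3), (4, 5), (5, 6)]
    A := [(0, 2), (0, 4), (0, 6), (1, 3), (1, 4), (1, 5), (2, 5), (2, 6), (3, 4), (3, 6), (4, 6)]
    T := [(0, 3), (3, 5), (1, 6), (2, 4)]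
    F := [] }

/-- The refutation tree (522 leaves). -/
def treeLE : Tree := .sp 4 13 0 (.far 4 5 26) (.sp 6 13 0 (.far 5 6 26) (.sp 4 5 0 (.far 4 5 8)
  (.sp 2 15 0 (.far 2 3 30) (.sp 3 4 1 (.far 4 5 7) (.sp 4 5 1 (.tr 3 5 4) (.sp 3 6 1 (.far 5 6 7)
  (.sp 2 5 1 (.far 2 3 11) (.sp 5 6 1 (.tr 3 5 6) (.sp 2 3 1 (.tr 2 3 5) (.sp 1 4 1 (.far 1 2 9)
  (.sp 1 2 1 (.tr 1 2 4) (.sp 0 1 1 (.far 0 1 1) (.sp 5 15 0 (.far 4 5 30) (.sp 5 14 0 (.far 5 6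
  28) (.sp 6 12 0 (.far 5 6 24) (.sp 4 12 0 (.far 4 5 24) (.sp 1 8 0 (.far 0 1 16) (.sp 2 16 0
  (.far 2 3 32) (.sp 1 9 0 (.far 0 1 18) (.sp 1 2 0 (.far 1 2 2) (.sp 4 6 1 (.tr 1 6 4) (.sp 0 6 1
  (.tr 0 6 1) (.sp 1 3 1 (.tr 3 1 6) (.sp 1 5 1 (.tr 5 1 6) (.sp 2 6 1 (.tr 1 6 2) (.sp 0 12 0
  (.far 0 1 24) (.sp 2 12 0 (.far 1 2 24) (.sp 0 2 1 (.far 2 3 1) (.sp 0 4 1 (.tr 3 0 4) (.sp 0 5
  1 (.sp 1 13 0 (.far 1 2 26) (.sp 3 13 0 (.far 2 3 26) (.sp 5 9 0 (.far 5 6 18) (.sp 5 16 0 (.far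
  5 6 32) (.sp 0 1 0 (.far 0 1 0) (.sp 0 11 0 (.far 0 1 22) (.sp 2 11 0 (.far 1 2 22) (.sp 5 6 0
  (.far 5 6 10) (.sp 3 14 0 (.far 2 3 28) (.sp 1 14 0 (.far 1 2 28) (.sp 5 8 0 (.far 4 5 16) (.sp
  5 11 0 (.far 4 5 22) (.sp 2 3 0 (.far 2 3 4) (.sp 5 13 1 (.sp 6 13 1 (.tr 5 13 6) (.sp 2 13 1
  (.tr 2 13 5) (.sp 3 13 1 (.sp 1 13 1 (.tr 1 13 5) (.sp 1 3 0 (.p6 5442662786) (.sp 3 12 1 (.sp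
  12 13 1 (.sp 2 12 1 (.tr 2 12 3) (.sp 6 12 1 (.tr 3 12 6) (.sp 1 12 1 (.tr 1 12 3) (.sp 12 13 0
  (.p6 3261178117) (.sp 1 6 0 (.sp 1 5 0 (.far 5 6 2) (.sp 2 6 0 (.far 1 2 12) (.sp 2 5 0 (.p6
  12924788997) (.p6 12924790404)))) (.p6 28343018316)))))) (.tr 12 3 13)) (.sp 5 12 1 (.tr 3 5 12)
  (.sp 5 11 1 (.sp 2 11 1 (.tr 2 11 5) (.sp 1 11 1 (.tr 1 11 5) (.sp 11 13 0 (.p6 3260653829) (.sp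
  2 5 0 (.sp 2 4 0 (.far 4 5 4) (.sp 1 5 0 (.far 1 2 10) (.sp 1 4 0 (.p6 2283029131) (.p6
  3260580164)))) (.sp 1 5 0 (.p6 3257508101) (.sp 2 4 0 (.sp 1 4 0 (.far 1 2 8) (.p6 11174708610))
  (.p6 23757866634))))))) (.sp 3 11 1 (.tr 5 3 11) (.sp 0 15 1 (.sp 4 15 1 (.tr 0 15 4) (.sp 5 15
  1 (.sp 2 15 1 (.tr 0 15 2) (.sp 2 6 0 (.sp 1 6 0 (.far 1 2 12) (.p6 2368751259)) (.sp 6 12 1
  (.sp 2 12 1 (.tr 2 12 6) (.sp 4 12 1 (.tr 4 12 6) (.sp 2 5 0 (.p6 13310664965) (.sp 1 5 0 (.p6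
  3257508101) (.sp 2 4 0 (.sp 1 4 0 (.p6 11985232393) (.sp 11 12 0 (.p6 4435051147) (.p6
  8959656587))) (.p6 11265409348)))))) (.sp 1 12 1 (.tr 6 1 12) (.sp 1 5 0 (.sp 2 5 0 (.far 1 2
  10) (.p6 3257508101)) (.sp 2 5 0 (.sp 3 5 0 (.far 2 3 10) (.sp 2 4 0 (.far 4 5 4) (.sp 1 4 0
  (.p6 3256897802) (.sp 2 11 1 (.sp 3 11 0 (.p6 4464600450) (.sp 3 4 0 (.sp 1 11 1 (.tr 1 11 2)
  (.p6 3260580231)) (.p6 8674976198))) (.p6 23757865611))))) (.sp 12 13 0 (.sp 2 4 0 (.sp 1 4 0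
  (.far 1 2 8) (.p6 3261178120)) (.p6 11265409348)) (.p6 4733894787)))))))) (.tr 5 0 15))) (.sp 3
  15 1 (.tr 0 3 15) (.sp 5 15 1 (.tr 0 5 15) (.sp 5 14 1 (.sp 2 14 1 (.tr 2 14 5) (.sp 6 14 1
  (.far 5 6 29) (.sp 2 6 0 (.sp 1 6 0 (.far 1 2 12) (.p6 2368751259)) (.sp 1 6 0 (.sp 3 6 0 (.p6
  4733035266) (.sp 1 5 0 (.far 5 6 2) (.sp 2 5 0 (.sp 3 5 0 (.far 2 3 10) (.sp 2 4 0 (.far 4 5 4)
  (.sp 1 4 0 (.p6 3256897802) (.sp 2 11 1 (.sp 3 11 0 (.p6 4464600450) (.sp 3 4 0 (.sp 1 11 1 (.tr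
  1 11 2) (.p6 3260580231)) (.p6 8674976198))) (.p6 23757865611))))) (.sp 13 14 0 (.sp 3 5 0 (.p6
  14167417478) (.sp 2 15 1 (.p6 10856554820) (.sp 4 15 1 (.tr 2 4 15) (.sp 3 4 0 (.sp 2 4 0 (.far
  2 3 8) (.p6 10856464708)) (.p6 9805783754))))) (.p6 14167328394))))) (.p6 2368848133))))) (.sp 3
  14 1 (.tr 5 3 14) (.sp 2 6 0 (.sp 1 6 0 (.far 1 2 12) (.p6 2368751259)) (.sp 3 6 0 (.p6
  12992749829) (.sp 6 12 1 (.sp 2 12 1 (.tr 2 12 6) (.sp 4 12 1 (.tr 4 12 6) (.sp 2 5 0 (.p6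
  13310664965) (.sp 1 5 0 (.p6 3257508101) (.sp 1 4 0 (.p6 11985232393) (.sp 11 12 0 (.sp 2 11 1
  (.p6 11985314116) (.sp 4 11 1 (.tr 2 4 11) (.p6 11985314313))) (.p6 8959656587))))))) (.sp 1 12
  1 (.tr 6 1 12) (.sp 1 5 0 (.sp 2 5 0 (.far 1 2 10) (.p6 3257508101)) (.sp 1 6 0 (.sp 2 5 0 (.p6
  2356167307) (.sp 12 13 0 (.sp 12 14 0 (.sp 6 14 1 (.sp 2 14 1 (.tr 2 14 6) (.sp 3 16 1 (.sp 2 16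
  1 (.tr 2 16 3) (.sp 14 16 0 (.sp 3 5 0 (.p6 10846585093) (.sp 2 15 1 (.p6 10856554820) (.sp 4 15
  1 (.tr 2 4 15) (.sp 3 4 0 (.sp 2 4 0 (.far 2 3 8) (.p6 10856464708)) (.p6 9805783754))))) (.p6
  5443209222))) (.sp 14 16 0 (.sp 2 16 1 (.sp 3 5 0 (.sp 3 4 0 (.far 4 5 6) (.sp 2 4 0 (.sp 1 4 0
  (.far 1 2 8) (.p6 3261178120)) (.p6 8674976198))) (.p6 10856563012)) (.p6 7625359621)) (.p6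
  4768006535)))) (.p6 11985339149)) (.p6 11140646660)) (.p6 4733894787))) (.p6
  11985232716)))))))))))))))))) (.tr 3 5 13)))) (.sp 3 13 1 (.tr 5 3 13) (.sp 0 13 1 (.tr 5 0 13)
  (.sp 5 14 1 (.sp 3 14 1 (.sp 4 14 1 (.tr 4 14 5) (.sp 0 14 1 (.sp 2 14 1 (.tr 2 14 5) (.sp 6 14
  1 (.far 5 6 29) (.sp 1 14 1 (.tr 1 14 5) (.sp 1 3 0 (.p6 2255864069) (.sp 0 11 1 (.sp 6 11 1
  (.tr 0 11 6) (.sp 11 13 1 (.tr 0 11 13) (.sp 1 11 1 (.tr 0 11 1) (.sp 4 11 1 (.tr 0 11 4) (.sp 2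
  11 1 (.tr 0 11 2) (.sp 5 11 1 (.sp 0 9 1 (.sp 5 9 1 (.sp 1 9 1 (.far 0 1 19) (.sp 6 9 1 (.tr 0 9
  6) (.sp 0 12 1 (.sp 1 12 1 (.tr 0 12 1) (.sp 6 12 1 (.tr 0 12 6) (.sp 2 12 1 (.tr 0 12 2) (.sp
  12 14 0 (.p6 3261186309) (.sp 1 6 0 (.sp 1 5 0 (.far 5 6 2) (.sp 2 6 0 (.far 1 2 12) (.sp 2 5 0
  (.p6 12924788997) (.p6 11140646660)))) (.sp 2 6 0 (.p6 25806815493) (.p6 2368848133))))))) (.sp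
  2 5 0 (.sp 2 4 0 (.far 4 5 4) (.sp 1 5 0 (.far 1 2 10) (.sp 1 4 0 (.p6 2283029131) (.p6
  3260580164)))) (.sp 1 5 0 (.p6 5443203714) (.sp 1 6 0 (.sp 2 6 0 (.far 1 2 12) (.sp 0 6 0 (.far
  0 1 12) (.sp 0 5 0 (.sp 0 4 0 (.far 4 5 0) (.sp 3 5 0 (.sp 3 6 0 (.far 5 6 6) (.sp 13 16 0 (.sp
  14 16 0 (.sp 2 16 1 (.sp 5 16 1 (.tr 2 16 5) (.sp 6 16 1 (.tr 2 16 6) (.sp 6 13 1 (.sp 4 6 0
  (.p6 11985801992) (.sp 4 13 1 (.tr 4 13 6) (.sp 1 13 1 (.sp 2 4 0 (.sp 1 4 0 (.p6 8630674059)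
  (.sp 8 12 0 (.sp 3 8 1 (.sp 5 8 1 (.sp 4 8 1 (.tr 3 8 4) (.sp 8 13 1 (.tr 3 8 13) (.sp 8 13 0
  (.p6 2607350281) (.p6 29429928968)))) (.tr 5 3 8)) (.sp 5 8 1 (.tr 3 5 8) (.sp 0 8 1 (.tr 3 0 8)
  (.sp 6 8 0 (.sp 8 13 0 (.p6 2353111691) (.sp 2 8 0 (.p6 11174740738) (.p6 13155452554))) (.p6
  12924813313))))) (.p6 8858412546))) (.p6 11985764936)) (.tr 1 6 13)))) (.p6 11985879821)))) (.p6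
  10846585093)) (.p6 10846521092)) (.p6 13423388292))) (.sp 2 13 1 (.sp 4 13 1 (.sp 3 4 0 (.sp 2 4
  0 (.far 2 3 8) (.p6 10856464708)) (.p6 9049776582)) (.tr 4 2 13)) (.p6 5442675142)))) (.p6
  12924788800)))) (.p6 11060953282))))))) (.tr 5 0 9)) (.sp 5 9 1 (.tr 0 5 9) (.sp 2 5 0 (.sp 2 4
  0 (.far 4 5 4) (.sp 1 5 0 (.far 1 2 10) (.sp 1 4 0 (.p6 2283029131) (.p6 3260580164)))) (.sp 1 5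
  0 (.p6 5443203714) (.sp 3 12 1 (.sp 2 12 1 (.tr 2 12 3) (.sp 1 12 1 (.tr 1 12 3) (.sp 12 14 0
  (.p6 3261186309) (.sp 1 6 0 (.sp 2 6 0 (.far 1 2 12) (.p6 11140646660)) (.p6 30266893834)))))
  (.sp 0 12 1 (.tr 3 0 12) (.sp 5 12 1 (.tr 3 5 12) (.sp 3 5 0 (.sp 3 6 0 (.far 5 6 6) (.sp 2 13 1
  (.sp 6 13 1 (.tr 2 13 6) (.sp 2 6 0 (.p6 14161126022) (.sp 13 14 0 (.p6 14167417478) (.p6
  14167328394)))) (.sp 4 13 1 (.tr 2 4 13) (.sp 2 4 0 (.sp 1 4 0 (.far 1 2 8) (.sp 11 13 0 (.sp 1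
  13 1 (.sp 6 13 1 (.sp 4 6 0 (.p6 11177083401) (.sp 1 9 1 (.sp 0 5 0 (.sp 0 6 0 (.far 5 6 0) (.sp
  0 4 0 (.far 4 5 0) (.sp 8 12 0 (.sp 1 12 1 (.sp 4 12 1 (.tr 1 12 4) (.sp 11 12 0 (.p6
  9803760256) (.p6 9803671050))) (.sp 1 6 0 (.sp 2 6 0 (.far 1 2 12) (.sp 8 11 1 (.sp 8 13 1 (.tr
  11 8 13) (.sp 5 8 1 (.sp 4 8 1 (.tr 4 8 11) (.sp 8 13 0 (.p6 2607350281) (.p6 29429928968)))
  (.tr 5 11 8))) (.sp 5 8 1 (.tr 8 5 11) (.sp 0 8 1 (.tr 8 0 11) (.sp 6 8 0 (.sp 8 13 0 (.p6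
  2353111691) (.sp 2 8 0 (.p6 11174740738) (.p6 13155452554))) (.p6 12924813313)))))) (.p6
  12935856779))) (.p6 8858412546)))) (.p6 10754269378)) (.sp 6 9 1 (.tr 1 6 9) (.sp 9 13 0 (.sp 1
  6 0 (.p6 2353635979) (.sp 2 6 0 (.sp 6 11 0 (.p6 5439054538) (.p6 9803670348)) (.p6
  2368848133))) (.p6 11985802002))))) (.tr 6 1 13)) (.p6 3260653829)) (.p6 11174708610))) (.p6
  8674976395))))) (.sp 2 13 1 (.sp 4 13 1 (.sp 3 4 0 (.sp 2 4 0 (.far 2 3 8) (.p6 10856464708))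
  (.p6 9049776582)) (.tr 4 2 13)) (.p6 5442675142)))))))))) (.tr 5 0 11))))))) (.sp 11 14 1 (.tr 0
  14 11) (.sp 5 11 1 (.tr 0 5 11) (.sp 3 11 1 (.tr 0 3 11) (.sp 2 5 0 (.sp 3 5 0 (.far 2 3 10)
  (.sp 2 6 0 (.far 5 6 4) (.sp 2 4 0 (.far 4 5 4) (.sp 1 5 0 (.far 1 2 10) (.sp 4 6 0 (.p6
  11980018188) (.sp 2 11 1 (.sp 3 11 0 (.p6 4464600450) (.sp 1 4 0 (.p6 2283029131) (.sp 4 14 0
  (.sp 11 14 0 (.sp 1 11 1 (.tr 1 11 2) (.p6 6936420483)) (.p6 11231331714)) (.p6 14167327304))))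
  (.p6 23757865611))))))) (.sp 1 5 0 (.p6 5443203714) (.sp 5 12 1 (.sp 2 12 1 (.tr 2 12 5) (.sp 1
  12 1 (.tr 1 12 5) (.sp 12 14 0 (.p6 3261186309) (.sp 1 6 0 (.sp 2 6 0 (.far 1 2 12) (.p6
  11140646660)) (.p6 30266893834))))) (.sp 1 12 1 (.sp 4 12 1 (.tr 1 12 4) (.sp 2 12 1 (.far 1 2
  25) (.sp 1 4 0 (.p6 11985232393) (.sp 11 12 0 (.sp 2 11 1 (.p6 11985314116) (.sp 4 11 1 (.tr 2 4
  11) (.p6 11985314313))) (.p6 8959656587))))) (.sp 1 6 0 (.sp 2 6 0 (.far 1 2 12) (.sp 3 5 0 (.sp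
  3 6 0 (.far 5 6 6) (.sp 13 16 0 (.sp 14 16 0 (.sp 2 16 1 (.sp 5 16 1 (.tr 2 16 5) (.sp 6 16 1
  (.tr 2 16 6) (.sp 6 13 1 (.sp 4 13 1 (.tr 4 13 6) (.sp 1 13 1 (.sp 2 4 0 (.sp 1 4 0 (.p6
  8630674059) (.sp 11 12 0 (.p6 4435051147) (.p6 8959656587))) (.p6 11985764936)) (.tr 1 6 13)))
  (.p6 11985879821)))) (.p6 10846585093)) (.p6 10846521092)) (.p6 13423388292))) (.sp 2 13 1 (.sp
  4 13 1 (.sp 3 4 0 (.sp 2 4 0 (.far 2 3 8) (.p6 10856464708)) (.p6 9049776582)) (.tr 4 2 13))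
  (.p6 5442675142)))) (.p6 12935856779)))))))))))))) (.tr 0 5 14))) (.tr 3 5 14)) (.sp 3 14 1 (.tr
  5 3 14) (.sp 5 11 1 (.sp 4 11 1 (.tr 4 11 5) (.sp 2 11 1 (.tr 2 11 5) (.sp 1 11 1 (.tr 1 11 5)
  (.sp 0 11 1 (.sp 0 2 0 (.p6 2516844805) (.sp 11 12 1 (.sp 0 12 1 (.sp 4 12 1 (.tr 4 12 11) (.sp
  5 12 1 (.sp 1 12 1 (.tr 1 12 11) (.sp 5 8 1 (.sp 4 8 1 (.far 4 5 17) (.sp 8 12 1 (.sp 1 8 1 (.tr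
  1 8 5) (.sp 1 4 0 (.sp 0 4 0 (.far 0 1 8) (.sp 2 4 0 (.far 1 2 8) (.sp 1 5 0 (.far 4 5 2) (.sp 2
  5 0 (.p6 3256897802) (.sp 0 5 0 (.p6 9798517376) (.sp 3 9 1 (.sp 5 9 1 (.sp 1 9 1 (.tr 1 9 3)
  (.sp 6 9 1 (.tr 3 9 6) (.sp 1 6 0 (.sp 2 6 0 (.far 1 2 12) (.sp 13 14 0 (.p6 2356257419) (.p6
  13355819659))) (.p6 11060953282)))) (.tr 5 3 9)) (.sp 0 9 1 (.tr 3 0 9) (.sp 5 9 1 (.tr 3 5 9)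
  (.sp 1 9 1 (.p6 10754269378) (.sp 6 9 1 (.tr 1 6 9) (.sp 0 6 0 (.sp 1 6 0 (.far 0 1 12) (.p6
  10754244802)) (.p6 14164689610)))))))))))) (.sp 8 12 0 (.p6 3261137417) (.p6 3261142024)))) (.tr
  8 5 12))) (.sp 1 6 0 (.sp 1 5 0 (.far 5 6 2) (.sp 2 6 0 (.far 1 2 12) (.sp 2 5 0 (.p6
  2356167307) (.sp 13 14 0 (.p6 2356257419) (.p6 13355819659))))) (.sp 0 6 0 (.sp 0 5 0 (.far 5 6
  0) (.sp 1 5 0 (.sp 1 4 0 (.far 4 5 2) (.sp 0 4 0 (.p6 9797939842) (.p6 8858415746))) (.p6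
  10754244802))) (.p6 12935856192))))) (.tr 5 11 12))) (.tr 0 11 12)) (.sp 5 12 1 (.tr 11 5 12)
  (.sp 0 12 1 (.tr 11 0 12) (.sp 3 16 1 (.sp 2 16 1 (.tr 2 16 3) (.sp 14 16 1 (.tr 3 16 14) (.sp 5
  16 1 (.sp 6 16 1 (.tr 3 16 6) (.sp 2 5 0 (.sp 2 4 0 (.far 4 5 4) (.sp 1 5 0 (.far 1 2 10) (.sp 1
  4 0 (.p6 2283029131) (.p6 3260580164)))) (.sp 2 6 0 (.p6 11299504389) (.sp 14 16 0 (.sp 13 14 0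
  (.sp 2 14 1 (.sp 1 14 1 (.tr 1 14 2) (.sp 6 14 1 (.tr 2 14 6) (.sp 6 13 1 (.sp 4 13 1 (.tr 4 13
  6) (.sp 2 4 0 (.sp 1 4 0 (.far 1 2 8) (.sp 1 5 0 (.sp 1 6 0 (.far 5 6 2) (.p6 30266892939)) (.sp
  1 6 0 (.p6 2356257419) (.sp 1 12 1 (.sp 6 12 1 (.sp 4 12 1 (.tr 1 12 4) (.sp 11 12 0 (.sp 0 5 0
  (.sp 0 4 0 (.far 4 5 0) (.p6 9803760256)) (.sp 0 6 0 (.p6 12887827970) (.p6 13310664768))) (.p6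
  9803671050))) (.p6 11985232716)) (.p6 12935856779))))) (.p6 11985764936))) (.p6 11985863437))))
  (.sp 3 5 0 (.p6 10846585093) (.sp 4 14 1 (.tr 2 4 14) (.sp 2 13 1 (.sp 4 13 1 (.sp 3 4 0 (.sp 4
  14 0 (.p6 10856466205) (.p6 30503629192)) (.p6 9049776582)) (.tr 4 2 13)) (.p6 5442675142)))))
  (.p6 13355819659)) (.p6 11299505924))))) (.tr 5 3 16)))) (.sp 5 16 1 (.tr 3 5 16) (.sp 2 5 0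
  (.sp 3 5 0 (.far 2 3 10) (.sp 2 16 1 (.sp 2 6 0 (.far 5 6 4) (.sp 3 6 0 (.p6 12988489989) (.sp 6
  16 1 (.tr 2 16 6) (.p6 14168384202)))) (.p6 34463326469))) (.sp 3 5 0 (.sp 3 6 0 (.far 5 6 6)
  (.sp 6 13 1 (.sp 4 13 1 (.tr 4 13 6) (.sp 1 13 1 (.sp 2 4 0 (.sp 1 4 0 (.far 1 2 8) (.sp 5 8 1
  (.sp 4 8 1 (.far 4 5 17) (.sp 8 13 1 (.tr 5 8 13) (.sp 8 13 0 (.p6 2607350281) (.p6
  9802134170)))) (.sp 0 8 1 (.tr 5 0 8) (.sp 0 5 0 (.sp 1 5 0 (.far 0 1 10) (.sp 0 4 0 (.far 4 5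
  0) (.sp 6 12 1 (.sp 4 12 1 (.tr 4 12 6) (.sp 11 12 0 (.p6 9803760256) (.p6 9803671050))) (.sp 1
  6 0 (.sp 2 6 0 (.far 1 2 12) (.sp 13 14 0 (.p6 2356257419) (.p6 13355819659))) (.p6
  11985232716))))) (.sp 0 4 0 (.p6 25937838596) (.sp 4 8 1 (.sp 8 12 0 (.sp 1 5 0 (.p6 8858415746)
  (.sp 1 8 1 (.tr 1 8 4) (.sp 1 12 1 (.sp 6 12 1 (.sp 0 6 0 (.sp 1 6 0 (.far 0 1 12) (.p6
  12887827970)) (.p6 13310664768)) (.tr 6 1 12)) (.p6 3261136897)))) (.p6 25937839112)) (.p6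
  9802089162))))))) (.p6 11985764936)) (.tr 1 6 13))) (.sp 2 6 0 (.p6 14161126022) (.sp 14 16 0
  (.sp 13 14 0 (.sp 13 16 0 (.sp 6 14 1 (.sp 6 16 1 (.sp 2 14 1 (.tr 2 14 6) (.sp 2 16 1 (.tr 2 16
  6) (.p6 7625359621))) (.p6 11985879821)) (.p6 11985863437)) (.p6 13423388292)) (.p6
  13355819659)) (.p6 4768006535))))) (.sp 13 14 0 (.sp 2 13 1 (.sp 6 13 1 (.tr 2 13 6) (.sp 4 13 1
  (.sp 6 14 1 (.sp 3 4 0 (.sp 4 14 1 (.tr 4 14 6) (.sp 4 14 0 (.p6 10856466205) (.p6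
  30503629192))) (.p6 9049776582)) (.p6 11985863437)) (.tr 4 2 13))) (.p6 5442675142)) (.p6
  30138737094)))))))))) (.tr 0 5 11))))) (.sp 0 11 1 (.tr 5 0 11) (.sp 5 12 1 (.sp 0 12 1 (.sp 1
  12 1 (.tr 1 12 5) (.sp 1 6 0 (.sp 1 5 0 (.far 5 6 2) (.sp 2 6 0 (.far 1 2 12) (.sp 2 5 0 (.p6
  2356167307) (.sp 13 14 0 (.p6 2356257419) (.p6 13355819659))))) (.sp 0 6 0 (.sp 0 5 0 (.far 5 6
  0) (.sp 1 5 0 (.sp 1 4 0 (.far 4 5 2) (.sp 0 4 0 (.p6 9797939842) (.p6 8959598656))) (.p6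
  10754244802))) (.p6 12935856192)))) (.tr 0 5 12)) (.sp 1 5 0 (.sp 1 4 0 (.far 4 5 2) (.sp 0 5 0
  (.far 0 1 10) (.sp 0 4 0 (.p6 3257405448) (.p6 8959598656)))) (.sp 6 12 1 (.sp 2 12 1 (.tr 2 12
  6) (.sp 4 12 1 (.tr 4 12 6) (.sp 1 4 0 (.p6 11985232393) (.sp 11 12 0 (.sp 4 11 1 (.sp 2 11 1
  (.sp 2 5 0 (.sp 2 6 0 (.far 5 6 4) (.p6 5438538572)) (.p6 11985314116)) (.tr 2 4 11)) (.p6
  11985314313)) (.p6 8959656587))))) (.sp 1 6 0 (.sp 2 6 0 (.far 1 2 12) (.sp 2 5 0 (.p6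
  2356167307) (.sp 13 14 0 (.p6 2356257419) (.p6 13355819659)))) (.p6
  11985232716))))))))))))))))))))))))) (.tr 0 3 5)))))))))))))))))))))))))))))))

theorem validLE : lemLE.Valid := Lem.valid_of_chk _ treeLE (by decide +kernel)

end Pool.Agent.P6ED
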