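import Pool.Agent.P6ED.Cyc
import Pool.Agent.P6ED.LA
import Pool.Agent.P6ED.LB
import Pool.Agent.P6ED.LC
import Pool.Agent.P6ED.LD
import Pool.Agent.P6ED.LE

set_option autoImplicit false
set_option maxRecDepth 100000

namespace Pool.Agent.P6ED

/-- The configurations used for cycle length 9. -/
def list9 : List Lem := [lemLA, lemLB, lemLC, lemLD, lemLE]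

/-- The refutation tree (302 leaves). -/
def treeC9 : CT := .sp 1 4 (.sp 1 3 (.tr 3 1 4) (.sp 1 5 (.tr 4 1 5) (.sp 2 4 (.tr 1 4 2) (.sp 0 4
  (.tr 0 4 1) (.sp 3 6 (.sp 1 6 (.tr 1 6 3) (.sp 3 7 (.tr 6 3 7) (.sp 2 6 (.tr 2 6 3) (.sp 2 5
  (.sp 0 2 (.app 3 [0, 1, 2, 3, 4, 5, 6]) (.sp 0 5 (.tr 0 5 2) (.sp 5 7 (.app 3 [7, 6, 5, 4, 3, 2,
  1]) (.sp 0 6 (.sp 2 7 (.tr 5 2 7) (.sp 3 8 (.app 1 [3, 2, 5, 6, 8, 0]) (.sp 2 8 (.app 4 [8, 0,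
  1, 2, 4, 5, 6]) (.app 0 [2, 7, 3, 8])))) (.app 0 [0, 5, 1, 6]))))) (.app 0 [1, 5, 2, 6])))))
  (.sp 2 8 (.sp 2 7 (.tr 7 2 8) (.sp 4 8 (.tr 2 8 4) (.sp 3 8 (.tr 2 8 3) (.sp 0 3 (.sp 0 7 (.app
  3 [7, 8, 0, 1, 2, 3, 4]) (.sp 3 7 (.tr 0 3 7) (.sp 0 6 (.tr 3 0 6) (.sp 3 5 (.app 3 [5, 4, 3, 2,
  1, 0, 8]) (.sp 2 6 (.sp 0 5 (.tr 3 0 5) (.sp 1 6 (.tr 1 6 2) (.app 0 [0, 5, 1, 6]))) (.app 0 [2,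
  6, 3, 7])))))) (.app 0 [3, 8, 4, 0]))))) (.sp 1 7 (.sp 1 6 (.tr 6 1 7) (.sp 4 7 (.sp 2 7 (.tr 1
  7 2) (.sp 3 7 (.tr 1 7 3) (.sp 4 8 (.tr 7 4 8) (.sp 2 6 (.sp 3 8 (.sp 0 5 (.app 1 [3, 2, 6, 5,
  8, 0]) (.sp 0 6 (.sp 5 8 (.sp 0 2 (.app 3 [2, 1, 0, 8, 7, 6, 5]) (.tr 0 6 2)) (.app 0 [4, 8, 5,
  0])) (.app 0 [0, 5, 1, 6]))) (.app 0 [2, 7, 3, 8])) (.app 0 [2, 6, 3, 7]))))) (.tr 4 1 7))) (.sp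
  4 7 (.tr 1 4 7) (.sp 1 6 (.sp 2 6 (.tr 1 6 2) (.sp 4 6 (.sp 6 8 (.sp 3 8 (.tr 3 8 6) (.sp 1 8
  (.sp 0 3 (.sp 2 5 (.app 1 [3, 2, 5, 6, 0, 8]) (.sp 3 5 (.app 2 [8, 0, 1, 2, 3, 4, 5]) (.app 0
  [2, 5, 3, 6]))) (.sp 0 2 (.sp 2 5 (.app 2 [0, 1, 2, 3, 4, 5, 6]) (.sp 3 5 (.app 1 [2, 3, 5, 6,
  0, 8]) (.app 0 [2, 5, 3, 6]))) (.app 0 [2, 8, 3, 0]))) (.tr 1 6 8))) (.sp 1 8 (.tr 6 1 8) (.sp 4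
  8 (.tr 6 4 8) (.sp 2 7 (.sp 3 7 (.tr 2 7 3) (.sp 5 8 (.app 1 [2, 1, 4, 5, 7, 8]) (.sp 3 8 (.sp 3
  5 (.tr 5 3 8) (.sp 0 5 (.sp 2 5 (.sp 0 2 (.app 2 [0, 1, 2, 3, 4, 5, 6]) (.tr 0 5 2)) (.app 0 [2,
  5, 3, 6])) (.app 0 [4, 8, 5, 0]))) (.app 0 [3, 7, 4, 8])))) (.app 0 [1, 7, 2, 8]))))) (.tr 4 1
  6))) (.sp 4 6 (.tr 1 4 6) (.sp 3 7 (.sp 2 7 (.tr 2 7 3) (.sp 0 6 (.app 1 [0, 1, 4, 3, 6, 7])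
  (.sp 1 8 (.sp 0 5 (.sp 0 7 (.sp 5 7 (.sp 0 3 (.sp 3 5 (.app 2 [8, 0, 1, 2, 3, 4, 5]) (.tr 3 7
  5)) (.tr 0 7 3)) (.tr 5 0 7)) (.app 0 [0, 6, 1, 7])) (.app 0 [0, 5, 1, 6])) (.app 0 [1, 7, 2,
  8])))) (.app 0 [3, 6, 4, 7])))))))))))) (.sp 0 6 (.sp 0 5 (.tr 5 0 6) (.sp 0 7 (.tr 6 0 7) (.sp
  1 6 (.tr 0 6 1) (.sp 6 8 (.tr 0 6 8) (.sp 2 8 (.sp 2 7 (.tr 7 2 8) (.sp 2 6 (.tr 6 2 8) (.sp 3 8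
  (.tr 2 8 3) (.sp 1 7 (.sp 1 3 (.app 3 [3, 2, 1, 0, 8, 7, 6]) (.sp 4 7 (.tr 1 7 4) (.sp 5 7 (.app
  3 [5, 6, 7, 8, 0, 1, 2]) (.sp 3 7 (.tr 1 7 3) (.sp 4 8 (.sp 1 5 (.tr 5 1 7) (.sp 2 5 (.app 1 [1,
  2, 5, 4, 7, 8]) (.app 0 [1, 5, 2, 6]))) (.app 0 [3, 7, 4, 8])))))) (.app 0 [1, 6, 2, 7])))))
  (.sp 0 3 (.sp 3 7 (.tr 0 3 7) (.sp 3 8 (.tr 0 3 8) (.sp 0 4 (.tr 3 0 4) (.sp 2 7 (.sp 1 5 (.sp 4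
  8 (.app 1 [2, 1, 5, 4, 7, 8]) (.sp 5 8 (.sp 4 7 (.sp 1 8 (.app 3 [1, 0, 8, 7, 6, 5, 4]) (.tr 1 5
  8)) (.app 0 [3, 7, 4, 8])) (.app 0 [4, 8, 5, 0]))) (.app 0 [0, 4, 1, 5])) (.app 0 [2, 7, 3,
  8]))))) (.sp 3 6 (.tr 0 6 3) (.sp 4 6 (.sp 4 7 (.tr 6 4 7) (.sp 4 8 (.tr 6 4 8) (.sp 0 4 (.sp 0
  2 (.sp 2 7 (.tr 0 2 7) (.sp 2 4 (.sp 1 7 (.sp 5 8 (.app 3 [4, 5, 6, 7, 8, 0, 1]) (.sp 5 7 (.app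
  2 [5, 6, 7, 8, 0, 1, 2]) (.app 0 [4, 7, 5, 8]))) (.sp 1 8 (.sp 5 7 (.app 1 [1, 2, 4, 5, 8, 7])
  (.sp 5 8 (.app 2 [4, 5, 6, 7, 8, 0, 1]) (.app 0 [4, 7, 5, 8]))) (.app 0 [1, 7, 2, 8]))) (.tr 2 0
  4))) (.sp 2 6 (.tr 0 6 2) (.sp 3 8 (.sp 3 7 (.tr 7 3 8) (.sp 2 5 (.app 1 [3, 2, 5, 6, 8, 0])
  (.sp 2 7 (.sp 1 5 (.sp 5 7 (.tr 2 7 5) (.sp 3 5 (.sp 1 3 (.sp 5 8 (.sp 1 8 (.app 2 [4, 5, 6, 7,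
  8, 0, 1]) (.tr 1 3 8)) (.app 0 [4, 7, 5, 8])) (.tr 1 5 3)) (.app 0 [2, 5, 3, 6]))) (.app 0 [1,
  5, 2, 6])) (.app 0 [2, 6, 3, 7])))) (.app 0 [2, 8, 3, 0])))) (.tr 0 6 4)))) (.sp 0 4 (.tr 4 0 6)
  (.sp 1 5 (.sp 1 3 (.sp 3 5 (.sp 4 7 (.app 1 [0, 1, 3, 4, 6, 7]) (.sp 3 7 (.sp 3 8 (.tr 7 3 8)
  (.sp 1 7 (.sp 5 7 (.sp 0 2 (.app 2 [5, 6, 7, 8, 0, 1, 2]) (.app 0 [2, 8, 3, 0])) (.tr 5 3 7))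
  (.tr 1 3 7))) (.app 0 [3, 6, 4, 7]))) (.tr 3 1 5)) (.app 0 [0, 3, 1, 4])) (.app 0 [0, 4, 1,
  5]))))))))))) (.sp 0 3 (.sp 3 6 (.tr 0 3 6) (.sp 0 2 (.tr 2 0 3) (.sp 0 4 (.tr 3 0 4) (.sp 0 5
  (.sp 2 5 (.tr 0 5 2) (.sp 1 5 (.tr 0 5 1) (.sp 3 5 (.sp 2 4 (.sp 4 6 (.sp 1 7 (.app 1 [1, 0, 3,
  4, 7, 6]) (.sp 4 7 (.tr 6 4 7) (.sp 1 6 (.tr 1 6 4) (.sp 0 7 (.sp 2 7 (.tr 4 2 7) (.sp 5 7 (.sp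
  2 8 (.app 2 [7, 8, 0, 1, 2, 3, 4]) (.sp 1 8 (.app 1 [1, 2, 4, 5, 8, 7]) (.app 0 [1, 7, 2, 8])))
  (.tr 5 0 7))) (.app 0 [0, 6, 1, 7]))))) (.sp 2 6 (.tr 4 2 6) (.sp 1 6 (.sp 1 7 (.tr 6 1 7) (.sp
  4 7 (.app 1 [1, 0, 3, 4, 6, 7]) (.sp 3 7 (.sp 2 7 (.tr 4 2 7) (.sp 0 7 (.sp 5 7 (.sp 2 8 (.app 2
  [7, 8, 0, 1, 2, 3, 4]) (.sp 1 8 (.app 1 [1, 2, 4, 5, 8, 7]) (.app 0 [1, 7, 2, 8]))) (.tr 5 3 7))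
  (.tr 0 3 7))) (.app 0 [3, 6, 4, 7])))) (.app 0 [1, 5, 2, 6])))) (.app 0 [1, 4, 2, 5])) (.tr 3 0
  5)))) (.sp 3 5 (.tr 0 3 5) (.sp 1 5 (.sp 1 6 (.tr 5 1 6) (.sp 2 5 (.tr 1 5 2) (.sp 2 6 (.sp 5 8
  (.app 1 [3, 2, 6, 5, 0, 8]) (.sp 4 8 (.sp 6 8 (.sp 4 6 (.sp 2 8 (.sp 1 7 (.app 1 [1, 0, 3, 4, 7,
  6]) (.sp 2 4 (.sp 0 7 (.app 2 [7, 8, 0, 1, 2, 3, 4]) (.app 0 [0, 6, 1, 7])) (.tr 2 6 4))) (.tr 2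
  6 8)) (.tr 4 8 6)) (.app 0 [5, 8, 6, 0])) (.app 0 [4, 8, 5, 0]))) (.app 0 [2, 5, 3, 6])))) (.app
  0 [0, 4, 1, 5]))))))) (.sp 4 6 (.sp 0 4 (.tr 0 4 6) (.sp 3 6 (.tr 3 6 4) (.sp 1 6 (.tr 1 6 4)
  (.sp 1 3 (.sp 0 7 (.app 1 [0, 1, 3, 4, 7, 6]) (.sp 1 7 (.sp 3 7 (.sp 3 8 (.tr 7 3 8) (.sp 4 8
  (.sp 2 5 (.app 1 [1, 2, 5, 4, 7, 8]) (.sp 6 8 (.sp 2 8 (.app 2 [6, 7, 8, 0, 1, 2, 3]) (.sp 2 6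
  (.tr 2 6 8) (.sp 0 2 (.sp 3 5 (.app 1 [2, 3, 5, 6, 0, 8]) (.app 0 [2, 5, 3, 6])) (.app 0 [2, 8,
  3, 0])))) (.tr 6 4 8))) (.app 0 [3, 8, 4, 0]))) (.tr 3 1 7)) (.app 0 [0, 6, 1, 7]))) (.app 0 [0,
  3, 1, 4]))))) (.sp 4 8 (.sp 6 8 (.tr 4 8 6) (.sp 1 8 (.tr 1 8 4) (.sp 0 4 (.tr 0 4 8) (.sp 5 8
  (.tr 4 8 5) (.sp 3 8 (.tr 3 8 4) (.sp 4 7 (.tr 7 4 8) (.sp 0 5 (.sp 1 3 (.sp 3 5 (.tr 0 5 3)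
  (.sp 1 5 (.tr 0 5 1) (.sp 2 5 (.sp 2 8 (.tr 5 2 8) (.sp 1 7 (.app 1 [1, 2, 5, 4, 7, 8]) (.sp 2 7
  (.sp 3 7 (.tr 1 3 7) (.sp 5 7 (.sp 3 6 (.app 2 [1, 2, 3, 4, 5, 6, 7]) (.app 0 [3, 6, 4, 7]))
  (.tr 5 2 7))) (.app 0 [1, 7, 2, 8])))) (.sp 0 2 (.tr 2 0 5) (.sp 2 4 (.sp 2 8 (.sp 2 6 (.tr 4 2
  6) (.sp 3 6 (.app 1 [2, 3, 6, 5, 8, 0]) (.app 0 [2, 5, 3, 6]))) (.app 0 [2, 8, 3, 0])) (.app 0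
  [1, 4, 2, 5])))))) (.app 0 [0, 3, 1, 4])) (.app 0 [5, 8, 6, 0])))))))) (.sp 3 7 (.sp 3 8 (.tr 7
  3 8) (.sp 0 7 (.tr 0 7 3) (.sp 0 4 (.sp 1 6 (.app 1 [1, 0, 4, 3, 6, 7]) (.sp 0 5 (.tr 4 0 5)
  (.sp 1 5 (.sp 1 7 (.sp 5 7 (.sp 1 3 (.sp 3 5 (.sp 5 8 (.tr 7 5 8) (.sp 6 8 (.sp 0 2 (.app 1 [2,
  3, 5, 6, 0, 8]) (.sp 2 8 (.app 2 [6, 7, 8, 0, 1, 2, 3]) (.app 0 [2, 8, 3, 0]))) (.app 0 [5, 8,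
  6, 0]))) (.tr 3 7 5)) (.tr 1 7 3)) (.tr 5 1 7)) (.app 0 [0, 6, 1, 7])) (.app 0 [0, 5, 1, 6]))))
  (.app 0 [3, 8, 4, 0])))) (.sp 1 7 (.sp 1 3 (.tr 3 1 7) (.sp 4 7 (.tr 1 7 4) (.sp 0 4 (.sp 3 6
  (.app 1 [1, 0, 4, 3, 7, 6]) (.app 0 [3, 6, 4, 7])) (.app 0 [0, 3, 1, 4])))) (.sp 2 6 (.sp 2 4
  (.tr 4 2 6) (.sp 2 5 (.tr 5 2 6) (.sp 3 6 (.tr 2 6 3) (.sp 1 6 (.tr 1 6 2) (.sp 2 7 (.tr 6 2 7)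
  (.sp 1 5 (.sp 4 7 (.sp 0 7 (.sp 2 8 (.app 1 [2, 1, 5, 4, 8, 7]) (.sp 0 5 (.tr 0 5 1) (.sp 3 8
  (.sp 6 8 (.tr 2 6 8) (.sp 5 8 (.sp 3 5 (.app 2 [3, 4, 5, 6, 7, 8, 0]) (.tr 3 8 5)) (.app 0 [5,
  8, 6, 0]))) (.app 0 [2, 7, 3, 8])))) (.app 0 [0, 6, 1, 7])) (.app 0 [3, 6, 4, 7])) (.app 0 [1,
  4, 2, 5]))))))) (.sp 3 6 (.sp 3 5 (.tr 5 3 6) (.sp 1 3 (.sp 1 5 (.tr 3 1 5) (.sp 4 7 (.sp 2 5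
  (.app 3 [1, 2, 3, 4, 5, 6, 7]) (.sp 2 4 (.sp 5 8 (.app 3 [2, 3, 4, 5, 6, 7, 8]) (.sp 6 8 (.app 2
  [2, 3, 4, 5, 6, 7, 8]) (.sp 0 5 (.sp 3 8 (.tr 6 3 8) (.sp 0 4 (.tr 4 0 5) (.app 0 [3, 8, 4,
  0]))) (.app 0 [5, 8, 6, 0])))) (.app 0 [1, 4, 2, 5]))) (.sp 3 8 (.sp 5 8 (.tr 3 8 5) (.sp 1 8
  (.sp 5 7 (.sp 2 4 (.app 1 [1, 2, 4, 5, 8, 7]) (.sp 2 5 (.app 2 [1, 2, 3, 4, 5, 6, 7]) (.app 0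
  [1, 4, 2, 5]))) (.app 0 [4, 7, 5, 8])) (.tr 1 3 8))) (.app 0 [3, 7, 4, 8])))) (.sp 1 6 (.tr 1 6
  3) (.sp 0 4 (.sp 0 7 (.sp 2 7 (.sp 4 7 (.sp 0 5 (.tr 4 0 5) (.sp 5 8 (.app 3 [0, 8, 7, 6, 5, 4,
  3]) (.sp 2 4 (.sp 6 8 (.app 2 [2, 3, 4, 5, 6, 7, 8]) (.app 0 [5, 8, 6, 0])) (.tr 2 7 4)))) (.tr
  4 0 7)) (.app 0 [1, 6, 2, 7])) (.app 0 [0, 6, 1, 7])) (.app 0 [0, 3, 1, 4]))))) (.sp 2 7 (.sp 4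
  7 (.sp 2 4 (.sp 2 5 (.tr 4 2 5) (.sp 3 5 (.sp 0 5 (.tr 0 5 3) (.sp 0 4 (.sp 0 7 (.sp 0 2 (.sp 5
  8 (.app 2 [3, 4, 5, 6, 7, 8, 0]) (.sp 6 8 (.app 1 [2, 3, 5, 6, 0, 8]) (.app 0 [5, 8, 6, 0])))
  (.tr 0 4 2)) (.tr 0 4 7)) (.sp 0 7 (.tr 0 7 4) (.sp 1 5 (.sp 1 6 (.tr 5 1 6) (.app 0 [0, 6, 1,
  7])) (.app 0 [0, 4, 1, 5]))))) (.app 0 [2, 5, 3, 6]))) (.tr 2 7 4)) (.app 0 [3, 6, 4, 7])) (.app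
  0 [2, 6, 3, 7]))))))))))

theorem valid_list9 : ∀ L ∈ list9, L.Valid := by
  intro L hL
  simp only [list9, List.mem_cons, List.not_mem_nil, or_false] at hL
  rcases hL with rfl | rfl | rfl | rfl | rfl
  · exact validLA
  · exact validLB
  · exact validLC
  · exact validLD
  · exact validLE

theorem cyc9_false (V : Type) (R : V → V → Prop) (dm : V → V) (h : Good R dm) (v : ℕ → V)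
    (hadj : ∀ a b, a < 9 → b < 9 → adjc 9 a b = true → ¬ R2 R (v a) (v b))
    (hfar : ∀ a b, a < 9 → b < 9 → a ≠ b → adjc 9 a b = false → R2 R (v a) (v b)) :
    False :=
  cyc_false 9 list9 treeC9 valid_list9 (by decide +kernel) V R dm h v hadj hfar

end Pool.Agent.P6ED
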