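import Mathlib

set_option autoImplicit false

/-!
A small verified checker for refutation trees over a reflexive symmetric relation `R`
without an induced six-vertex path, together with a dominator map `dm`.
-/

namespace Pool.Agent.P6ED

/-- Refutation trees. `p6 c` is a leaf which claims an induced six-vertex path (the six
extended vertices are the base-64 digits of `c`), `tr i j k` a leaf which claims a violation of
transitivity of `dm x i = dm x j`, `far i j y` a leaf which claims that the extended vertex `y`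
is related to both members of a far pair, and `sp i j t a b` splits on an atom. -/
inductive Tree : Type
  | p6 (c : ℕ) : Tree
  | tr (i j k : ℕ) : Tree
  | far (i j y : ℕ) : Tree
  | sp (i j t : ℕ) (a b : Tree) : Tree

/-- The code of the atom `(i, j, t)`. -/
def cd (i j t : ℕ) : ℕ := (i * 32 + j) * 2 + t

/-- The code of the relation atom between two extended vertices. -/
def rc (y z : ℕ) : ℕ := cd (y / 2) (z / 2) (if y % 2 = 0 then z % 2 else 1)

/-- Checks that the induced path pattern is forced. -/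
def isP6 (T F : ℕ) (y0 y1 y2 y3 y4 y5 : ℕ) : Bool :=
  T.testBit (rc y0 y1) && (T.testBit (rc y1 y2) && (T.testBit (rc y2 y3) &&
  (T.testBit (rc y3 y4) && (T.testBit (rc y4 y5) &&
  (F.testBit (rc y0 y2) && (F.testBit (rc y0 y3) && (F.testBit (rc y0 y4) &&
  (F.testBit (rc y0 y5) && (F.testBit (rc y1 y3) && (F.testBit (rc y1 y4) &&
  (F.testBit (rc y1 y5) && (F.testBit (rc y2 y4) && (F.testBit (rc y2 y5) &&
  (F.testBit (rc y3 y5)))))))))))))))

/-- The checker. `X` is the mask of far pairs. -/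
def check (X : ℕ) : Tree → ℕ → ℕ → Bool
  | Tree.p6 c, T, F => isP6 T F (c % 64) (c / 64 % 64) (c / 4096 % 64) (c / 262144 % 64)
      (c / 16777216 % 64) (c / 1073741824 % 64)
  | Tree.tr i j k, T, F => decide (j < 32) && (decide (k < 32) &&
      (T.testBit (cd i j 1) && (T.testBit (cd j k 1) && F.testBit (cd i k 1))))
  | Tree.far i j y, T, _ => decide (j < 32) && (X.testBit (cd i j 0) &&
      (T.testBit (rc (2 * i) (y % 64)) && T.testBit (rc (y % 64) (2 * j))))
  | Tree.sp i j t a b, T, F => decide (i < 32) && (decide (j < 32) && (decide (t < 2) &&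
      (check X a (T ||| 2 ^ (cd i j t) ||| 2 ^ (cd j i t)) F &&
       check X b T (F ||| 2 ^ (cd i j t) ||| 2 ^ (cd j i t)))))

section
variable {V : Type} (R : V → V → Prop) (dm : V → V) (x : ℕ → V)

/-- The meaning of an atom code. -/
def val (c : ℕ) : Prop :=
  if c % 2 = 0 then R (x (c / 2 / 32)) (x (c / 2 % 32)) else dm (x (c / 2 / 32)) = dm (x (c / 2 % 32))

/-- The extended vertex with a given code. -/
def pt (y : ℕ) : V := if y % 2 = 0 then x (y / 2) else dm (x (y / 2))

theorem val_cd0 (i j : ℕ) (hj : j < 32) : val R dm x (cd i j 0) ↔ R (x i) (x j) := by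
  have h1 : cd i j 0 % 2 = 0 := by unfold cd; omega
  have h2 : cd i j 0 / 2 / 32 = i := by unfold cd; omega
  have h3 : cd i j 0 / 2 % 32 = j := by unfold cd; omega
  simp [val, h1, h2, h3]

theorem val_cd1 (i j : ℕ) (hj : j < 32) : val R dm x (cd i j 1) ↔ dm (x i) = dm (x j) := by
  have h1 : cd i j 1 % 2 = 1 := by unfold cd; omega
  have h2 : cd i j 1 / 2 / 32 = i := by unfold cd; omega
  have h3 : cd i j 1 / 2 % 32 = j := by unfold cd; omega
  simp [val, h1, h2, h3]

/-- The hypotheses on `R` and `dm`. -/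
structure Good : Prop where
  refl : ∀ u, R u u
  symm : ∀ u v, R u v → R v u
  dom : ∀ u v, R (dm u) v ↔ dm u = dm v
  p6 : ∀ a b c d e f : V, R a b → R b c → R c d → R d e → R e f →
    ¬ R a c → ¬ R a d → ¬ R a e → ¬ R a f → ¬ R b d → ¬ R b e → ¬ R b f → ¬ R c e → ¬ R c f →
    ¬ R d f → False

variable {R dm}

theorem Good.dd (h : Good R dm) (u : V) : dm (dm u) = dm u := by
  have := (h.dom u (dm u)).1 (h.refl _)
  exact this.symm

theorem val_rc (h : Good R dm) (y z : ℕ) (hz : z < 64) :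
    val R dm x (rc y z) ↔ R (pt dm x y) (pt dm x z) := by
  have hz' : z / 2 < 32 := by omega
  unfold rc
  by_cases hy : y % 2 = 0
  · by_cases hz2 : z % 2 = 0
    · simp only [hy, hz2, if_true]
      rw [val_cd0 R dm x _ _ hz']
      simp [pt, hy, hz2]
    · have hz3 : z % 2 = 1 := by omega
      simp only [hy, hz3, if_true]
      rw [val_cd1 R dm x _ _ hz']
      simp only [pt, hy, hz3, if_true]
      constructor
      · intro e
        exact h.symm _ _ ((h.dom _ _).2 e.symm)
      · intro e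
        exact ((h.dom _ _).1 (h.symm _ _ e)).symm
  · have hy1 : y % 2 = 1 := by omega
    simp only [hy1]
    rw [if_neg (by norm_num)]
    rw [val_cd1 R dm x _ _ hz']
    by_cases hz2 : z % 2 = 0
    · simp only [pt, hy1, hz2, if_true]
      rw [if_neg (by norm_num)]
      exact (h.dom _ _).symm
    · have hz3 : z % 2 = 1 := by omega
      simp only [pt, hy1, hz3]
      rw [if_neg (by norm_num), if_neg (by norm_num)]
      rw [h.dom, h.dd]

theorem val_sw (h : Good R dm) (i j t : ℕ) (hi : i < 32) (hj : j < 32) (ht : t < 2) :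
    val R dm x (cd i j t) ↔ val R dm x (cd j i t) := by
  have : t = 0 ∨ t = 1 := by omega
  rcases this with rfl | rfl
  · rw [val_cd0 _ _ _ _ _ hi, val_cd0 _ _ _ _ _ hj]
    exact ⟨h.symm _ _, h.symm _ _⟩
  · rw [val_cd1 _ _ _ _ _ hi, val_cd1 _ _ _ _ _ hj]
    exact eq_comm

theorem testBit_or_pow (T a b c : ℕ) (h : (T ||| 2 ^ a ||| 2 ^ b).testBit c = true) :
    T.testBit c = true ∨ c = a ∨ c = b := by
  rw [Nat.testBit_or, Nat.testBit_or, Nat.testBit_two_pow, Nat.testBit_two_pow] at h
  simp only [Bool.or_eq_true, decide_eq_true_eq] at h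
  rcases h with (h | h) | h
  · exact Or.inl h
  · exact Or.inr (Or.inl h.symm)
  · exact Or.inr (Or.inr h.symm)

theorem check_sound (h : Good R dm) (X : ℕ)
    (hX : ∀ i j, j < 32 → X.testBit (cd i j 0) = true → ∀ w, R (x i) w → R w (x j) → False) :
    ∀ (t : Tree) (T F : ℕ), check X t T F = true →
      (∀ c, T.testBit c = true → val R dm x c) → (∀ c, F.testBit c = true → ¬ val R dm x c) →
      False := by
  intro t
  induction t with
  | p6 c =>
    intro T F hc hT hF
    simp only [check, isP6, Bool.and_eq_true] at hc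
    obtain ⟨h01, h12, h23, h34, h45, h02, h03, h04, h05, h13, h14, h15, h24, h25, h35⟩ := hc
    have key : ∀ y z : ℕ, z < 64 → T.testBit (rc y z) = true → R (pt dm x y) (pt dm x z) :=
      fun y z hz ht => (val_rc x h y z hz).1 (hT _ ht)
    have kef : ∀ y z : ℕ, z < 64 → F.testBit (rc y z) = true → ¬ R (pt dm x y) (pt dm x z) :=
      fun y z hz ht hh => (hF _ ht) ((val_rc x h y z hz).2 hh)
    have b1 : c / 64 % 64 < 64 := Nat.mod_lt _ (by norm_num)
    have b2 : c / 4096 % 64 < 64 := Nat.mod_lt _ (by norm_num)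
    have b3 : c / 262144 % 64 < 64 := Nat.mod_lt _ (by norm_num)
    have b4 : c / 16777216 % 64 < 64 := Nat.mod_lt _ (by norm_num)
    have b5 : c / 1073741824 % 64 < 64 := Nat.mod_lt _ (by norm_num)
    exact h.p6 _ _ _ _ _ _ (key _ _ b1 h01) (key _ _ b2 h12) (key _ _ b3 h23) (key _ _ b4 h34)
      (key _ _ b5 h45) (kef _ _ b2 h02) (kef _ _ b3 h03) (kef _ _ b4 h04) (kef _ _ b5 h05)
      (kef _ _ b3 h13) (kef _ _ b4 h14) (kef _ _ b5 h15) (kef _ _ b4 h24) (kef _ _ b5 h25)
      (kef _ _ b5 h35)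
  | tr i j k =>
    intro T F hc hT hF
    simp only [check, Bool.and_eq_true, decide_eq_true_eq] at hc
    obtain ⟨hj, hk, h1, h2, h3⟩ := hc
    have e1 := (val_cd1 R dm x i j hj).1 (hT _ h1)
    have e2 := (val_cd1 R dm x j k hk).1 (hT _ h2)
    exact hF _ h3 ((val_cd1 R dm x i k hk).2 (e1.trans e2))
  | far i j y =>
    intro T F hc hT hF
    simp only [check, Bool.and_eq_true, decide_eq_true_eq] at hc
    obtain ⟨hj, h1, h2, h3⟩ := hc
    have b : y % 64 < 64 := Nat.mod_lt _ (by norm_num)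
    have e1 := (val_rc x h _ _ b).1 (hT _ h2)
    have e2 := (val_rc x h _ _ (by omega)).1 (hT _ h3)
    have p1 : pt dm x (2 * i) = x i := by simp [pt]
    have p2 : pt dm x (2 * j) = x j := by simp [pt]
    rw [p1] at e1
    rw [p2] at e2
    exact hX i j hj h1 _ e1 e2
  | sp i j t a b iha ihb =>
    intro T F hc hT hF
    simp only [check, Bool.and_eq_true, decide_eq_true_eq] at hc
    obtain ⟨hi, hj, ht, h1, h2⟩ := hc
    by_cases hv : val R dm x (cd i j t)
    · refine iha _ _ h1 ?_ hF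
      intro c hcc
      rcases testBit_or_pow _ _ _ _ hcc with hcc | rfl | rfl
      · exact hT _ hcc
      · exact hv
      · exact (val_sw x h i j t hi hj ht).1 hv
    · refine ihb _ _ h2 hT ?_
      intro c hcc
      rcases testBit_or_pow _ _ _ _ hcc with hcc | rfl | rfl
      · exact hF _ hcc
      · exact hv
      · exact fun hh => hv ((val_sw x h i j t hi hj ht).2 hh)

end

/-- Masks from lists of atoms `(i, j, t)`, both orders. -/
def mk : List (ℕ × ℕ × ℕ) → ℕ
  | [] => 0
  | (i, j, t) :: L => mk L ||| 2 ^ (cd i j t) ||| 2 ^ (cd j i t)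

theorem testBit_mk (L : List (ℕ × ℕ × ℕ)) (c : ℕ) (h : (mk L).testBit c = true) :
    ∃ p ∈ L, c = cd p.1 p.2.1 p.2.2 ∨ c = cd p.2.1 p.1 p.2.2 := by
  induction L with
  | nil => simp [mk] at h
  | cons p L ih =>
    obtain ⟨i, j, t⟩ := p
    rcases testBit_or_pow _ _ _ _ h with h | h | h
    · obtain ⟨p, hp, hh⟩ := ih h
      exact ⟨p, List.mem_cons_of_mem _ hp, hh⟩
    · exact ⟨_, List.mem_cons_self, Or.inl h⟩
    · exact ⟨_, List.mem_cons_self, Or.inr h⟩

/-- The diagonal atoms, which always hold. -/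
def diag (n : ℕ) : List (ℕ × ℕ × ℕ) :=
  (List.range n).map (fun i => (i, i, 0)) ++ (List.range n).map (fun i => (i, i, 1))

/-- The meaning of a listed atom. -/
def holds {V : Type} (R : V → V → Prop) (dm : V → V) (x : ℕ → V) (p : ℕ × ℕ × ℕ) : Prop :=
  if p.2.2 = 0 then R (x p.1) (x p.2.1) else dm (x p.1) = dm (x p.2.1)

/-- The full check. -/
def checkAll (n : ℕ) (LX LT LF : List (ℕ × ℕ × ℕ)) (t : Tree) : Bool :=
  decide (n ≤ 32) &&
  (LX.all (fun p => decide (p.1 < 32) && (decide (p.2.1 < 32) && decide (p.2.2 = 0))) &&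
  (LT.all (fun p => decide (p.1 < 32) && (decide (p.2.1 < 32) && decide (p.2.2 < 2))) &&
  (LF.all (fun p => decide (p.1 < 32) && (decide (p.2.1 < 32) && decide (p.2.2 < 2))) &&
  check (mk LX) t (mk (diag n ++ LT)) (mk LF))))

theorem checkAll_sound {V : Type} {R : V → V → Prop} {dm : V → V} (h : Good R dm) (x : ℕ → V)
    (n : ℕ) (LX LT LF : List (ℕ × ℕ × ℕ)) (t : Tree) (hc : checkAll n LX LT LF t = true)
    (hX : ∀ p ∈ LX, ∀ w, R (x p.1) w → R w (x p.2.1) → False)
    (hT : ∀ p ∈ LT, holds R dm x p) (hF : ∀ p ∈ LF, ¬ holds R dm x p) : False := by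
  simp only [checkAll, Bool.and_eq_true, decide_eq_true_eq, List.all_eq_true] at hc
  obtain ⟨hn, cX, cT, cF, hc⟩ := hc
  have hv : ∀ p : ℕ × ℕ × ℕ, p.1 < 32 → p.2.1 < 32 → p.2.2 < 2 →
      (holds R dm x p ↔ val R dm x (cd p.1 p.2.1 p.2.2)) := by
    rintro ⟨i, j, t⟩ hi hj ht
    simp only at hi hj ht ⊢
    have : t = 0 ∨ t = 1 := by omega
    rcases this with rfl | rfl
    · rw [val_cd0 _ _ _ _ _ hj]; simp [holds]
    · rw [val_cd1 _ _ _ _ _ hj]; simp [holds]
  refine check_sound x h (mk LX) ?_ t _ _ hc ?_ ?_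
  · intro i j hj hb w h1 h2
    obtain ⟨p, hp, hh⟩ := testBit_mk _ _ hb
    have hp3 := cX p hp
    obtain ⟨a, b, c⟩ := p
    simp only at hh hp3
    obtain ⟨q1, q2, rfl⟩ := hp3
    rcases hh with hh | hh
    · have : i = a ∧ j = b := by unfold cd at hh; omega
      obtain ⟨rfl, rfl⟩ := this
      exact hX _ hp w h1 h2
    · have : i = b ∧ j = a := by unfold cd at hh; omega
      obtain ⟨rfl, rfl⟩ := this
      exact hX _ hp w (h.symm _ _ h2) (h.symm _ _ h1)
  · intro c hcc
    obtain ⟨p, hp, hh⟩ := testBit_mk _ _ hcc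
    rw [List.mem_append] at hp
    rcases hp with hp | hp
    · simp only [diag, List.mem_append, List.mem_map, List.mem_range] at hp
      rcases hp with ⟨i, hi, rfl⟩ | ⟨i, hi, rfl⟩
      · have : c = cd i i 0 := by simpa using hh
        rw [this, val_cd0 _ _ _ _ _ (by omega)]
        exact h.refl _
      · have : c = cd i i 1 := by simpa using hh
        rw [this, val_cd1 _ _ _ _ _ (by omega)]
    · have hp3 := cT p hp
      have := (hv p hp3.1 hp3.2.1 hp3.2.2).1 (hT p hp)
      rcases hh with rfl | rfl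
      · exact this
      · exact (val_sw x h _ _ _ hp3.1 hp3.2.1 hp3.2.2).1 this
  · intro c hcc
    obtain ⟨p, hp, hh⟩ := testBit_mk _ _ hcc
    have hp3 := cF p hp
    have := fun hh => hF p hp ((hv p hp3.1 hp3.2.1 hp3.2.2).2 hh)
    rcases hh with rfl | rfl
    · exact this
    · exact fun hh => this ((val_sw x h _ _ _ hp3.1 hp3.2.1 hp3.2.2).2 hh)

end Pool.Agent.P6ED
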