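import Pool.Agent.P6ED.Lem

set_option autoImplicit false

namespace Pool.Agent.P6ED

/-- Refutation trees for cyclic sequences: leaves are transitivity violations or
applications of local configurations. -/
inductive CT : Type
  | tr (i j l : ℕ) : CT
  | app (n : ℕ) (us : List ℕ) : CT
  | sp (i j : ℕ) (a b : CT) : CT

/-- Consecutive positions on the cycle of length `k`. -/
def adjc (k a b : ℕ) : Bool := decide ((a + 1) % k = b) || decide ((b + 1) % k = a)

/-- The code of a pair. -/
def c2 (i j : ℕ) : ℕ := i * 32 + j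

/-- The checker for one application of a configuration. -/
def appOK (k : ℕ) (L : Lem) (us : List ℕ) (T F : ℕ) : Bool :=
  (us.all (fun i => decide (i < k))) &&
  ((L.X.all (fun p => adjc k (us.getD p.1 0) (us.getD p.2 0))) &&
  ((L.A.all (fun p => decide (us.getD p.1 0 ≠ us.getD p.2 0) &&
      !(adjc k (us.getD p.1 0) (us.getD p.2 0)))) &&
  ((L.T.all (fun p => T.testBit (c2 (us.getD p.1 0) (us.getD p.2 0)))) &&
  (L.F.all (fun p => F.testBit (c2 (us.getD p.1 0) (us.getD p.2 0)))))))

/-- The checker. -/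
def cchk (k : ℕ) (Ls : List Lem) : CT → ℕ → ℕ → Bool
  | CT.tr i j l, T, F => decide (j < 32) && (decide (l < 32) &&
      (T.testBit (c2 i j) && (T.testBit (c2 j l) && F.testBit (c2 i l))))
  | CT.app n us, T, F => match Ls[n]? with
      | none => false
      | some L => appOK k L us T F
  | CT.sp i j a b, T, F => decide (i < 32) && (decide (j < 32) &&
      (cchk k Ls a (T ||| 2 ^ (c2 i j) ||| 2 ^ (c2 j i)) F &&
       cchk k Ls b T (F ||| 2 ^ (c2 i j) ||| 2 ^ (c2 j i))))

section
variable {V : Type} (dm : V → V) (v : ℕ → V)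

/-- The meaning of a pair code. -/
def val2 (c : ℕ) : Prop := dm (v (c / 32)) = dm (v (c % 32))

theorem val2_c2 (i j : ℕ) (hj : j < 32) : val2 dm v (c2 i j) ↔ dm (v i) = dm (v j) := by
  have h2 : c2 i j / 32 = i := by unfold c2; omega
  have h3 : c2 i j % 32 = j := by unfold c2; omega
  simp [val2, h2, h3]

theorem cchk_sound (R : V → V → Prop) (h : Good R dm) (k : ℕ) (hk0 : 0 < k) (hk : k ≤ 32)
    (Ls : List Lem) (hL : ∀ L ∈ Ls, L.Valid)
    (hadj : ∀ a b, a < k → b < k → adjc k a b = true → ¬ R2 R (v a) (v b))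
    (hfar : ∀ a b, a < k → b < k → a ≠ b → adjc k a b = false → R2 R (v a) (v b)) :
    ∀ (t : CT) (T F : ℕ), cchk k Ls t T F = true →
      (∀ c, T.testBit c = true → val2 dm v c) → (∀ c, F.testBit c = true → ¬ val2 dm v c) →
      False := by
  intro t
  induction t with
  | tr i j l =>
    intro T F hc hT hF
    simp only [cchk, Bool.and_eq_true, decide_eq_true_eq] at hc
    obtain ⟨hj, hl, h1, h2, h3⟩ := hc
    have e1 := (val2_c2 dm v i j hj).1 (hT _ h1)
    have e2 := (val2_c2 dm v j l hl).1 (hT _ h2)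
    exact hF _ h3 ((val2_c2 dm v i l hl).2 (e1.trans e2))
  | app n us =>
    intro T F hc hT hF
    simp only [cchk] at hc
    cases hn : Ls[n]? with
    | none => rw [hn] at hc; exact absurd hc (by simp)
    | some L =>
      rw [hn] at hc
      simp only [appOK, Bool.and_eq_true, List.all_eq_true, decide_eq_true_eq] at hc
      obtain ⟨hus, hX, hA, hTT, hFF⟩ := hc
      have hLv : L.Valid := hL L (List.mem_of_getElem? hn)
      have hlt : ∀ q, us.getD q 0 < k := by
        intro q
        by_cases hq : q < us.length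
        · have : us.getD q 0 = us[q] := by simp [hq]
          rw [this]
          exact hus _ (List.getElem_mem hq)
        · have : us.getD q 0 = 0 := by
            simp only [List.getD_eq_getElem?_getD]
            rw [List.getElem?_eq_none (by omega)]
            rfl
          omega
      refine hLv V R dm h (fun q => v (us.getD q 0)) ?_ ?_ ?_ ?_
      · intro p hp
        exact hadj _ _ (hlt _) (hlt _) (hX p hp)
      · intro p hp
        have := hA p hp
        exact hfar _ _ (hlt _) (hlt _) this.1 (by simpa using this.2)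
      · intro p hp
        have := hTT p hp
        exact (val2_c2 dm v _ _ (lt_of_lt_of_le (hlt _) hk)).1 (hT _ this)
      · intro p hp hh
        have := hFF p hp
        exact hF _ this ((val2_c2 dm v _ _ (lt_of_lt_of_le (hlt _) hk)).2 hh)
  | sp i j a b iha ihb =>
    intro T F hc hT hF
    simp only [cchk, Bool.and_eq_true, decide_eq_true_eq] at hc
    obtain ⟨hi, hj, h1, h2⟩ := hc
    by_cases hv : val2 dm v (c2 i j)
    · refine iha _ _ h1 ?_ hF
      intro c hcc
      rcases testBit_or_pow _ _ _ _ hcc with hcc | rfl | rfl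
      · exact hT _ hcc
      · exact hv
      · exact (val2_c2 dm v j i hi).2 (((val2_c2 dm v i j hj).1 hv).symm)
    · refine ihb _ _ h2 hT ?_
      intro c hcc
      rcases testBit_or_pow _ _ _ _ hcc with hcc | rfl | rfl
      · exact hF _ hcc
      · exact hv
      · exact fun hh => hv ((val2_c2 dm v i j hj).2 (((val2_c2 dm v j i hi).1 hh).symm))

end

/-- The mask of the consecutive pairs. -/
def consMask (k : ℕ) : ℕ :=
  (List.range k).foldl (fun m i => m ||| 2 ^ (c2 i ((i + 1) % k)) ||| 2 ^ (c2 ((i + 1) % k) i)) 0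

theorem testBit_consMask_aux (k : ℕ) (L : List ℕ) (m c : ℕ)
    (h : (L.foldl (fun m i => m ||| 2 ^ (c2 i ((i + 1) % k)) ||| 2 ^ (c2 ((i + 1) % k) i))
      m).testBit c = true) :
    m.testBit c = true ∨ ∃ i ∈ L, c = c2 i ((i + 1) % k) ∨ c = c2 ((i + 1) % k) i := by
  induction L generalizing m with
  | nil => exact Or.inl h
  | cons i L ih =>
    simp only [List.foldl_cons] at h
    rcases ih _ h with h | ⟨j, hj, hh⟩
    · rcases testBit_or_pow _ _ _ _ h with h | h | h
      · exact Or.inl h
      · exact Or.inr ⟨i, List.mem_cons_self, Or.inl h⟩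
      · exact Or.inr ⟨i, List.mem_cons_self, Or.inr h⟩
    · exact Or.inr ⟨j, List.mem_cons_of_mem _ hj, hh⟩

theorem dm_ne_of_not_R2 {V : Type} {R : V → V → Prop} {dm : V → V} (h : Good R dm) {a b : V}
    (hab : ¬ R2 R a b) : dm a ≠ dm b := by
  intro e
  exact hab ⟨dm a, h.symm _ _ ((h.dom a a).2 rfl), (h.dom a b).2 e⟩

theorem cyc_false (k : ℕ) (Ls : List Lem) (t : CT) (hL : ∀ L ∈ Ls, L.Valid)
    (hc : (decide (0 < k) && (decide (k ≤ 32) && cchk k Ls t 0 (consMask k))) = true)
    (V : Type) (R : V → V → Prop) (dm : V → V) (h : Good R dm) (v : ℕ → V)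
    (hadj : ∀ a b, a < k → b < k → adjc k a b = true → ¬ R2 R (v a) (v b))
    (hfar : ∀ a b, a < k → b < k → a ≠ b → adjc k a b = false → R2 R (v a) (v b)) :
    False := by
  simp only [Bool.and_eq_true, decide_eq_true_eq] at hc
  obtain ⟨hk0, hk, hc⟩ := hc
  refine cchk_sound dm v R h k hk0 hk Ls hL hadj hfar t _ _ hc ?_ ?_
  · intro c hcc
    simp at hcc
  · intro c hcc
    rcases testBit_consMask_aux _ _ _ _ hcc with hcc | ⟨i, hi, hh⟩
    · simp at hcc
    · rw [List.mem_range] at hi
      have hi' : (i + 1) % k < k := Nat.mod_lt _ hk0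
      have hne : dm (v i) ≠ dm (v ((i + 1) % k)) :=
        dm_ne_of_not_R2 h (hadj _ _ hi hi' (by simp [adjc]))
      rcases hh with rfl | rfl
      · rw [val2_c2 _ _ _ _ (lt_of_lt_of_le hi' hk)]
        exact hne
      · rw [val2_c2 _ _ _ _ (lt_of_lt_of_le hi hk)]
        exact hne.symm

end Pool.Agent.P6ED
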