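import Pool.Agent.P6ED.Lem
import Pool.Agent.P6ED.LA
import Pool.Agent.P6ED.LB
import Pool.Agent.P6ED.LC

set_option autoImplicit false

namespace Pool.Agent.P6ED

theorem Good.R2symm {V : Type} {R : V → V → Prop} {dm : V → V} (h : Good R dm) {a b : V}
    (hab : R2 R a b) : R2 R b a := by
  obtain ⟨w, h1, h2⟩ := hab
  exact ⟨w, h.symm _ _ h2, h.symm _ _ h1⟩

/-- A cyclic sequence of length `k`: consecutive members are far apart, other pairs are close. -/
structure AH {V : Type} (R : V → V → Prop) (k : ℤ) (v : ℤ → V) : Prop where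
  per : ∀ i, v (i + k) = v i
  non : ∀ i, ¬ R2 R (v i) (v (i + 1))
  far : ∀ i j, 2 ≤ j - i → j - i ≤ k - 2 → R2 R (v i) (v j)

section
variable {V : Type} {R : V → V → Prop} {dm : V → V} (h : Good R dm) {k : ℤ} {v : ℤ → V}

theorem AH.shift (H : AH R k v) (s : ℤ) : AH R k (fun i => v (s + i)) where
  per := fun i => by
    have := H.per (s + i)
    simpa [add_assoc] using this
  non := fun i => by
    have := H.non (s + i)
    simpa [add_assoc] using this
  far := fun i j h1 h2 => H.far _ _ (by omega) (by omega)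

include h in
theorem AH.refl (H : AH R k v) (s : ℤ) : AH R k (fun i => v (s - i)) where
  per := fun i => by
    have := H.per (s - (i + k))
    rw [show s - (i + k) + k = s - i by ring] at this
    exact this.symm
  non := fun i hh => by
    have := H.non (s - (i + 1))
    rw [show s - (i + 1) + 1 = s - i by ring] at this
    exact this (h.R2symm hh)
  far := fun i j h1 h2 => h.R2symm (H.far _ _ (by omega) (by omega))

include h in
theorem cons_ne (H : AH R k v) (i : ℤ) : dm (v i) ≠ dm (v (i + 1)) := by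
  intro e
  exact H.non i ⟨dm (v i), h.symm _ _ ((h.dom _ _).2 rfl), (h.dom _ _).2 e⟩

include h in
theorem factA (H : AH R k v) (i j : ℤ) (h1 : i + 3 ≤ j) (h2 : j ≤ i + k - 3) :
    dm (v i) = dm (v j) ∨ dm (v j) = dm (v (i + 1)) ∨ dm (v (i + 1)) = dm (v (j + 1)) ∨
      dm (v i) = dm (v (j + 1)) := by
  by_contra hcon
  push Not at hcon
  obtain ⟨c1, c2, c3, c4⟩ := hcon
  have := validLA V R dm h (fun n => if n = 0 then v i else if n = 1 then v j else
    if n = 2 then v (i + 1) else v (j + 1))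
  simp [lemLA] at this
  exact c4 (this (H.non i) (H.non j) (H.far _ _ (by omega) (by omega))
    (h.R2symm (H.far _ _ (by omega) (by omega))) (H.far _ _ (by omega) (by omega))
    (H.far _ _ (by omega) (by omega)) c1 c2 c3)

/-- The unordered pair of dominators at `i, i+1` is `{p, q}`. -/
def Pr (dm : V → V) (v : ℤ → V) (i : ℤ) (p q : V) : Prop :=
  (dm (v i) = p ∧ dm (v (i + 1)) = q) ∨ (dm (v i) = q ∧ dm (v (i + 1)) = p)

include h in
theorem factB0 (H : AH R k v) (i j l a b d a' b' d' : ℤ) (h1 : i + 3 ≤ j) (h2 : j + 3 ≤ l)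
    (h3 : l ≤ i + k - 3)
    (ha : (a = i ∧ a' = i + 1) ∨ (a = i + 1 ∧ a' = i))
    (hb : (b = j ∧ b' = j + 1) ∨ (b = j + 1 ∧ b' = j))
    (hd : (d = l ∧ d' = l + 1) ∨ (d = l + 1 ∧ d' = l))
    (e1 : dm (v a') = dm (v b)) (e2 : dm (v b') = dm (v d)) (e3 : dm (v a) = dm (v d')) :
    False := by
  have hX : ∀ i a a' : ℤ, ((a = i ∧ a' = i + 1) ∨ (a = i + 1 ∧ a' = i)) →
      ¬ R2 R (v a) (v a') := by
    rintro i a a' (⟨rfl, rfl⟩ | ⟨rfl, rfl⟩)
    · exact H.non _
    · exact fun hh => H.non _ (h.R2symm hh)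
  have f : ∀ p q : ℤ, 2 ≤ q - p → q - p ≤ k - 2 → R2 R (v p) (v q) := H.far
  have := validLB V R dm h (fun n => if n = 0 then v a else if n = 1 then v a' else
    if n = 2 then v b else if n = 3 then v b' else if n = 4 then v d' else v d)
  simp only [lemLB, List.mem_cons, List.not_mem_nil, or_false, forall_eq_or_imp, forall_eq,
    false_imp_iff, implies_true] at this
  norm_num at this
  refine this (hX _ _ _ ha) (hX _ _ _ hb) (fun hh => hX _ _ _ hd (h.R2symm hh))
    ?_ ?_ ?_ ?_ ?_ ?_ ?_ ?_ ?_ e3 e1 e2 <;>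
  · apply f <;> omega

include h in
theorem factB (H : AH R k v) (i j l : ℤ) (p q r : V) (h1 : i + 3 ≤ j) (h2 : j + 3 ≤ l)
    (h3 : l ≤ i + k - 3) (hi : Pr dm v i p q) (hj : Pr dm v j q r) (hl : Pr dm v l r p) :
    False := by
  rcases hi with ⟨i1, i2⟩ | ⟨i1, i2⟩ <;> rcases hj with ⟨j1, j2⟩ | ⟨j1, j2⟩ <;>
    rcases hl with ⟨l1, l2⟩ | ⟨l1, l2⟩
  · exact factB0 h H i j l i j l (i + 1) (j + 1) (l + 1) h1 h2 h3 (by simp) (by simp) (by simp)
      (by rw [i2, j1]) (by rw [j2, l1]) (by rw [i1, l2])
  · exact factB0 h H i j l i j (l + 1) (i + 1) (j + 1) l h1 h2 h3 (by simp) (by simp) (by simp)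
      (by rw [i2, j1]) (by rw [j2, l2]) (by rw [i1, l1])
  · exact factB0 h H i j l i (j + 1) l (i + 1) j (l + 1) h1 h2 h3 (by simp) (by simp) (by simp)
      (by rw [i2, j2]) (by rw [j1, l1]) (by rw [i1, l2])
  · exact factB0 h H i j l i (j + 1) (l + 1) (i + 1) j l h1 h2 h3 (by simp) (by simp) (by simp)
      (by rw [i2, j2]) (by rw [j1, l2]) (by rw [i1, l1])
  · exact factB0 h H i j l (i + 1) j l i (j + 1) (l + 1) h1 h2 h3 (by simp) (by simp) (by simp)
      (by rw [i1, j1]) (by rw [j2, l1]) (by rw [i2, l2])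
  · exact factB0 h H i j l (i + 1) j (l + 1) i (j + 1) l h1 h2 h3 (by simp) (by simp) (by simp)
      (by rw [i1, j1]) (by rw [j2, l2]) (by rw [i2, l1])
  · exact factB0 h H i j l (i + 1) (j + 1) l i j (l + 1) h1 h2 h3 (by simp) (by simp) (by simp)
      (by rw [i1, j2]) (by rw [j1, l1]) (by rw [i2, l2])
  · exact factB0 h H i j l (i + 1) (j + 1) (l + 1) i j l h1 h2 h3 (by simp) (by simp) (by simp)
      (by rw [i1, j2]) (by rw [j1, l2]) (by rw [i2, l1])

omit R k h in
theorem Pr.symm {i : ℤ} {p q : V} (hh : Pr dm v i p q) : Pr dm v i q p := Or.symm hh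

include h in
/-- Window lemma: the pattern `a b a e b a b` does not occur. -/
theorem factC (H : AH R k v) (hk : 8 ≤ k) (s : ℤ) (e1 : dm (v s) = dm (v (s + 2)))
    (e2 : dm (v (s + 2)) = dm (v (s + 5))) (e3 : dm (v (s + 1)) = dm (v (s + 4)))
    (e4 : dm (v (s + 4)) = dm (v (s + 6))) : False := by
  have hX : ∀ q : ℤ, ¬ R2 R (v (s + q)) (v (s + (q + 1))) := by
    intro q
    have := H.non (s + q)
    rwa [add_assoc] at this
  have f : ∀ p q : ℤ, 2 ≤ q - p → q - p ≤ 6 → R2 R (v (s + p)) (v (s + q)) :=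
    fun p q h1 h2 => H.far _ _ (by omega) (by omega)
  have := validLC V R dm h (fun n => v (s + n))
  simp only [lemLC, List.mem_cons, List.not_mem_nil, or_false, forall_eq_or_imp, forall_eq,
    false_imp_iff, implies_true] at this
  norm_num at this
  refine this ?_ ?_ ?_ ?_ ?_ ?_ ?_ ?_ ?_ ?_ ?_ ?_ ?_ ?_ ?_ ?_ ?_ ?_ ?_
  all_goals first
    | assumption
    | (have := hX 0; simpa using this)
    | (have := hX 1; norm_num at this; exact this)
    | (have := hX 2; norm_num at this; exact this)
    | (have := hX 3; norm_num at this; exact this)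
    | (have := hX 4; norm_num at this; exact this)
    | (have := hX 5; norm_num at this; exact this)
    | (have := f 0 3; norm_num at this; exact this)
    | (have := f 0 4; norm_num at this; exact this)
    | (have := f 0 6; norm_num at this; exact this)
    | (apply f <;> norm_num)

include h in
theorem case1_key (H : AH R k v) (h02 : dm (v 0) ≠ dm (v 2)) (i i' : ℤ)
    (hi1 : 4 ≤ i) (hi2 : i ≤ k - 3) (hj1 : 4 ≤ i') (hj2 : i' ≤ k - 3)
    (hfar : i + 3 ≤ i' ∨ i' + 3 ≤ i)
    (hP : Pr dm v i (dm (v 0)) (dm (v 2))) : Pr dm v i' (dm (v 0)) (dm (v 2)) := by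
  have h01 := cons_ne h H 0
  have h12 := cons_ne h H 1
  have hxy := cons_ne h H i'
  have A1 := factA h H 0 i' (by omega) (by omega)
  have A2 := factA h H 1 i' (by omega) (by omega)
  norm_num at h01 h12 A1 A2
  have A3 : dm (v i) = dm (v i') ∨ dm (v i') = dm (v (i + 1)) ∨
      dm (v (i + 1)) = dm (v (i' + 1)) ∨ dm (v i) = dm (v (i' + 1)) := by
    rcases hfar with hh | hh
    · exact factA h H i i' (by omega) (by omega)
    · have := factA h H i' i (by omega) (by omega)
      grind
  have n1 : ¬ Pr dm v i' (dm (v 1)) (dm (v 2)) := by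
    intro hh
    have P0 : Pr dm v 0 (dm (v 0)) (dm (v 1)) := Or.inl ⟨rfl, by norm_num⟩
    rcases hfar with hf | hf
    · exact factB h H 0 i i' _ _ _ (by omega) (by omega) (by omega) P0.symm hP hh.symm
    · exact factB h H 0 i' i _ _ _ (by omega) (by omega) (by omega) P0 hh hP.symm
  have n2 : ¬ Pr dm v i' (dm (v 1)) (dm (v 0)) := by
    intro hh
    have P1 : Pr dm v 1 (dm (v 1)) (dm (v 2)) := Or.inl ⟨rfl, by norm_num⟩
    rcases hfar with hf | hf
    · exact factB h H 1 i i' _ _ _ (by omega) (by omega) (by omega) P1 hP.symm hh.symm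
    · exact factB h H 1 i' i _ _ _ (by omega) (by omega) (by omega) P1.symm hh hP
  unfold Pr at *
  grind

include h in
theorem case1 (H : AH R k v) (hk : 13 ≤ k) (hodd : k % 2 = 1)
    (h02 : dm (v 0) ≠ dm (v 2)) (i : ℤ) (hi1 : 4 ≤ i) (hi2 : i ≤ k - 3)
    (hP : Pr dm v i (dm (v 0)) (dm (v 2))) : False := by
  have h01 := cons_ne h H 0
  have h12 := cons_ne h H 1
  norm_num at h01 h12
  have key := case1_key h H h02
  have hboth : Pr dm v 4 (dm (v 0)) (dm (v 2)) ∧ Pr dm v (k - 3) (dm (v 0)) (dm (v 2)) := by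
    by_cases hi : 7 ≤ i
    · have p4 := key i 4 hi1 hi2 (by omega) (by omega) (by omega) hP
      exact ⟨p4, key 4 (k - 3) (by omega) (by omega) (by omega) (by omega) (by omega) p4⟩
    · have p4 := key i (k - 3) hi1 hi2 (by omega) (by omega) (by omega) hP
      exact ⟨key (k - 3) 4 (by omega) (by omega) (by omega) (by omega) (by omega) p4, p4⟩
  have all : ∀ i', 4 ≤ i' → i' ≤ k - 3 → Pr dm v i' (dm (v 0)) (dm (v 2)) := by
    intro i' h1 h2
    by_cases hi : 7 ≤ i'
    · exact key 4 i' (by omega) (by omega) h1 h2 (by omega) hboth.1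
    · exact key (k - 3) i' (by omega) (by omega) h1 h2 (by omega) hboth.2
  have alt : ∀ n : ℕ, 4 + 2 * (n : ℤ) ≤ k - 3 → dm (v (4 + 2 * (n : ℤ))) = dm (v 4) := by
    intro n
    induction n with
    | zero => intro _; norm_num
    | succ n ih =>
      intro hn
      push_cast at hn ⊢
      have ih' := ih (by omega)
      have q1 := all (4 + 2 * (n : ℤ)) (by omega) (by omega)
      have q2 := all (4 + 2 * (n : ℤ) + 1) (by omega) (by omega)
      have e : 4 + 2 * ((n : ℤ) + 1) = 4 + 2 * (n : ℤ) + 1 + 1 := by ring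
      rw [e, ← ih']
      unfold Pr at q1 q2
      grind
  obtain ⟨n, hn⟩ : ∃ n : ℕ, k - 3 = 4 + 2 * (n : ℤ) := ⟨((k - 7) / 2).toNat, by omega⟩
  have hk3 : dm (v (k - 3)) = dm (v 4) := by
    rw [hn]
    exact alt n (by omega)
  have pk3 := all (k - 3) (by omega) (by omega)
  have p4 := all 4 (by omega) (by omega)
  have hk2e : k - 3 + 1 = k - 2 := by ring
  have hk1e : k - 2 + 1 = k - 1 := by ring
  have hk0e : k - 1 + 1 = k := by ring
  have per0 : v k = v 0 := by
    have := H.per 0
    simpa using this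
  have per1 : v (k - 1) = v (-1) := by
    have := H.per (-1)
    rw [← this]
    congr 1
    ring
  have per2 : v (k - 2) = v (-2) := by
    have := H.per (-2)
    rw [← this]
    congr 1
    ring
  have c34 := cons_ne h H 3
  have c23 := cons_ne h H 2
  have ck2 := cons_ne h H (k - 2)
  have ck1 := cons_ne h H (k - 1)
  rw [hk1e] at ck2
  rw [hk0e, per0] at ck1
  norm_num at c34 c23
  have p4' := p4
  unfold Pr at p4'
  rcases p4' with ⟨q4, q5⟩ | ⟨q4, q5⟩
  · -- `c 4 = a`
    have qk2 : dm (v (k - 2)) = dm (v 2) := by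
      unfold Pr at pk3
      rw [hk2e] at pk3
      grind
    have A := factA h H 2 (k - 1) (by omega) (by omega)
    rw [hk0e, per0] at A
    norm_num at A
    have hgf : dm (v (k - 1)) = dm (v 3) := by grind
    refine factB h H 2 5 (k - 1) (dm (v 3)) (dm (v 2)) (dm (v 0)) (by omega) (by omega) (by omega)
      (Or.inr ⟨rfl, by norm_num⟩) (all 5 (by omega) (by omega)).symm (Or.inr ⟨hgf, ?_⟩)
    rw [hk0e, per0]
  · -- `c 4 = b`
    have qk2 : dm (v (k - 2)) = dm (v 0) := by
      unfold Pr at pk3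
      rw [hk2e] at pk3
      grind
    have A := factA h H 0 3 (by omega) (by omega)
    norm_num at A
    have hf : dm (v 3) = dm (v 0) := by
      by_contra hne
      have he : dm (v 3) = dm (v 1) := by grind
      exact factB h H 0 3 6 (dm (v 0)) (dm (v 1)) (dm (v 2)) (by omega) (by omega) (by omega)
        (Or.inl ⟨rfl, by norm_num⟩) (Or.inl ⟨he, by norm_num; exact q4⟩)
        (all 6 (by omega) (by omega)).symm
    have A' := factA h H 1 (k - 2) (by omega) (by omega)
    rw [hk1e] at A'
    norm_num at A'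
    have hg : dm (v (k - 1)) = dm (v 2) := by
      by_contra hne
      have he : dm (v (k - 1)) = dm (v 1) := by grind
      exact factB h H 1 4 (k - 2) (dm (v 1)) (dm (v 2)) (dm (v 0)) (by omega) (by omega) (by omega)
        (Or.inl ⟨rfl, by norm_num⟩) p4.symm (Or.inl ⟨qk2, by rw [hk1e]; exact he⟩)
    rw [per2] at qk2
    rw [per1] at hg
    refine factC h H (by omega) (-2) ?_ ?_ ?_ ?_
    · norm_num; exact qk2
    · norm_num; exact hf.symm
    · norm_num; exact hg
    · norm_num; exact q4.symm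

include h in
theorem case2 (H : AH R k v) (hk : 9 ≤ k)
    (h2 : ∀ j i, dm (v j) ≠ dm (v (j + 2)) → j + 4 ≤ i → i ≤ j + k - 3 →
      dm (v i) = dm (v (j + 1)) ∨ dm (v (i + 1)) = dm (v (j + 1)))
    (h02 : dm (v 0) ≠ dm (v 2)) (h41 : dm (v 4) = dm (v 1)) : False := by
  have c12 := cons_ne h H 1
  have c23 := cons_ne h H 2
  have c34 := cons_ne h H 3
  norm_num at c12 c23 c34
  have a1 := h2 1 6 (by norm_num; grind) (by omega) (by omega)
  have a2 := h2 2 6 (by norm_num; grind) (by omega) (by omega)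
  have a0 := h2 0 6 (by norm_num; grind) (by omega) (by omega)
  norm_num at a0 a1 a2
  grind

include h in
theorem case2main (H : AH R k v) (hk : 9 ≤ k) (hodd : k % 2 = 1)
    (h2 : ∀ j i, dm (v j) ≠ dm (v (j + 2)) → j + 4 ≤ i → i ≤ j + k - 3 →
      dm (v i) = dm (v (j + 1)) ∨ dm (v (i + 1)) = dm (v (j + 1)))
    (h02 : dm (v 0) ≠ dm (v 2)) : False := by
  by_cases h41 : dm (v 4) = dm (v 1)
  · exact case2 h H hk h2 h02 h41
  · have hz : ∀ i, 4 ≤ i → i ≤ k - 3 → dm (v i) = dm (v 1) ∨ dm (v (i + 1)) = dm (v 1) := by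
      intro i h1 h3
      have := h2 0 i (by norm_num; exact h02) (by omega) (by omega)
      simpa using this
    have odd : ∀ n : ℕ, 5 + 2 * (n : ℤ) ≤ k - 2 → dm (v (5 + 2 * (n : ℤ))) = dm (v 1) := by
      intro n
      induction n with
      | zero =>
        intro _
        have := hz 4 (by omega) (by omega)
        norm_num at this ⊢
        tauto
      | succ n ih =>
        intro hn
        push_cast at hn ⊢
        have ih' := ih (by omega)
        have := hz (5 + 2 * (n : ℤ) + 1) (by omega) (by omega)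
        have c := cons_ne h H (5 + 2 * (n : ℤ))
        have e : 5 + 2 * ((n : ℤ) + 1) = 5 + 2 * (n : ℤ) + 1 + 1 := by ring
        rw [e]
        grind
    obtain ⟨n, hn⟩ : ∃ n : ℕ, k - 2 = 5 + 2 * (n : ℤ) := ⟨((k - 7) / 2).toNat, by omega⟩
    have hk2 : dm (v (k - 2)) = dm (v 1) := by
      rw [hn]
      exact odd n (by omega)
    have per2 : v (k - 2) = v (-2) := by
      have := H.per (-2)
      rw [← this]
      congr 1
      ring
    have Hr := H.refl h 2
    refine case2 h Hr hk ?_ ?_ ?_
    · intro j i hne h1 h3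
      have := h2 (-j) (k + 1 - i) (by
        intro hh
        apply hne
        rw [show 2 - (j + 2) = -j by ring, show 2 - j = -j + 2 by ring]
        exact hh.symm) (by omega) (by omega)
      have e1 : v (k + 1 - i) = v (2 - (i + 1)) := by
        rw [← H.per (2 - (i + 1))]
        congr 1
        ring
      have e2 : v (k + 1 - i + 1) = v (2 - i) := by
        rw [← H.per (2 - i)]
        congr 1
        ring
      have e3 : v (-j + 1) = v (2 - (j + 1)) := by
        congr 1
        ring
      rw [e1, e2, e3] at this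
      exact this.symm
    · norm_num
      exact h02.symm
    · norm_num
      rw [← per2]
      exact hk2

include h in
theorem AH_false (H : AH R k v) (hk : 13 ≤ k) (hodd : k % 2 = 1) : False := by
  by_cases hc : ∃ j i, dm (v j) ≠ dm (v (j + 2)) ∧ j + 4 ≤ i ∧ i ≤ j + k - 3 ∧
      dm (v i) ≠ dm (v (j + 1)) ∧ dm (v (i + 1)) ≠ dm (v (j + 1))
  · obtain ⟨j, i, hne, h1, h3, n1, n2⟩ := hc
    have A1 := factA h H j i (by omega) (by omega)
    have A2 := factA h H (j + 1) i (by omega) (by omega)
    have hxy := cons_ne h H i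
    have hc1 := cons_ne h H j
    have hc2 := cons_ne h H (j + 1)
    rw [show j + 1 + 1 = j + 2 by ring] at A2 hc2
    refine case1 h (H.shift j) hk hodd ?_ (i - j) (by omega) (by omega) ?_
    · norm_num
      exact hne
    · unfold Pr
      simp only
      rw [show j + (i - j) = i by ring, show j + (i - j + 1) = i + 1 by ring,
        show j + (0 : ℤ) = j by ring]
      grind
  · push Not at hc
    have hex : ∃ j, dm (v j) ≠ dm (v (j + 2)) := by
      by_contra hcon
      push Not at hcon
      have hall : ∀ n : ℕ, dm (v (1 + 2 * (n : ℤ))) = dm (v 1) := by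
        intro n
        induction n with
        | zero => norm_num
        | succ n ih =>
          push_cast
          rw [← ih, show 1 + 2 * ((n : ℤ) + 1) = 1 + 2 * (n : ℤ) + 2 by ring]
          exact (hcon _).symm
      obtain ⟨n, hn⟩ : ∃ n : ℕ, k = 1 + 2 * (n : ℤ) := ⟨((k - 1) / 2).toNat, by omega⟩
      have h1 := hall n
      rw [← hn] at h1
      have per0 : v k = v 0 := by
        have := H.per 0
        simpa using this
      have h01 := cons_ne h H 0
      norm_num at h01
      rw [per0] at h1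
      exact h01 h1
    obtain ⟨j, hj⟩ := hex
    refine case2main h (H.shift j) (by omega) hodd ?_ ?_
    · intro j' i hne h1 h3
      beta_reduce at hne ⊢
      by_cases hh : dm (v (j + i)) = dm (v (j + (j' + 1)))
      · exact Or.inl hh
      · right
        have := hc (j + j') (j + i) (by rw [add_assoc]; exact hne) (by omega) (by omega)
          (by rw [add_assoc]; exact hh)
        rw [add_assoc, add_assoc] at this
        exact this
    · norm_num
      exact hj

end

end Pool.Agent.P6ED
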