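import Pool.Agent.P6ED.Lem

set_option autoImplicit false
set_option maxRecDepth 100000

namespace Pool.Agent.P6ED

/-- The square contains no 5-cycle without chords. -/
def lemK5 : Lem :=
  { m := 5
    X := [(0, 1), (1, 2), (2, 3), (3, 4), (0, 4)]
    A := [(0, 2), (0, 3), (1, 3), (1, 4), (2, 4)]
    T := []
    F := [] }

/-- The refutation tree (1196 leaves). -/
def treeK5 : Tree := .sp 2 7 0 (.far 1 2 14) (.sp 0 7 0 (.far 0 1 14) (.sp 0 1 1 (.far 0 1 1) (.sp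
  3 4 0 (.far 3 4 6) (.sp 3 5 0 (.far 2 3 10) (.sp 1 5 0 (.far 1 2 10) (.sp 0 4 1 (.far 0 4 1)
  (.sp 4 5 0 (.far 0 4 10) (.sp 3 8 0 (.far 3 4 16) (.sp 0 8 0 (.far 0 4 16) (.sp 1 2 0 (.far 1 2
  2) (.sp 3 9 0 (.far 2 3 18) (.sp 1 9 0 (.far 1 2 18) (.sp 4 7 0 (.far 3 4 14) (.sp 1 2 1 (.far 1
  2 3) (.sp 0 1 0 (.far 0 1 0) (.sp 4 6 0 (.far 0 4 12) (.sp 1 6 0 (.far 0 1 12) (.sp 0 9 0 (.far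
  0 4 18) (.sp 3 4 1 (.far 3 4 7) (.sp 2 8 0 (.far 1 2 16) (.sp 2 6 0 (.far 2 3 12) (.sp 2 3 0
  (.far 2 3 4) (.sp 0 4 0 (.far 0 4 0) (.sp 2 3 1 (.far 2 3 5) (.sp 4 5 1 (.sp 0 5 1 (.tr 0 5 4)
  (.sp 3 5 1 (.tr 3 5 4) (.sp 0 7 1 (.sp 1 7 1 (.far 0 1 15) (.sp 4 7 1 (.far 0 4 15) (.sp 5 7 0
  (.sp 3 7 1 (.sp 1 3 1 (.tr 1 3 7) (.sp 0 3 1 (.sp 2 7 1 (.tr 2 7 3) (.sp 0 2 1 (.far 2 3 1) (.sp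
  0 3 0 (.sp 0 2 0 (.far 2 3 0) (.sp 1 3 0 (.far 0 1 6) (.sp 1 5 1 (.sp 2 5 1 (.far 1 2 11) (.sp 1
  4 1 (.sp 2 4 1 (.tr 2 4 5) (.sp 1 4 0 (.sp 2 4 0 (.far 1 2 8) (.p6 8627200261)) (.p6
  8640848256))) (.tr 1 5 4))) (.sp 1 4 1 (.tr 1 4 5) (.sp 2 5 1 (.sp 2 4 1 (.sp 2 8 1 (.sp 0 8 1
  (.tr 0 8 2) (.sp 1 8 1 (.far 1 2 17) (.sp 5 8 0 (.p6 3259015169) (.sp 2 4 0 (.sp 1 4 0 (.far 1 2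
  8) (.p6 3258491144)) (.sp 5 9 0 (.sp 8 9 0 (.sp 1 9 1 (.sp 0 9 1 (.tr 0 9 1) (.p6 1076438018))
  (.p6 172556419)) (.p6 17318846470)) (.p6 8893014022)))))) (.sp 4 8 1 (.tr 2 4 8) (.sp 7 8 0 (.p6
  9802146176) (.sp 1 4 0 (.sp 5 9 0 (.p6 6445146626) (.sp 2 4 0 (.far 1 2 8) (.p6 2286436992)))
  (.p6 9802097542))))) (.tr 2 5 4)) (.p6 3258491141)))))) (.p6 8777105862)))) (.tr 0 7 3))) (.p6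
  7620567624)) (.p6 15049204296)))) (.sp 0 3 1 (.sp 0 3 0 (.sp 3 7 1 (.tr 0 3 7) (.sp 0 2 0 (.far
  2 3 0) (.sp 1 3 0 (.far 0 1 6) (.sp 5 7 0 (.sp 5 7 1 (.sp 1 5 1 (.sp 2 5 1 (.far 1 2 11) (.sp 2
  7 1 (.tr 2 7 5) (.p6 5438497159))) (.sp 1 7 1 (.tr 1 7 5) (.p6 3258490881))) (.p6 8777163143))
  (.p6 4462764930))))) (.p6 8777105862)) (.sp 0 3 0 (.p6 7616897608) (.sp 0 6 1 (.sp 4 6 1 (.tr 0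
  6 4) (.sp 3 6 1 (.tr 0 6 3) (.sp 5 6 1 (.tr 0 6 5) (.sp 5 6 0 (.p6 7620043336) (.p6
  7620002443))))) (.sp 4 6 1 (.sp 3 6 1 (.tr 3 6 4) (.sp 5 6 1 (.sp 2 6 1 (.sp 0 2 1 (.tr 0 2 6)
  (.sp 2 5 1 (.sp 1 6 1 (.far 1 2 13) (.sp 1 5 1 (.far 1 2 11) (.sp 1 4 1 (.tr 1 4 6) (.sp 1 7 1
  (.sp 4 7 1 (.tr 1 7 4) (.sp 1 8 1 (.sp 5 8 1 (.tr 1 8 5) (.sp 4 8 1 (.tr 1 8 4) (.sp 7 8 1 (.sp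
  0 8 1 (.tr 0 8 1) (.sp 5 8 0 (.sp 1 3 0 (.p6 1076428934) (.sp 1 3 1 (.p6 2266546177) (.sp 3 8 1
  (.tr 1 8 3) (.sp 3 7 1 (.tr 1 7 3) (.sp 7 8 0 (.p6 7620592137) (.p6 8862359943)))))) (.p6
  170165265))) (.tr 7 1 8)))) (.sp 7 8 1 (.tr 1 7 8) (.sp 1 3 0 (.sp 1 4 0 (.far 3 4 2) (.sp 6 8 0
  (.sp 0 8 1 (.sp 2 8 1 (.tr 0 8 2) (.p6 3259023684)) (.p6 3259023361)) (.p6 8858919680))) (.sp 1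
  3 1 (.p6 2266546177) (.sp 6 7 0 (.sp 3 7 1 (.tr 1 7 3) (.sp 1 4 0 (.p6 8627208193) (.sp 5 7 0
  (.p6 7620567624) (.sp 5 8 1 (.sp 3 8 1 (.tr 3 8 5) (.sp 0 8 1 (.tr 0 8 5) (.sp 7 8 0 (.sp 6 8 0
  (.p6 3259023361) (.p6 1076945928)) (.p6 18522628487)))) (.sp 5 8 0 (.sp 0 8 1 (.sp 7 8 0 (.sp 3
  8 1 (.tr 0 8 3) (.p6 4466991495)) (.p6 6677922432)) (.p6 3259015169)) (.p6 2418061952)))))) (.p6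
  1076913026))))))) (.sp 6 7 0 (.p6 1076945027) (.sp 6 7 1 (.p6 3258503936) (.sp 3 7 1 (.sp 1 3 0
  (.sp 1 3 1 (.tr 1 3 7) (.p6 3256402244)) (.p6 1076913026)) (.p6 1076913039)))))))) (.tr 2 6 5)))
  (.sp 5 6 0 (.sp 2 5 1 (.tr 2 5 6) (.p6 7620043013)) (.p6 4466196871))) (.tr 5 4 6))) (.sp 5 6 1
  (.tr 4 5 6) (.sp 5 6 0 (.sp 3 6 1 (.sp 2 6 1 (.tr 2 6 3) (.sp 2 5 1 (.sp 2 4 1 (.sp 1 5 1 (.far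
  1 2 11) (.sp 0 2 1 (.tr 0 2 5) (.sp 1 4 1 (.tr 1 4 2) (.sp 5 7 1 (.sp 3 7 1 (.tr 3 7 5) (.sp 4 7
  1 (.sp 6 7 1 (.tr 5 7 6) (.sp 6 7 0 (.p6 1076945480) (.p6 1076913039))) (.tr 4 5 7))) (.sp 2 7 1
  (.tr 5 2 7) (.sp 4 7 1 (.tr 5 4 7) (.sp 1 4 0 (.sp 1 3 0 (.far 3 4 2) (.sp 6 7 0 (.p6
  9798476544) (.p6 1076913026))) (.sp 1 3 0 (.p6 8777154946) (.sp 6 7 0 (.sp 0 2 0 (.p6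
  2385510661) (.sp 2 8 1 (.sp 0 8 1 (.tr 0 8 2) (.sp 6 8 0 (.p6 1076953412) (.sp 7 8 0 (.p6
  1076945928) (.p6 1076945040)))) (.sp 4 8 1 (.tr 2 4 8) (.sp 7 8 0 (.sp 2 4 0 (.sp 6 8 0 (.sp 0 8
  1 (.sp 3 8 1 (.tr 0 8 3) (.sp 1 3 1 (.p6 9802097094) (.sp 3 7 1 (.sp 1 6 1 (.tr 1 6 3) (.sp 1 7
  1 (.tr 1 7 3) (.p6 1076945027))) (.p6 4433437063)))) (.p6 1076953604)) (.p6 4433437440)) (.p6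
  6681559364)) (.p6 9802097542))))) (.p6 1076913026)))))))))) (.tr 2 5 4)) (.sp 1 6 1 (.p6
  2368774405) (.sp 1 3 0 (.p6 2251333893) (.sp 1 3 1 (.tr 1 3 6) (.sp 6 7 0 (.sp 1 7 1 (.sp 4 7 1
  (.p6 1076945480) (.sp 6 7 1 (.tr 1 7 6) (.sp 3 7 1 (.tr 1 7 3) (.sp 2 7 1 (.tr 1 7 2) (.sp 5 7 1
  (.tr 4 5 7) (.sp 5 7 0 (.p6 7620567624) (.p6 16344195333))))))) (.p6 1076945027)) (.p6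
  1076913026))))))) (.p6 8777154951)) (.p6 14160011848)))))))))) (.sp 4 6 1 (.sp 0 6 1 (.tr 0 6 4)
  (.sp 3 6 1 (.tr 3 6 4) (.sp 5 6 1 (.tr 4 6 5) (.sp 1 4 1 (.sp 2 4 1 (.tr 1 4 2) (.sp 1 6 1 (.sp
  1 5 1 (.tr 4 1 5) (.sp 2 6 1 (.tr 2 6 4) (.sp 2 5 1 (.sp 3 5 1 (.tr 2 5 3) (.sp 0 2 1 (.sp 0 3 1
  (.far 2 3 1) (.sp 0 2 0 (.sp 0 3 0 (.far 2 3 0) (.sp 2 4 0 (.far 0 4 4) (.sp 6 9 0 (.sp 5 9 1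
  (.sp 1 9 1 (.tr 1 9 5) (.sp 4 9 1 (.tr 4 9 5) (.sp 1 4 0 (.sp 6 7 0 (.p6 8627208196) (.sp 1 3 0
  (.far 3 4 2) (.sp 7 9 0 (.sp 0 7 1 (.sp 1 7 1 (.far 0 1 15) (.p6 3258523904)) (.p6 1076913026))
  (.p6 6677890180)))) (.p6 2300649728)))) (.sp 2 9 1 (.tr 5 2 9) (.sp 6 9 1 (.sp 3 9 1 (.tr 3 9 6)
  (.p6 5440586119)) (.p6 2368807173)))) (.p6 8892973830)))) (.p6 4311793858))) (.sp 0 2 0 (.p6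
  2368733445) (.sp 0 5 1 (.tr 0 5 2) (.sp 5 6 0 (.sp 2 4 0 (.p6 8659714439) (.sp 6 9 1 (.sp 2 9 1
  (.tr 2 9 6) (.sp 1 9 1 (.sp 0 9 1 (.tr 0 9 6) (.sp 5 9 1 (.tr 5 9 6) (.sp 5 9 0 (.p6 2471010305)
  (.p6 2470986368)))) (.tr 1 6 9))) (.sp 4 9 1 (.tr 6 4 9) (.sp 5 9 0 (.sp 0 9 1 (.sp 1 4 0 (.sp 2
  9 1 (.tr 0 9 2) (.sp 1 3 0 (.far 3 4 2) (.sp 6 9 0 (.p6 2368807173) (.p6 6646473218)))) (.p6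
  2300650112)) (.p6 9802653697)) (.p6 168894985))))) (.p6 4462788802)))))) (.sp 5 6 0 (.p6
  2368774405) (.sp 0 5 1 (.sp 0 2 0 (.sp 0 2 1 (.tr 2 0 5) (.p6 2368733445)) (.p6 4462788802))
  (.p6 11978981570)))))) (.tr 1 4 6))) (.sp 1 6 1 (.tr 1 6 4) (.sp 4 7 1 (.sp 1 7 1 (.tr 1 7 4)
  (.sp 6 7 1 (.sp 0 7 1 (.far 0 4 15) (.sp 6 7 0 (.p6 1076945027) (.p6 3258503936))) (.tr 6 4 7)))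
  (.sp 6 7 1 (.tr 4 6 7) (.sp 2 7 1 (.sp 3 7 1 (.tr 2 7 3) (.sp 2 4 1 (.tr 4 2 7) (.sp 2 6 1 (.tr
  6 2 7) (.sp 1 7 1 (.tr 1 7 2) (.sp 6 7 0 (.sp 0 7 1 (.sp 0 2 0 (.p6 3258499076) (.sp 0 2 1 (.sp
  0 3 1 (.tr 3 0 7) (.sp 2 4 0 (.sp 0 3 0 (.sp 7 8 0 (.p6 4433437056) (.sp 1 4 0 (.far 1 2 8) (.sp
  1 3 0 (.far 0 1 6) (.p6 6677922308)))) (.p6 7620002116)) (.p6 8811184452))) (.tr 0 7 2))) (.p6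
  1076945027)) (.p6 4550320909)))))) (.sp 4 8 1 (.sp 7 8 1 (.tr 4 8 7) (.sp 0 8 1 (.far 0 4 17)
  (.sp 6 8 1 (.sp 5 8 1 (.tr 4 8 5) (.sp 1 8 1 (.tr 1 8 4) (.sp 3 8 1 (.tr 3 8 4) (.sp 6 8 0 (.p6
  3259023361) (.sp 6 9 1 (.sp 1 9 1 (.tr 1 9 6) (.sp 8 9 1 (.sp 0 9 1 (.tr 0 9 6) (.sp 2 8 1 (.sp
  2 6 1 (.sp 0 2 1 (.tr 0 2 8) (.sp 2 5 1 (.tr 5 2 8) (.sp 2 4 1 (.sp 0 2 0 (.sp 8 9 0 (.p6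
  3259048192) (.sp 0 3 0 (.far 2 3 0) (.sp 2 4 0 (.far 0 4 4) (.sp 6 9 0 (.p6 1076961808) (.p6
  8892973830))))) (.sp 6 7 0 (.sp 1 7 1 (.sp 0 7 1 (.far 0 1 15) (.sp 7 8 0 (.p6 1076945928) (.p6
  1076945040))) (.p6 3258499396)) (.sp 1 3 1 (.sp 0 3 1 (.tr 0 3 1) (.sp 2 4 0 (.sp 1 4 0 (.far 1
  2 8) (.sp 1 3 0 (.sp 0 3 0 (.far 0 1 6) (.p6 8858919680)) (.p6 6493372932))) (.sp 0 3 0 (.p6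
  8674910214) (.sp 1 3 0 (.sp 1 4 0 (.far 3 4 2) (.p6 8858919680)) (.p6 2266546177))))) (.sp 1 3 0
  (.p6 7617446212) (.sp 1 7 1 (.sp 3 7 1 (.tr 1 7 3) (.sp 7 8 0 (.sp 0 7 1 (.far 0 1 15) (.sp 0 3
  0 (.p6 4584432000) (.sp 0 3 1 (.p6 8862064704) (.p6 1076913039)))) (.p6 18522628487))) (.p6
  14161600643)))))) (.tr 2 8 4)))) (.tr 2 8 6)) (.sp 2 9 1 (.tr 2 9 8) (.sp 8 9 0 (.p6 5440602243)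
  (.p6 2420973829))))) (.tr 8 6 9))) (.sp 4 9 1 (.tr 6 4 9) (.sp 8 9 1 (.tr 6 8 9) (.sp 1 3 0 (.sp
  1 4 0 (.far 3 4 2) (.sp 0 3 0 (.far 0 1 6) (.p6 8858919680))) (.sp 1 3 1 (.sp 0 3 1 (.tr 0 3 1)
  (.sp 0 3 0 (.sp 3 9 1 (.p6 9802641792) (.sp 7 9 0 (.p6 9802670464) (.sp 7 9 1 (.p6 6682386953)
  (.sp 1 9 1 (.tr 3 1 9) (.sp 8 9 0 (.p6 20707287494) (.sp 1 4 0 (.p6 6677890195) (.sp 7 8 0 (.p6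
  19465822592) (.p6 19465773958)))))))) (.p6 17215283968))) (.sp 0 3 0 (.sp 0 2 0 (.far 2 3 0)
  (.sp 5 9 0 (.p6 6445146633) (.sp 2 4 0 (.sp 7 8 0 (.p6 4433437056) (.sp 1 4 0 (.far 1 2 8) (.p6
  6677922308))) (.p6 8893014022)))) (.sp 1 7 1 (.sp 0 7 1 (.far 0 1 15) (.sp 3 7 1 (.tr 1 7 3)
  (.sp 7 8 0 (.sp 6 7 0 (.p6 1076945928) (.sp 0 3 1 (.p6 8862064704) (.p6 1076913039))) (.p6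
  18522628487)))) (.sp 6 7 0 (.sp 0 2 0 (.p6 3258499076) (.sp 2 6 1 (.p6 3258499396) (.sp 0 7 1
  (.sp 2 4 1 (.tr 2 4 6) (.sp 0 2 1 (.tr 2 0 7) (.sp 2 5 1 (.sp 1 5 1 (.far 1 2 11) (.sp 0 5 1
  (.tr 0 5 2) (.sp 5 7 1 (.tr 2 5 7) (.sp 5 7 0 (.sp 5 8 0 (.p6 3259015169) (.sp 2 4 0 (.p6
  9798984582) (.sp 5 9 0 (.sp 0 9 1 (.sp 1 9 1 (.tr 0 9 1) (.sp 2 9 1 (.tr 0 9 2) (.sp 5 9 1 (.tr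
  0 9 5) (.sp 8 9 0 (.p6 11983716483) (.sp 1 4 0 (.p6 5440569475) (.p6 4599120003)))))) (.p6
  9802653697)) (.p6 168894985)))) (.p6 11978994562))))) (.sp 5 6 0 (.sp 3 5 1 (.sp 5 7 0 (.sp 1 5
  1 (.tr 1 5 3) (.p6 3258491141)) (.p6 5438489474)) (.p6 7620043013)) (.p6 5438440198))))) (.p6
  1076945027)))) (.p6 202956931))))))))))))) (.tr 6 4 8)))) (.sp 6 8 1 (.tr 4 6 8) (.sp 6 9 1 (.sp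
  1 9 1 (.tr 1 9 6) (.sp 4 9 1 (.sp 8 9 1 (.tr 6 9 8) (.sp 3 9 1 (.tr 3 9 6) (.sp 0 9 1 (.tr 0 9
  6) (.sp 5 9 1 (.tr 5 9 6) (.sp 0 3 0 (.sp 7 8 0 (.p6 9802146176) (.sp 0 2 0 (.far 2 3 0) (.sp 1
  3 0 (.far 0 1 6) (.sp 1 4 0 (.sp 5 9 0 (.p6 6445146626) (.sp 2 4 0 (.far 1 2 8) (.p6
  2286436992))) (.p6 9802097542))))) (.sp 0 2 1 (.sp 0 3 1 (.far 2 3 1) (.sp 2 6 1 (.tr 0 2 6)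
  (.sp 2 9 1 (.tr 0 2 9) (.sp 0 2 0 (.sp 6 9 0 (.p6 5440586119) (.sp 2 4 0 (.far 0 4 4) (.p6
  8892973830))) (.p6 7620002116))))) (.sp 2 9 1 (.sp 2 6 1 (.sp 2 4 1 (.sp 2 8 1 (.tr 8 2 9) (.sp
  2 5 1 (.tr 5 2 9) (.sp 1 3 1 (.sp 0 3 1 (.tr 0 3 1) (.sp 1 3 0 (.sp 1 4 0 (.far 3 4 2) (.sp 6 8
  0 (.sp 2 4 0 (.sp 1 8 1 (.sp 0 2 0 (.far 0 4 4) (.sp 0 8 1 (.tr 0 8 1) (.p6 1076953604))) (.p6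
  3259023684)) (.p6 6480232772)) (.p6 8858919680))) (.p6 1076912322))) (.sp 1 3 0 (.p6 3256402244)
  (.sp 6 7 0 (.sp 1 7 1 (.sp 0 7 1 (.far 0 1 15) (.sp 3 7 1 (.tr 1 7 3) (.sp 1 4 0 (.p6
  8627208193) (.sp 7 8 0 (.sp 2 4 0 (.sp 3 8 1 (.sp 0 2 0 (.far 0 4 4) (.sp 1 8 1 (.tr 1 8 3) (.sp
  6 8 0 (.p6 3259023684) (.p6 4433437440)))) (.p6 4433437063)) (.p6 6681559364)) (.p6
  9802097542))))) (.p6 3258499396)) (.sp 1 7 1 (.sp 0 7 1 (.far 0 1 15) (.sp 3 7 1 (.tr 1 7 3)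
  (.sp 0 3 1 (.sp 0 2 0 (.p6 16342585348) (.sp 1 4 0 (.p6 8627183680) (.sp 7 8 0 (.sp 0 8 1 (.sp 2
  4 0 (.sp 1 8 1 (.tr 0 8 1) (.sp 5 8 0 (.sp 1 5 1 (.sp 0 5 1 (.tr 0 5 1) (.p6 6459269314)) (.p6
  3259015429)) (.p6 2418033280))) (.p6 6681559364)) (.p6 8862064704)) (.p6 9802097542)))) (.p6
  1076913039)))) (.p6 202956931))))))) (.tr 2 9 4)) (.tr 2 9 6)) (.sp 2 4 1 (.tr 2 4 9) (.sp 2 6 1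
  (.tr 2 6 9) (.sp 6 9 0 (.p6 5440586119) (.sp 5 9 0 (.sp 5 6 0 (.sp 3 5 1 (.sp 2 4 0 (.p6
  9798984134) (.sp 2 5 1 (.tr 2 5 3) (.sp 1 4 0 (.p6 5440569475) (.sp 1 3 0 (.p6 2251333893) (.sp
  7 8 0 (.sp 5 8 0 (.sp 5 8 1 (.sp 2 8 1 (.tr 2 8 5) (.p6 9802129669)) (.p6 6629687817)) (.sp 5 7
  0 (.p6 9802146432) (.sp 6 7 0 (.p6 5438489474) (.p6 4465910658)))) (.p6 9802097542)))))) (.p6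
  7620043912)) (.p6 8894546694)) (.sp 3 5 1 (.p6 20704174534) (.sp 5 6 0 (.p6 7620043026) (.sp 0 2
  0 (.sp 2 4 0 (.far 0 4 4) (.p6 5435867720)) (.p6 19397083910))))))))))))))) (.tr 4 6 9))) (.sp 4
  9 1 (.tr 6 4 9) (.sp 0 3 0 (.sp 5 8 0 (.p6 6445138441) (.sp 7 9 0 (.p6 9802670464) (.sp 7 8 0
  (.p6 9802146176) (.sp 0 2 0 (.far 2 3 0) (.sp 1 3 0 (.far 0 1 6) (.sp 5 9 0 (.p6 6445146633)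
  (.sp 8 9 0 (.p6 2420654720) (.sp 2 4 0 (.sp 1 4 0 (.far 1 2 8) (.p6 19465773958)) (.p6
  17318822528))))))))) (.sp 2 6 1 (.sp 0 2 1 (.tr 0 2 6) (.sp 2 5 1 (.tr 5 2 6) (.sp 2 4 1 (.sp 2
  8 1 (.tr 6 2 8) (.sp 1 3 1 (.sp 0 3 1 (.tr 0 3 1) (.sp 1 3 0 (.sp 1 4 0 (.far 3 4 2) (.sp 6 8 0
  (.sp 2 4 0 (.sp 1 8 1 (.sp 0 2 0 (.far 0 4 4) (.sp 0 8 1 (.tr 0 8 1) (.p6 1076953604))) (.p6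
  3259023684)) (.p6 6480232772)) (.p6 8858919680))) (.p6 1076912322))) (.sp 1 3 0 (.p6 3256402244)
  (.sp 6 7 0 (.sp 1 7 1 (.sp 0 7 1 (.far 0 1 15) (.sp 3 7 1 (.tr 1 7 3) (.sp 1 4 0 (.p6
  8627208193) (.sp 7 8 0 (.sp 2 4 0 (.sp 3 8 1 (.sp 0 2 0 (.far 0 4 4) (.sp 1 8 1 (.tr 1 8 3) (.sp
  6 8 0 (.p6 3259023684) (.p6 4433437440)))) (.p6 4433437063)) (.p6 6681559364)) (.p6
  9802097542))))) (.p6 3258499396)) (.sp 1 7 1 (.sp 0 7 1 (.far 0 1 15) (.sp 3 7 1 (.tr 1 7 3)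
  (.sp 0 3 1 (.sp 0 2 0 (.p6 16342585348) (.sp 1 4 0 (.p6 8627183680) (.sp 7 8 0 (.sp 0 8 1 (.sp 2
  4 0 (.sp 1 8 1 (.tr 0 8 1) (.sp 5 8 0 (.sp 1 5 1 (.sp 0 5 1 (.tr 0 5 1) (.p6 6459269314)) (.p6
  3259015429)) (.p6 2418033280))) (.p6 6681559364)) (.p6 8862064704)) (.p6 9802097542)))) (.p6
  1076913039)))) (.p6 202956931)))))) (.tr 2 6 4)))) (.sp 2 4 1 (.tr 2 4 6) (.sp 2 4 0 (.sp 3 5 1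
  (.p6 9798984134) (.sp 5 6 0 (.p6 8659714439) (.sp 5 7 0 (.p6 9798984582) (.sp 0 2 0 (.far 0 4 4)
  (.sp 6 7 0 (.p6 4462789506) (.p6 15136195204)))))) (.sp 1 9 1 (.sp 0 9 1 (.tr 0 9 1) (.sp 6 9 0
  (.p6 2471018497) (.sp 2 9 1 (.tr 1 9 2) (.sp 0 2 0 (.p6 8892973830) (.sp 0 2 1 (.p6 2470985792)
  (.sp 5 9 0 (.sp 0 5 1 (.sp 5 6 0 (.sp 1 5 1 (.tr 0 5 1) (.sp 2 5 1 (.tr 0 5 2) (.sp 5 9 1 (.tr 0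
  5 9) (.sp 3 5 1 (.sp 1 3 0 (.p6 2251333893) (.sp 1 3 1 (.tr 1 3 5) (.p6 6629695682))) (.p6
  7620043013))))) (.p6 8894546694)) (.p6 9802653697)) (.p6 168894985))))))) (.sp 1 4 0 (.sp 1 3 0
  (.far 3 4 2) (.sp 2 9 1 (.sp 1 3 1 (.p6 6493340804) (.sp 7 9 0 (.sp 7 9 1 (.tr 2 9 7) (.sp 3 9 1
  (.far 2 3 19) (.sp 3 7 1 (.sp 1 7 1 (.tr 1 7 3) (.sp 0 2 0 (.p6 3258523904) (.sp 0 9 1 (.p6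
  323543171) (.sp 5 9 0 (.sp 0 5 1 (.sp 1 5 1 (.tr 0 5 1) (.p6 172523651)) (.p6 9802653697)) (.p6
  2286436992))))) (.p6 7620600329)))) (.p6 6677890180))) (.p6 5440569475))) (.sp 0 2 0 (.sp 0 2 1
  (.sp 8 9 0 (.sp 0 3 1 (.far 2 3 1) (.sp 0 7 1 (.tr 2 0 7) (.sp 1 8 1 (.sp 1 3 0 (.p6 6480273664)
  (.sp 1 3 1 (.p6 2266546177) (.sp 6 7 0 (.sp 1 7 1 (.sp 3 8 1 (.tr 1 8 3) (.sp 7 8 0 (.sp 3 7 1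
  (.tr 1 7 3) (.p6 7620592137)) (.p6 9802097542))) (.p6 1076945027)) (.p6 1076913026)))) (.p6
  3259048192)))) (.p6 2418090240)) (.p6 5435867720)) (.sp 5 9 0 (.sp 0 2 1 (.p6 8811184452) (.sp 2
  8 1 (.sp 0 8 1 (.tr 0 8 2) (.sp 3 8 1 (.tr 2 8 3) (.sp 6 8 0 (.p6 1076953412) (.sp 1 8 1 (.far 1
  2 17) (.sp 7 8 1 (.tr 2 8 7) (.sp 1 3 0 (.p6 8858919680) (.sp 1 3 1 (.p6 18522599820) (.sp 7 8 0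
  (.sp 3 7 1 (.sp 6 7 0 (.p6 4584432384) (.sp 1 7 1 (.tr 1 7 3) (.p6 202956931))) (.p6
  7620592137)) (.p6 9802097542))))))))) (.sp 2 5 1 (.sp 3 5 1 (.tr 2 5 3) (.sp 0 5 1 (.tr 0 5 2)
  (.sp 0 9 1 (.sp 5 9 1 (.tr 0 9 5) (.sp 2 9 1 (.tr 0 9 2) (.sp 8 9 0 (.sp 1 8 1 (.sp 0 8 1 (.tr 0
  8 1) (.sp 8 9 1 (.tr 1 8 9) (.sp 3 9 1 (.sp 3 8 1 (.tr 8 3 9) (.sp 0 3 1 (.sp 1 3 1 (.tr 1 3 9)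
  (.sp 1 3 0 (.p6 7617446409) (.sp 7 8 0 (.sp 7 9 0 (.sp 0 7 1 (.sp 1 7 1 (.far 0 1 15) (.p6
  3258523909)) (.p6 8862064704)) (.p6 6681600261)) (.p6 9802097542)))) (.tr 0 9 3))) (.sp 6 9 0
  (.p6 5440586119) (.sp 5 6 0 (.p6 7620043923) (.p6 8894546694)))))) (.p6 5440602243)) (.p6
  5440570370)))) (.p6 9802653697)))) (.sp 5 8 0 (.p6 9802129669) (.sp 5 6 0 (.sp 1 3 0 (.p6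
  2251333893) (.sp 7 8 0 (.sp 5 7 0 (.p6 9802146432) (.sp 6 7 0 (.p6 5438489474) (.p6
  4465910658))) (.p6 9802097542))) (.p6 5438440198)))))) (.p6 168894985))))))))))))))))))))) (.sp
  4 7 1 (.sp 6 7 1 (.tr 4 7 6) (.sp 3 7 1 (.far 3 4 15) (.sp 5 7 1 (.tr 4 7 5) (.sp 0 7 1 (.far 0
  4 15) (.sp 0 6 1 (.sp 1 6 1 (.tr 0 6 1) (.sp 2 6 1 (.sp 2 4 1 (.tr 4 2 6) (.sp 3 6 1 (.tr 2 6 3)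
  (.sp 2 7 1 (.tr 6 2 7) (.sp 6 7 0 (.sp 2 4 0 (.sp 3 5 1 (.p6 9798984134) (.sp 5 6 0 (.p6
  9798984454) (.sp 5 7 0 (.p6 8659722631) (.sp 0 2 0 (.far 0 4 4) (.p6 4462789506))))) (.p6
  8845312324)) (.p6 14161601096))))) (.sp 0 2 1 (.tr 2 0 6) (.sp 0 3 1 (.sp 0 3 0 (.sp 1 3 1 (.tr
  0 3 1) (.sp 0 2 0 (.far 2 3 0) (.sp 1 3 0 (.far 0 1 6) (.sp 5 7 0 (.sp 0 5 1 (.sp 1 5 1 (.tr 0 5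
  1) (.sp 3 5 1 (.sp 2 5 1 (.tr 0 5 2) (.sp 2 7 1 (.sp 2 4 1 (.sp 1 7 1 (.tr 1 7 2) (.sp 1 4 1
  (.tr 1 4 2) (.sp 2 4 0 (.sp 1 4 0 (.far 1 2 8) (.p6 3258491144)) (.p6 8674910214)))) (.tr 2 7
  4)) (.sp 2 4 1 (.tr 2 4 7) (.sp 1 7 1 (.sp 2 4 0 (.p6 9798984134) (.sp 1 4 1 (.sp 1 4 0 (.p6
  8627200261) (.sp 5 9 0 (.sp 4 9 1 (.sp 1 9 1 (.sp 5 9 1 (.tr 4 9 5) (.p6 6629695682)) (.tr 1 4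
  9)) (.p6 2300650112)) (.p6 8893014022))) (.tr 1 7 4))) (.p6 3258491141))))) (.tr 3 0 5))) (.p6
  8845303809)) (.p6 4462764930))))) (.p6 8845287488)) (.sp 3 6 1 (.tr 0 6 3) (.sp 6 7 0 (.sp 0 5 1
  (.sp 5 6 1 (.sp 3 5 1 (.tr 0 5 3) (.sp 2 5 1 (.tr 0 5 2) (.sp 5 6 0 (.p6 7620043013) (.p6
  4466196871)))) (.tr 5 0 6)) (.sp 5 7 0 (.p6 8845303809) (.sp 1 5 1 (.p6 15068864513) (.sp 3 5 1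
  (.p6 10856489544) (.sp 2 7 1 (.p6 10808516999) (.sp 0 2 0 (.p6 2385510661) (.sp 2 4 1 (.tr 2 4
  7) (.sp 5 6 0 (.sp 2 4 0 (.p6 9798984454) (.sp 1 7 1 (.sp 1 4 1 (.sp 0 9 1 (.sp 3 9 1 (.tr 0 9
  3) (.sp 6 9 1 (.sp 2 9 1 (.tr 0 9 2) (.sp 6 9 0 (.p6 5440586119) (.p6 8895381895))) (.tr 6 0
  9))) (.sp 5 9 0 (.sp 4 9 1 (.sp 1 9 1 (.p6 1076437186) (.tr 1 4 9)) (.p6 9802653697)) (.p6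
  1076380808))) (.tr 1 7 4)) (.p6 4465942659))) (.p6 4462789506))))))))) (.p6 14161601096)))))))
  (.sp 6 7 0 (.p6 1076945480) (.sp 3 6 1 (.sp 0 3 0 (.sp 0 3 1 (.tr 0 3 6) (.sp 2 6 1 (.tr 2 6 3)
  (.sp 0 2 0 (.far 2 3 0) (.sp 1 3 0 (.far 0 1 6) (.sp 5 7 0 (.sp 0 5 1 (.sp 5 6 0 (.sp 5 6 1 (.tr
  0 5 6) (.sp 3 5 1 (.tr 0 5 3) (.sp 2 4 0 (.p6 8659722631) (.sp 5 9 0 (.sp 2 4 1 (.p6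
  14162608712) (.sp 4 9 1 (.sp 2 7 1 (.tr 2 7 4) (.sp 2 9 1 (.tr 2 9 4) (.sp 3 9 1 (.far 3 4 19)
  (.sp 7 9 0 (.p6 5440594311) (.p6 8894603655))))) (.p6 6445146633))) (.p6 8893014022))))) (.p6
  12887581256)) (.p6 8845303809)) (.p6 4462764930)))))) (.p6 8845288192)) (.p6 14161601096))))))))
  (.sp 2 4 1 (.sp 1 4 1 (.tr 1 4 2) (.sp 2 5 1 (.tr 4 2 5) (.sp 0 2 1 (.tr 0 2 4) (.sp 2 6 1 (.tr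
  4 2 6) (.sp 2 7 1 (.tr 4 2 7) (.sp 2 4 0 (.sp 1 4 0 (.far 1 2 8) (.sp 0 2 0 (.far 0 4 4) (.sp 5
  8 0 (.sp 0 3 0 (.sp 7 8 0 (.p6 4433437056) (.sp 1 3 0 (.far 0 1 6) (.p6 6677922308))) (.sp 5 6 0
  (.sp 1 3 0 (.p6 8659714434) (.sp 7 8 0 (.sp 0 8 1 (.sp 2 8 1 (.tr 0 8 2) (.sp 4 8 1 (.far 0 4
  17) (.sp 1 8 1 (.tr 0 8 1) (.sp 5 7 0 (.sp 1 5 1 (.sp 1 3 1 (.p6 6493372937) (.sp 0 5 1 (.tr 0 5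
  1) (.sp 3 5 1 (.tr 1 5 3) (.sp 0 3 1 (.p6 6459269314) (.sp 3 6 1 (.sp 3 7 1 (.sp 0 6 1 (.tr 0 6
  3) (.sp 0 7 1 (.tr 0 7 3) (.sp 6 7 0 (.sp 1 6 1 (.tr 1 6 3) (.sp 1 7 1 (.tr 1 7 3) (.p6
  1076945027))) (.p6 1076913026)))) (.p6 8659722631)) (.p6 7620043013)))))) (.p6 3259015429)) (.p6
  5438505862))))) (.sp 0 7 1 (.p6 4433436736) (.sp 0 3 1 (.p6 8862064704) (.sp 0 6 1 (.sp 3 6 1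
  (.tr 0 6 3) (.sp 3 5 1 (.sp 0 5 1 (.tr 0 5 3) (.sp 4 8 1 (.sp 1 8 1 (.tr 1 8 4) (.sp 1 5 1 (.sp
  1 3 1 (.p6 6493372932) (.tr 1 5 3)) (.p6 3259015169))) (.p6 9802129409))) (.p6 7620043013)))
  (.sp 6 8 0 (.p6 1076953604) (.sp 6 7 0 (.p6 1076945928) (.p6 1076913026))))))) (.p6
  6677922308))) (.p6 5438440198))) (.p6 2418033280)))) (.sp 5 6 0 (.p6 8674910982) (.sp 0 2 0 (.sp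
  6 7 0 (.p6 2385510661) (.sp 0 3 0 (.far 2 3 0) (.sp 1 6 1 (.p6 5435867330) (.sp 6 9 0 (.sp 1 4 0
  (.sp 1 3 0 (.far 3 4 2) (.sp 1 3 1 (.p6 12986360329) (.sp 7 9 0 (.sp 1 7 1 (.sp 3 7 1 (.tr 1 7
  3) (.sp 0 3 1 (.p6 4296827778) (.sp 3 9 1 (.sp 0 7 1 (.far 0 1 15) (.sp 0 9 1 (.tr 0 9 3) (.p6
  2387099649))) (.p6 7620600064)))) (.p6 202956931)) (.p6 6677890180)))) (.sp 8 9 0 (.sp 1 5 1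
  (.p6 8674910402) (.sp 1 3 0 (.p6 6480273664) (.sp 7 9 0 (.sp 5 7 0 (.sp 1 7 1 (.sp 0 7 1 (.far 0
  1 15) (.sp 0 9 1 (.sp 0 3 1 (.p6 15133311237) (.sp 0 6 1 (.sp 3 9 1 (.tr 0 9 3) (.sp 2 9 1 (.tr
  0 9 2) (.sp 3 6 1 (.tr 0 6 3) (.p6 5440586119)))) (.p6 1076913026))) (.p6 2387099649))) (.p6
  3258491141)) (.p6 10740589442)) (.p6 8895095682)))) (.p6 2418090240))) (.p6 8892973830))))) (.p6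
  12887540296))))))))) (.sp 4 9 1 (.sp 0 9 1 (.tr 0 9 4) (.sp 5 9 1 (.tr 4 9 5) (.sp 2 9 1 (.tr 2
  9 4) (.sp 6 9 1 (.tr 4 9 6) (.sp 7 9 1 (.tr 4 9 7) (.sp 3 9 1 (.far 3 4 19) (.sp 2 4 0 (.sp 5 6
  0 (.p6 9798984454) (.sp 5 7 0 (.p6 9798984582) (.sp 0 2 0 (.far 0 4 4) (.sp 6 7 0 (.p6
  4462789506) (.sp 0 3 0 (.sp 1 3 0 (.far 0 1 6) (.p6 4462764930)) (.p6 15136195204)))))) (.sp 8 9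
  1 (.sp 3 8 1 (.tr 3 8 9) (.sp 2 8 1 (.tr 2 8 9) (.sp 1 9 1 (.sp 1 7 1 (.tr 7 1 9) (.sp 1 3 1
  (.tr 3 1 9) (.sp 1 6 1 (.tr 6 1 9) (.sp 1 4 1 (.sp 1 5 1 (.tr 5 1 9) (.sp 0 2 0 (.sp 6 7 0 (.p6
  3258499076) (.sp 0 3 0 (.far 2 3 0) (.sp 1 3 0 (.sp 8 9 0 (.p6 6480273664) (.sp 1 4 0 (.far 3 4
  2) (.p6 6480233604))) (.p6 202956931)))) (.sp 0 2 1 (.p6 2470985792) (.sp 5 9 0 (.sp 0 5 1 (.sp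
  2 5 1 (.tr 0 5 2) (.sp 1 4 0 (.sp 1 3 0 (.far 3 4 2) (.sp 0 3 0 (.p6 6445146626) (.sp 7 9 0 (.sp
  6 7 0 (.sp 3 5 1 (.p6 6629695682) (.sp 5 6 1 (.sp 2 6 1 (.tr 2 6 5) (.sp 5 6 0 (.sp 3 6 1 (.tr 3
  6 5) (.p6 7620043013)) (.p6 6646702341))) (.sp 0 6 1 (.tr 5 0 6) (.sp 0 7 1 (.sp 2 7 1 (.tr 0 7
  2) (.p6 255402245)) (.p6 1076945027))))) (.p6 202956931)) (.p6 6677890180)))) (.sp 6 7 0 (.p6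
  8640848640) (.sp 8 9 0 (.sp 1 3 0 (.p6 7617447044) (.p6 12989243976)) (.p6 5440570370))))) (.p6
  2471010305)) (.p6 2470986368))))) (.tr 1 9 4))))) (.sp 8 9 0 (.sp 1 8 1 (.tr 1 8 9) (.p6
  5440602243)) (.p6 2420973829))))) (.sp 4 8 1 (.tr 8 4 9) (.sp 1 4 1 (.sp 1 6 1 (.tr 4 1 6) (.sp
  1 5 1 (.tr 4 1 5) (.sp 1 9 1 (.sp 1 3 1 (.tr 3 1 4) (.sp 1 7 1 (.tr 4 1 7) (.sp 0 2 1 (.sp 0 2 0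
  (.sp 6 7 0 (.p6 3258499076) (.sp 6 8 0 (.p6 4298179081) (.sp 0 3 0 (.far 2 3 0) (.sp 1 3 0 (.sp
  1 4 0 (.far 3 4 2) (.p6 8858919680)) (.p6 202956931))))) (.p6 2470985792)) (.sp 0 2 0 (.p6
  2470985729) (.sp 5 9 0 (.sp 0 5 1 (.sp 2 5 1 (.tr 0 5 2) (.sp 1 4 0 (.sp 1 3 0 (.far 3 4 2) (.sp
  0 3 0 (.p6 6445146626) (.sp 7 9 0 (.sp 6 7 0 (.sp 3 5 1 (.p6 6629695682) (.sp 5 6 1 (.sp 2 6 1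
  (.tr 2 6 5) (.sp 5 6 0 (.sp 3 6 1 (.tr 3 6 5) (.p6 7620043013)) (.p6 6646702341))) (.sp 0 6 1
  (.tr 5 0 6) (.sp 0 7 1 (.sp 2 7 1 (.tr 0 7 2) (.p6 255402245)) (.p6 1076945027))))) (.p6
  202956931)) (.p6 6677890180)))) (.sp 6 7 0 (.p6 8640848640) (.sp 1 3 0 (.sp 5 6 0 (.p6
  4465909891) (.sp 2 6 1 (.p6 3256402244) (.sp 0 3 0 (.far 0 1 6) (.p6 5438440198)))) (.p6
  12989243976))))) (.p6 2471010305)) (.p6 2470986368)))))) (.tr 1 4 9)))) (.sp 1 9 1 (.tr 1 9 4)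
  (.sp 1 4 0 (.p6 5440569475) (.sp 8 9 0 (.sp 0 3 0 (.sp 7 8 0 (.p6 9802146176) (.sp 1 3 0 (.far 0
  1 6) (.p6 9802097542))) (.sp 0 2 0 (.sp 1 3 0 (.p6 6480273664) (.sp 6 8 0 (.p6 4298179081) (.sp
  7 8 0 (.sp 6 7 0 (.p6 8862089220) (.p6 9802146188)) (.p6 9802097542)))) (.sp 2 8 1 (.sp 3 8 1
  (.tr 2 8 3) (.sp 1 8 1 (.far 1 2 17) (.sp 1 3 1 (.sp 1 3 0 (.sp 0 3 1 (.tr 0 3 1) (.sp 6 8 0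
  (.sp 3 6 1 (.sp 0 6 1 (.tr 0 6 3) (.sp 0 2 1 (.p6 4311794050) (.sp 0 8 1 (.tr 0 8 2) (.p6
  9802137601)))) (.p6 7620067849)) (.p6 12986155529))) (.p6 6493372937)) (.sp 1 3 0 (.p6
  7617446212) (.sp 7 8 0 (.sp 3 7 1 (.sp 7 8 1 (.tr 3 7 8) (.sp 2 7 1 (.tr 2 7 3) (.sp 1 7 1 (.tr
  1 7 3) (.sp 6 8 0 (.sp 3 6 1 (.sp 1 6 1 (.tr 1 6 3) (.sp 2 6 1 (.tr 2 6 3) (.sp 6 7 0 (.sp 5 8 0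
  (.sp 3 5 1 (.p6 9802129862) (.sp 0 3 1 (.p6 8860991942) (.sp 0 6 1 (.tr 0 6 3) (.sp 0 7 1 (.tr 0
  7 3) (.p6 1076945027))))) (.sp 5 7 0 (.p6 9802146432) (.sp 5 6 0 (.sp 1 5 1 (.sp 2 5 1 (.far 1 2
  11) (.p6 5438489474)) (.p6 4465942659)) (.p6 4462789506)))) (.p6 202956931)))) (.p6 7620067849))
  (.sp 6 7 0 (.sp 6 8 1 (.p6 6648300041) (.sp 0 8 1 (.sp 0 6 1 (.tr 6 0 8) (.sp 0 2 1 (.sp 0 7 1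
  (.tr 7 0 8) (.p6 4311794562)) (.tr 0 8 2))) (.p6 4584432384))) (.p6 9802146188)))))) (.p6
  7620592137)) (.p6 9802097542)))))) (.sp 1 8 1 (.sp 0 8 1 (.tr 0 8 1) (.sp 0 2 1 (.p6 2420654144)
  (.sp 2 5 1 (.sp 0 5 1 (.tr 0 5 2) (.sp 5 8 1 (.tr 2 5 8) (.sp 5 8 0 (.p6 9802129409) (.sp 5 9 0
  (.p6 1076438033) (.p6 1076380819))))) (.sp 5 8 0 (.p6 9802129669) (.sp 5 8 1 (.p6 172294665)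
  (.sp 1 5 1 (.tr 5 1 8) (.sp 6 8 0 (.sp 0 6 1 (.sp 2 6 1 (.tr 0 6 2) (.sp 5 6 0 (.p6 5438489602)
  (.p6 5438440198))) (.p6 9802137601)) (.sp 1 3 0 (.p6 12986155529) (.sp 6 8 1 (.p6 205849097)
  (.sp 7 8 0 (.sp 1 6 1 (.tr 6 1 8) (.sp 5 7 0 (.p6 9802146432) (.sp 6 7 0 (.sp 2 7 1 (.p6
  2383692416) (.sp 5 6 0 (.sp 1 7 1 (.sp 7 9 0 (.sp 3 7 1 (.sp 1 3 1 (.p6 4465909954) (.tr 1 7 3))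
  (.p6 5440594311)) (.p6 6681600261)) (.p6 4465942659)) (.p6 4462789506))) (.p6 9802146188))))
  (.p6 9802097542))))))))))) (.p6 5440602243))))) (.sp 1 8 1 (.sp 2 8 1 (.far 1 2 17) (.p6
  5440570385)) (.p6 4599120003))))))))))))))) (.sp 2 4 0 (.sp 5 6 0 (.p6 9798984454) (.sp 5 7 0
  (.p6 9798984582) (.sp 0 2 0 (.far 0 4 4) (.sp 6 7 0 (.p6 4462789506) (.sp 0 3 0 (.sp 1 3 0 (.far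
  0 1 6) (.p6 4462764930)) (.p6 15136195204)))))) (.sp 4 8 1 (.sp 0 8 1 (.far 0 4 17) (.sp 3 8 1
  (.tr 3 8 4) (.sp 6 8 1 (.tr 4 8 6) (.sp 2 8 1 (.tr 2 8 4) (.sp 1 4 1 (.sp 1 6 1 (.tr 4 1 6) (.sp
  1 3 1 (.tr 3 1 4) (.sp 1 7 1 (.tr 4 1 7) (.sp 1 9 1 (.tr 4 1 9) (.sp 1 4 0 (.sp 1 3 0 (.far 3 4
  2) (.sp 7 9 0 (.sp 0 3 0 (.p6 9802670464) (.sp 0 2 0 (.p6 3258523904) (.sp 6 7 0 (.sp 5 9 0 (.sp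
  3 9 1 (.sp 2 9 1 (.far 2 3 19) (.sp 2 7 1 (.sp 7 9 1 (.tr 2 7 9) (.sp 3 7 1 (.tr 2 7 3) (.sp 0 9
  1 (.p6 323543171) (.sp 0 3 1 (.p6 119070851) (.sp 0 2 1 (.p6 6765953088) (.sp 0 5 1 (.sp 3 5 1
  (.tr 0 5 3) (.sp 0 7 1 (.tr 0 7 2) (.sp 2 5 1 (.tr 0 5 2) (.sp 0 6 1 (.sp 5 6 1 (.sp 3 6 1 (.tr
  0 6 3) (.sp 2 6 1 (.tr 0 6 2) (.sp 5 6 0 (.p6 7620043013) (.p6 4466196871)))) (.tr 5 0 6)) (.p6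
  1076945027))))) (.p6 9802653697))))))) (.p6 3258523909))) (.sp 3 7 1 (.sp 2 7 1 (.tr 2 7 3) (.sp
  7 9 1 (.tr 3 7 9) (.sp 2 6 1 (.p6 8627208516) (.sp 2 9 1 (.sp 0 9 1 (.p6 323543171) (.sp 0 2 1
  (.tr 0 2 9) (.sp 0 5 1 (.sp 2 5 1 (.tr 0 5 2) (.sp 5 6 0 (.sp 5 7 0 (.p6 8627200261) (.p6
  5438489474)) (.p6 5438440198))) (.p6 9802653697)))) (.p6 3258523909))))) (.p6 7620600329))) (.p6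
  2286436992)) (.p6 202956931)))) (.p6 6677890180))) (.sp 5 9 0 (.p6 2300650112) (.sp 0 2 0 (.p6
  2300649728) (.p6 168894985)))))))) (.sp 1 8 1 (.tr 1 8 4) (.sp 0 2 0 (.sp 6 9 0 (.sp 0 3 0 (.far
  2 3 0) (.sp 1 9 1 (.sp 0 9 1 (.tr 0 9 1) (.sp 0 2 1 (.sp 0 6 1 (.sp 0 3 1 (.far 2 3 1) (.sp 2 6
  1 (.sp 1 6 1 (.tr 0 6 1) (.sp 3 6 1 (.tr 0 6 3) (.sp 6 8 0 (.p6 3259023684) (.sp 3 9 1 (.sp 1 3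
  1 (.sp 1 3 0 (.sp 1 4 0 (.far 3 4 2) (.sp 8 9 0 (.p6 6480273664) (.p6 6480233604))) (.p6
  12986360849)) (.tr 1 9 3)) (.p6 7620076041))))) (.tr 2 0 6))) (.p6 9802661889)) (.p6
  1074864322))) (.sp 8 9 0 (.p6 3259048192) (.sp 1 4 0 (.sp 1 3 0 (.far 3 4 2) (.sp 2 9 1 (.sp 1 3
  1 (.p6 6493340804) (.sp 7 9 0 (.sp 3 9 1 (.far 2 3 19) (.sp 1 7 1 (.sp 3 7 1 (.tr 1 7 3) (.p6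
  7620600329)) (.p6 3258523904))) (.p6 6677890180))) (.p6 5440569475))) (.p6 4599120003))))) (.p6
  12886024713)) (.sp 5 9 0 (.sp 0 3 0 (.p6 6445146633) (.sp 6 9 0 (.sp 1 6 1 (.sp 0 6 1 (.tr 0 6
  1) (.sp 2 6 1 (.far 1 2 13) (.sp 0 2 1 (.p6 4311793858) (.sp 0 9 1 (.sp 2 9 1 (.tr 0 9 2) (.sp 6
  9 1 (.tr 0 9 6) (.p6 2368807173))) (.p6 9802661889))))) (.sp 1 4 0 (.sp 1 3 0 (.far 3 4 2) (.sp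
  1 3 1 (.p6 12986360329) (.sp 6 7 0 (.p6 9798476544) (.sp 7 9 0 (.sp 1 7 1 (.sp 3 7 1 (.tr 1 7 3)
  (.sp 3 9 1 (.sp 2 9 1 (.far 2 3 19) (.sp 1 9 1 (.tr 1 9 3) (.p6 5440569475))) (.p6 7620600329)))
  (.p6 202956931)) (.p6 6677890180))))) (.sp 1 3 0 (.p6 2251366921) (.sp 2 9 1 (.sp 3 9 1 (.far 2
  3 19) (.sp 1 9 1 (.tr 1 9 2) (.sp 3 6 1 (.sp 8 9 0 (.sp 1 3 1 (.p6 6493373572) (.sp 2 6 1 (.tr 2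
  6 3) (.sp 1 5 1 (.sp 0 5 1 (.tr 0 5 1) (.sp 0 3 1 (.p6 6459269314) (.sp 0 9 1 (.sp 0 6 1 (.tr 0
  6 3) (.sp 0 2 1 (.sp 0 7 1 (.sp 1 7 1 (.far 0 1 15) (.sp 7 9 1 (.sp 7 9 0 (.p6 3258524169) (.p6
  8895914115)) (.tr 7 0 9))) (.sp 6 7 0 (.p6 4311794562) (.p6 1076913026))) (.tr 0 9 2))) (.p6
  9802653697)))) (.sp 5 8 0 (.sp 0 5 1 (.sp 2 5 1 (.sp 0 2 1 (.sp 0 6 1 (.tr 2 0 6) (.sp 6 8 0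
  (.p6 4311794690) (.sp 5 6 0 (.p6 6646464643) (.p6 6643819522)))) (.tr 0 5 2)) (.p6 3259015429))
  (.p6 3259015169)) (.p6 172556419))))) (.p6 4599120003)) (.p6 7620076041)))) (.sp 8 9 0 (.sp 1 9
  1 (.sp 6 9 1 (.tr 1 9 6) (.sp 0 9 1 (.tr 0 9 1) (.sp 0 6 1 (.sp 0 2 1 (.p6 2470985792) (.sp 0 5
  1 (.sp 5 9 1 (.tr 0 5 9) (.sp 5 6 1 (.sp 2 6 1 (.tr 0 6 2) (.sp 2 5 1 (.tr 0 5 2) (.sp 5 6 0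
  (.sp 1 5 1 (.tr 0 5 1) (.sp 5 8 0 (.p6 3259015429) (.sp 1 3 1 (.p6 4465909954) (.sp 6 8 0 (.p6
  5438489602) (.sp 3 5 1 (.p6 6629695682) (.sp 3 9 1 (.tr 1 9 3) (.sp 3 6 1 (.tr 3 6 5) (.p6
  2420687239)))))))) (.p6 5438440198)))) (.tr 5 0 6))) (.p6 9802653697))) (.p6 2471018497)))) (.p6
  5440602243)) (.p6 5440570370)))))) (.sp 5 6 0 (.p6 6646473225) (.p6 12887597577)))) (.p6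
  168894985))))))))) (.sp 0 2 0 (.sp 6 8 0 (.p6 4298179081) (.sp 0 3 0 (.far 2 3 0) (.sp 1 4 0
  (.sp 6 7 0 (.p6 8627208196) (.sp 1 3 0 (.far 3 4 2) (.sp 7 8 0 (.p6 9802146188) (.p6
  17217118976)))) (.sp 1 4 1 (.p6 2300649728) (.sp 1 3 0 (.p6 8858919680) (.sp 7 8 0 (.sp 6 7 0
  (.p6 8862089220) (.p6 9802146188)) (.p6 9802097542))))))) (.sp 5 9 0 (.sp 0 3 0 (.p6 6445146633)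
  (.sp 1 9 1 (.sp 0 9 1 (.tr 0 9 1) (.sp 2 9 1 (.tr 1 9 2) (.sp 0 2 1 (.p6 2470985792) (.sp 0 5 1
  (.sp 5 9 1 (.tr 0 5 9) (.sp 2 5 1 (.tr 0 5 2) (.sp 1 5 1 (.tr 0 5 1) (.sp 5 6 0 (.sp 6 9 0 (.sp
  0 6 1 (.sp 5 6 1 (.sp 1 6 1 (.tr 0 6 1) (.sp 2 6 1 (.tr 0 6 2) (.sp 1 3 0 (.p6 2251333893) (.sp
  1 3 1 (.p6 4465909954) (.sp 3 5 1 (.p6 6629695682) (.sp 3 6 1 (.tr 3 6 5) (.p6 7620043013)))))))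
  (.tr 5 0 6)) (.p6 9802661889)) (.p6 6646473225)) (.sp 6 9 0 (.sp 2 6 1 (.sp 1 6 1 (.p6
  4462788802) (.sp 0 6 1 (.tr 0 6 2) (.p6 1076961474))) (.p6 5438440198)) (.p6 12887597577))))))
  (.p6 9802653697))))) (.sp 1 4 1 (.sp 1 6 1 (.tr 4 1 6) (.sp 1 4 0 (.sp 1 3 1 (.tr 3 1 4) (.sp 1
  7 1 (.tr 4 1 7) (.sp 1 3 0 (.far 3 4 2) (.sp 7 9 0 (.sp 6 7 0 (.sp 2 9 1 (.sp 3 9 1 (.far 2 3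
  19) (.sp 3 7 1 (.sp 2 7 1 (.tr 2 7 3) (.sp 7 9 1 (.tr 3 7 9) (.sp 2 6 1 (.p6 8627208516) (.sp 0
  9 1 (.p6 323543171) (.sp 0 5 1 (.sp 0 2 1 (.tr 0 2 9) (.sp 2 5 1 (.tr 0 5 2) (.sp 5 6 0 (.sp 5 7
  0 (.p6 8627200261) (.p6 5438489474)) (.p6 5438440198)))) (.p6 9802653697)))))) (.p6
  7620600329))) (.sp 2 7 1 (.sp 7 9 1 (.tr 2 7 9) (.sp 3 7 1 (.tr 2 7 3) (.sp 0 9 1 (.p6
  323543171) (.sp 3 9 1 (.sp 0 3 1 (.p6 119070851) (.sp 0 2 1 (.p6 6765953088) (.sp 0 5 1 (.sp 5 9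
  1 (.tr 0 5 9) (.sp 3 5 1 (.tr 5 3 9) (.sp 0 7 1 (.tr 0 7 2) (.sp 2 5 1 (.tr 0 5 2) (.sp 0 6 1
  (.sp 5 6 1 (.sp 3 6 1 (.tr 0 6 3) (.sp 2 6 1 (.tr 0 6 2) (.sp 5 6 0 (.p6 7620043013) (.p6
  4466196871)))) (.tr 5 0 6)) (.p6 1076945027)))))) (.p6 9802653697)))) (.p6 7620600329))))) (.p6
  3258523909))) (.p6 202956931)) (.p6 6677890180))))) (.p6 2300650112))) (.sp 1 4 0 (.sp 1 3 0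
  (.far 3 4 2) (.sp 2 9 1 (.sp 1 3 1 (.p6 6493340804) (.sp 1 5 1 (.sp 7 9 0 (.sp 3 9 1 (.far 2 3
  19) (.sp 0 5 1 (.tr 0 5 1) (.sp 3 7 1 (.sp 7 9 1 (.tr 3 7 9) (.sp 0 9 1 (.sp 1 7 1 (.tr 1 7 3)
  (.p6 323543171)) (.p6 9802653697))) (.p6 7620600329)))) (.p6 6677890180)) (.p6 172523651))) (.p6
  5440569475))) (.sp 6 9 0 (.sp 1 3 0 (.p6 2251366921) (.sp 7 8 0 (.sp 0 7 1 (.sp 1 7 1 (.far 0 1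
  15) (.sp 7 9 0 (.p6 3258524169) (.sp 7 9 1 (.p6 2387419657) (.sp 6 7 0 (.sp 2 7 1 (.p6
  8893035394) (.sp 0 9 1 (.tr 7 0 9) (.sp 0 2 1 (.tr 2 0 7) (.sp 0 5 1 (.sp 0 6 1 (.sp 2 6 1 (.tr
  0 6 2) (.sp 2 5 1 (.tr 0 5 2) (.sp 5 6 0 (.sp 1 5 1 (.tr 0 5 1) (.sp 5 7 0 (.p6 3258491141) (.p6
  5438489474))) (.p6 5438440198)))) (.p6 9802661889)) (.p6 9802653697))))) (.p6 8895095682)))))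
  (.sp 3 8 1 (.sp 2 8 1 (.tr 2 8 3) (.sp 1 8 1 (.sp 1 3 1 (.sp 0 8 1 (.tr 0 8 1) (.sp 3 9 1 (.tr 1
  3 9) (.sp 0 3 1 (.tr 0 3 1) (.sp 3 6 1 (.sp 0 6 1 (.tr 0 6 3) (.sp 6 8 1 (.sp 6 8 0 (.p6
  9802137601) (.p6 1076958216)) (.tr 6 3 8))) (.p6 7620076041))))) (.tr 1 8 3)) (.sp 1 3 1 (.p6
  6493372937) (.sp 8 9 0 (.sp 2 9 1 (.sp 3 9 1 (.far 2 3 19) (.sp 3 6 1 (.sp 1 6 1 (.tr 1 6 3)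
  (.sp 6 8 1 (.sp 2 5 1 (.sp 3 5 1 (.tr 2 5 3) (.sp 0 3 1 (.p6 8894546374) (.sp 0 8 1 (.tr 0 8 3)
  (.sp 0 6 1 (.tr 0 6 3) (.sp 6 8 0 (.p6 3259023361) (.p6 1076958216)))))) (.sp 5 8 0 (.p6
  9802129669) (.sp 1 5 1 (.sp 0 5 1 (.tr 0 5 1) (.sp 0 3 1 (.p6 6459269314) (.sp 0 9 1 (.sp 0 8 1
  (.tr 0 8 3) (.sp 0 6 1 (.tr 0 6 3) (.sp 0 2 1 (.sp 6 8 0 (.p6 4311794690) (.p6 1076958216)) (.tr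
  0 9 2)))) (.p6 9802653697)))) (.p6 172556419)))) (.tr 6 3 8))) (.p6 7620076041))) (.p6
  5440602243)) (.p6 4599120003))))) (.sp 1 3 1 (.p6 9802097094) (.sp 3 7 1 (.sp 1 7 1 (.tr 1 7 3)
  (.sp 0 3 1 (.tr 0 3 7) (.sp 7 9 0 (.p6 3258524169) (.sp 7 9 1 (.p6 2387419657) (.sp 6 7 0 (.sp 3
  9 1 (.tr 7 3 9) (.sp 3 6 1 (.sp 1 6 1 (.tr 1 6 3) (.sp 0 6 1 (.tr 0 6 3) (.p6 1076945027))) (.p6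
  7620076041))) (.p6 8895095682)))))) (.p6 7620592137))))) (.p6 9802097542))) (.sp 5 6 0 (.p6
  6646473225) (.p6 12887597577))))))) (.p6 168894985))))))))))))))))))))))))))))))))))

theorem validK5 : lemK5.Valid := Lem.valid_of_chk _ treeK5 (by decide +kernel)

end Pool.Agent.P6ED
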