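import Pool.Agent.P6ED.Check

set_option autoImplicit false

namespace Pool.Agent.P6ED

/-- Two vertices are at distance at most two (closed adjacency `R`, which is reflexive). -/
def R2 {V : Type} (R : V → V → Prop) (a b : V) : Prop := ∃ w, R a w ∧ R w b

/-- A local configuration on vertices `0, …, m-1`: `X` lists the pairs at distance at least three,
`A` the pairs at distance at most two, `T` pairs with the same dominator, `F` pairs with distinct
dominators. -/
structure Lem where
  m : ℕ
  X : List (ℕ × ℕ)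
  A : List (ℕ × ℕ)
  T : List (ℕ × ℕ)
  F : List (ℕ × ℕ)

/-- The configuration never occurs. -/
def Lem.Valid (L : Lem) : Prop :=
  ∀ (V : Type) (R : V → V → Prop) (dm : V → V), Good R dm → ∀ u : ℕ → V,
    (∀ p ∈ L.X, ¬ R2 R (u p.1) (u p.2)) → (∀ p ∈ L.A, R2 R (u p.1) (u p.2)) →
    (∀ p ∈ L.T, dm (u p.1) = dm (u p.2)) → (∀ p ∈ L.F, dm (u p.1) ≠ dm (u p.2)) → False

/-- Atoms which attach a middle vertex to each pair of the list. -/
def midAtoms : ℕ → List (ℕ × ℕ) → List (ℕ × ℕ × ℕ)
  | _, [] => []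
  | q, (i, j) :: L => (i, q, 0) :: (q, j, 0) :: midAtoms (q + 1) L

/-- Tagging a list of pairs. -/
def tag (t : ℕ) (L : List (ℕ × ℕ)) : List (ℕ × ℕ × ℕ) := L.map (fun p => (p.1, p.2, t))

theorem exists_ext {V : Type} (R : V → V → Prop) (dm : V → V) (A : List (ℕ × ℕ)) :
    ∀ (q : ℕ) (u : ℕ → V), (∀ p ∈ A, p.1 < q ∧ p.2 < q ∧ R2 R (u p.1) (u p.2)) →
      ∃ x : ℕ → V, (∀ i, i < q → x i = u i) ∧ ∀ a ∈ midAtoms q A, holds R dm x a := by
  induction A with
  | nil =>
    intro q u _
    exact ⟨u, fun _ _ => rfl, by simp [midAtoms]⟩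
  | cons p A ih =>
    intro q u hA
    obtain ⟨i, j⟩ := p
    obtain ⟨hi, hj, w, hw1, hw2⟩ := hA (i, j) List.mem_cons_self
    simp only at hi hj hw1 hw2
    obtain ⟨x, hx1, hx2⟩ := ih (q + 1) (Function.update u q w) (by
      intro p hp
      obtain ⟨h1, h2, h3⟩ := hA p (List.mem_cons_of_mem _ hp)
      refine ⟨by omega, by omega, ?_⟩
      rw [Function.update_of_ne (by omega), Function.update_of_ne (by omega)]
      exact h3)
    have hxi : ∀ l, l < q → x l = u l := by
      intro l hl
      rw [hx1 l (by omega), Function.update_of_ne (by omega)]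
    have hxq : x q = w := by
      rw [hx1 q (by omega), Function.update_self]
    refine ⟨x, hxi, ?_⟩
    intro a ha
    simp only [midAtoms, List.mem_cons] at ha
    rcases ha with rfl | rfl | ha
    · simp only [holds, if_true]
      rw [hxi i hi, hxq]; exact hw1
    · simp only [holds, if_true]
      rw [hxi j hj, hxq]; exact hw2
    · exact hx2 a ha

/-- The full check of a configuration. -/
def Lem.chk (L : Lem) (t : Tree) : Bool :=
  (L.A.all (fun p => decide (p.1 < L.m) && decide (p.2 < L.m))) &&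
  ((L.X.all (fun p => decide (p.1 < L.m) && decide (p.2 < L.m))) &&
  ((L.T.all (fun p => decide (p.1 < L.m) && decide (p.2 < L.m))) &&
  ((L.F.all (fun p => decide (p.1 < L.m) && decide (p.2 < L.m))) &&
  checkAll (L.m + L.A.length) (tag 0 L.X) (midAtoms L.m L.A ++ tag 1 L.T) (tag 1 L.F) t)))

theorem Lem.valid_of_chk (L : Lem) (t : Tree) (hc : L.chk t = true) : L.Valid := by
  intro V R dm h u hX hA hT hF
  simp only [Lem.chk, Bool.and_eq_true, List.all_eq_true, decide_eq_true_eq] at hc
  obtain ⟨bA, bX, bT, bF, hc⟩ := hc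
  obtain ⟨x, hx1, hx2⟩ := exists_ext R dm L.A L.m u
    (fun p hp => ⟨(bA p hp).1, (bA p hp).2, hA p hp⟩)
  refine checkAll_sound h x _ _ _ _ _ hc ?_ ?_ ?_
  · intro p hp w h1 h2
    simp only [tag, List.mem_map] at hp
    obtain ⟨p', hp', rfl⟩ := hp
    have b := bX p' hp'
    simp only at h1 h2
    rw [hx1 _ b.1] at h1
    rw [hx1 _ b.2] at h2
    exact hX p' hp' ⟨w, h1, h2⟩
  · intro p hp
    rw [List.mem_append] at hp
    rcases hp with hp | hp
    · exact hx2 p hp
    · simp only [tag, List.mem_map] at hp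
      obtain ⟨p', hp', rfl⟩ := hp
      have b := bT p' hp'
      simp only [holds]
      rw [if_neg (by norm_num), hx1 _ b.1, hx1 _ b.2]
      exact hT p' hp'
  · intro p hp
    simp only [tag, List.mem_map] at hp
    obtain ⟨p', hp', rfl⟩ := hp
    have b := bF p' hp'
    simp only [holds]
    rw [if_neg (by norm_num), hx1 _ b.1, hx1 _ b.2]
    exact hF p' hp'

end Pool.Agent.P6ED
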