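import Pool.Agent.P6ED.Gen
import Pool.Agent.P6ED.K5
import Pool.Agent.P6ED.C7
import Pool.Agent.P6ED.C9
import Pool.Agent.P6ED.C11

set_option autoImplicit false

namespace Pool.Agent.P6ED

open SimpleGraph

/-- Closed adjacency. -/
def CA {V : Type} (G : SimpleGraph V) (a b : V) : Prop := a = b ∨ G.Adj a b

theorem no_p6 {V : Type} (G : SimpleGraph V) (hP : IsEmpty (pathGraph 6 ↪g G))
    (a b c d e f : V) (hab : CA G a b) (hbc : CA G b c) (hcd : CA G c d) (hde : CA G d e)
    (hef : CA G e f) (hac : ¬ CA G a c) (had : ¬ CA G a d) (hae : ¬ CA G a e) (haf : ¬ CA G a f)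
    (hbd : ¬ CA G b d) (hbe : ¬ CA G b e) (hbf : ¬ CA G b f) (hce : ¬ CA G c e)
    (hcf : ¬ CA G c f) (hdf : ¬ CA G d f) : False := by
  have Aab : G.Adj a b := by
    rcases hab with rfl | h
    · exact absurd hbc hac
    · exact h
  have Abc : G.Adj b c := by
    rcases hbc with rfl | h
    · exact absurd hab hac
    · exact h
  have Acd : G.Adj c d := by
    rcases hcd with rfl | h
    · exact absurd hbc hbd
    · exact h
  have Ade : G.Adj d e := by
    rcases hde with rfl | h
    · exact absurd hcd hce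
    · exact h
  have Aef : G.Adj e f := by
    rcases hef with rfl | h
    · exact absurd hde hdf
    · exact h
  unfold CA at *
  push Not at hac had hae haf hbd hbe hbf hce hcf hdf
  refine hP.elim ⟨⟨![a, b, c, d, e, f], ?_⟩, ?_⟩
  · intro i j hij
    fin_cases i <;> fin_cases j <;> simp at hij ⊢ <;>
      first
      | (exact absurd hij Aab.ne) | (exact absurd hij Abc.ne) | (exact absurd hij Acd.ne)
      | (exact absurd hij Ade.ne) | (exact absurd hij Aef.ne)
      | (exact absurd hij.symm Aab.ne) | (exact absurd hij.symm Abc.ne)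
      | (exact absurd hij.symm Acd.ne) | (exact absurd hij.symm Ade.ne)
      | (exact absurd hij.symm Aef.ne)
      | (exact absurd hij hac.1) | (exact absurd hij had.1) | (exact absurd hij hae.1)
      | (exact absurd hij haf.1) | (exact absurd hij hbd.1) | (exact absurd hij hbe.1)
      | (exact absurd hij hbf.1) | (exact absurd hij hce.1) | (exact absurd hij hcf.1)
      | (exact absurd hij hdf.1)
      | (exact absurd hij.symm hac.1) | (exact absurd hij.symm had.1)
      | (exact absurd hij.symm hae.1)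
      | (exact absurd hij.symm haf.1) | (exact absurd hij.symm hbd.1)
      | (exact absurd hij.symm hbe.1)
      | (exact absurd hij.symm hbf.1) | (exact absurd hij.symm hce.1)
      | (exact absurd hij.symm hcf.1)
      | (exact absurd hij.symm hdf.1)
  · intro i j
    have s1 := Aab.symm
    have s2 := Abc.symm
    have s3 := Acd.symm
    have s4 := Ade.symm
    have s5 := Aef.symm
    have t1 : ¬ G.Adj c a := fun h => hac.2 h.symm
    have t2 : ¬ G.Adj d a := fun h => had.2 h.symm
    have t3 : ¬ G.Adj e a := fun h => hae.2 h.symm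
    have t4 : ¬ G.Adj f a := fun h => haf.2 h.symm
    have t5 : ¬ G.Adj d b := fun h => hbd.2 h.symm
    have t6 : ¬ G.Adj e b := fun h => hbe.2 h.symm
    have t7 : ¬ G.Adj f b := fun h => hbf.2 h.symm
    have t8 : ¬ G.Adj e c := fun h => hce.2 h.symm
    have t9 : ¬ G.Adj f c := fun h => hcf.2 h.symm
    have t10 : ¬ G.Adj f d := fun h => hdf.2 h.symm
    change G.Adj (![a, b, c, d, e, f] i) (![a, b, c, d, e, f] j) ↔ (pathGraph 6).Adj i j
    fin_cases i <;> fin_cases j <;> simp [pathGraph_adj, *]

/-- Packaging of the hypotheses of the problem. -/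
theorem exists_good {V : Type} (G : SimpleGraph V) (hP : IsEmpty (pathGraph 6 ↪g G))
    (hD : ∃ D : Set V, ∀ v : V, ∃! d : V, d ∈ D ∧ (d = v ∨ G.Adj d v)) :
    ∃ dm : V → V, Good (CA G) dm := by
  obtain ⟨D, hD⟩ := hD
  choose dm hdm huniq using hD
  refine ⟨dm, ⟨fun u => Or.inl rfl, fun u v h => h.elim (fun h => Or.inl h.symm)
    (fun h => Or.inr h.symm), ?_, fun a b c d e f => no_p6 G hP a b c d e f⟩⟩
  intro u v
  constructor
  · intro h
    exact huniq v (dm u) ⟨(hdm u).1, h⟩
  · intro h
    rw [h]
    exact (hdm v).2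

theorem sq_adj_iff {V : Type} (G : SimpleGraph V) (a b : V) (hab : a ≠ b) :
    (SimpleGraph.fromRel (fun u v : V => G.Adj u v ∨ ∃ w, G.Adj u w ∧ G.Adj w v)).Adj a b ↔
      R2 (CA G) a b := by
  rw [SimpleGraph.fromRel_adj]
  constructor
  · rintro ⟨_, (h | ⟨w, h1, h2⟩) | (h | ⟨w, h1, h2⟩)⟩
    · exact ⟨b, Or.inr h, Or.inl rfl⟩
    · exact ⟨w, Or.inr h1, Or.inr h2⟩
    · exact ⟨b, Or.inr h.symm, Or.inl rfl⟩
    · exact ⟨w, Or.inr h2.symm, Or.inr h1.symm⟩
  · rintro ⟨w, h1, h2⟩
    refine ⟨hab, Or.inl ?_⟩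
    rcases h1 with rfl | h1
    · rcases h2 with rfl | h2
      · exact absurd rfl hab
      · exact Or.inl h2
    · rcases h2 with rfl | h2
      · exact Or.inl h1
      · exact Or.inr ⟨w, h1, h2⟩

/-- The main theorem. -/
theorem main {V : Type} (G : SimpleGraph V) (hP : IsEmpty (pathGraph 6 ↪g G))
    (hD : ∃ D : Set V, ∀ v : V, ∃! d : V, d ∈ D ∧ (d = v ∨ G.Adj d v))
    (k : ℕ) (hk : 5 ≤ k) (hodd : Odd k) (φ : (cycleGraph k)ᶜ ↪g
      SimpleGraph.fromRel (fun u v : V => G.Adj u v ∨ ∃ w, G.Adj u w ∧ G.Adj w v)) : False := by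
  obtain ⟨dm, h⟩ := exists_good G hP hD
  have hkp : (0 : ℤ) < (k : ℤ) := by omega
  have hlt : ∀ i : ℤ, (i % (k : ℤ)).toNat < k := by
    intro i
    have h1 := Int.emod_nonneg i (ne_of_gt hkp)
    have h2 := Int.emod_lt_of_pos i hkp
    omega
  -- distances in terms of the index
  have hrel : ∀ a b : Fin k, a ≠ b → (R2 (CA G) (φ a) (φ b) ↔
      ¬ ((cycleGraph k).Adj a b)) := by
    intro a b hab
    rw [← sq_adj_iff G _ _ (fun hh => hab (φ.injective hh)), φ.map_rel_iff, compl_adj]
    constructor
    · exact fun hh => hh.2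
    · exact fun hh => ⟨hab, hh⟩
  have hcyc : ∀ a b : Fin k, a.val < b.val →
      ((cycleGraph k).Adj a b ↔ (b.val = a.val + 1 ∨ (a.val = 0 ∧ b.val = k - 1))) := by
    intro a b hab
    rw [cycleGraph_adj', Fin.sub_def, Fin.sub_def]
    simp only
    have ha := a.isLt
    have hb := b.isLt
    have e1 : (k - b.val + a.val) % k = k - b.val + a.val := Nat.mod_eq_of_lt (by omega)
    have e2 : (k - a.val + b.val) % k = b.val - a.val := by
      rw [show k - a.val + b.val = (b.val - a.val) + k by omega, Nat.add_mod_right]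
      exact Nat.mod_eq_of_lt (by omega)
    rw [e1, e2]
    omega
  have hsymm : ∀ a b : V, R2 (CA G) a b → R2 (CA G) b a := fun a b hh => h.R2symm hh
  -- the integer-indexed sequence
  let v : ℤ → V := fun i => φ ⟨(i % (k : ℤ)).toNat, hlt i⟩
  have hv : ∀ i : ℤ, v i = φ ⟨(i % (k : ℤ)).toNat, hlt i⟩ := fun i => rfl
  have H : AH (CA G) (k : ℤ) v := by
    refine ⟨?_, ?_, ?_⟩
    · intro i
      rw [hv, hv]
      congr 2
      rw [Int.add_emod_right]
    · intro i
      rw [hv, hv]
      have h1 := Int.emod_nonneg i (ne_of_gt hkp)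
      have h2 := Int.emod_lt_of_pos i hkp
      by_cases hlast : i % (k : ℤ) = k - 1
      · have e : (i + 1) % (k : ℤ) = 0 := by
          rw [Int.add_emod, hlast]
          rw [Int.emod_eq_of_lt (by omega : (0 : ℤ) ≤ 1) (by omega)]
          rw [show ((k : ℤ) - 1 + 1) = k by ring]
          exact Int.emod_self
        have hne : (⟨((i + 1) % (k : ℤ)).toNat, hlt (i + 1)⟩ : Fin k) ≠
            ⟨(i % (k : ℤ)).toNat, hlt i⟩ := by
          rw [Ne, Fin.mk.injEq]; omega
        intro hh
        have := (hrel _ _ hne).1 (hsymm _ _ hh)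
        apply this
        rw [hcyc _ _ (by show ((i + 1) % (k : ℤ)).toNat < (i % (k : ℤ)).toNat; omega)]
        right
        constructor
        · show ((i + 1) % (k : ℤ)).toNat = 0
          omega
        · show (i % (k : ℤ)).toNat = k - 1
          omega
      · have e : (i + 1) % (k : ℤ) = i % (k : ℤ) + 1 := by
          rw [Int.add_emod]
          rw [Int.emod_eq_of_lt (by omega : (0 : ℤ) ≤ 1) (by omega)]
          exact Int.emod_eq_of_lt (by omega) (by omega)
        have hne : (⟨(i % (k : ℤ)).toNat, hlt i⟩ : Fin k) ≠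
            ⟨((i + 1) % (k : ℤ)).toNat, hlt (i + 1)⟩ := by
          rw [Ne, Fin.mk.injEq]; omega
        intro hh
        have := (hrel _ _ hne).1 hh
        apply this
        rw [hcyc _ _ (by show (i % (k : ℤ)).toNat < ((i + 1) % (k : ℤ)).toNat; omega)]
        left
        show ((i + 1) % (k : ℤ)).toNat = (i % (k : ℤ)).toNat + 1
        omega
    · intro i j h1 h2
      rw [hv, hv]
      have i1 := Int.emod_nonneg i (ne_of_gt hkp)
      have i2 := Int.emod_lt_of_pos i hkp
      obtain ⟨d, hd⟩ : ∃ d, d = j - i := ⟨_, rfl⟩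
      have ej : j = i + d := by omega
      by_cases hwrap : i % (k : ℤ) + d < k
      · have e : j % (k : ℤ) = i % (k : ℤ) + d := by
          rw [ej, Int.add_emod, Int.emod_eq_of_lt (by omega : (0 : ℤ) ≤ d) (by omega)]
          exact Int.emod_eq_of_lt (by omega) (by omega)
        have hne : (⟨(i % (k : ℤ)).toNat, hlt i⟩ : Fin k) ≠
            ⟨(j % (k : ℤ)).toNat, hlt j⟩ := by
          rw [Ne, Fin.mk.injEq]; omega
        rw [hrel _ _ hne, hcyc _ _ (by show (i % (k : ℤ)).toNat < (j % (k : ℤ)).toNat; omega)]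
        show ¬ ((j % (k : ℤ)).toNat = (i % (k : ℤ)).toNat + 1 ∨
          ((i % (k : ℤ)).toNat = 0 ∧ (j % (k : ℤ)).toNat = k - 1))
        omega
      · have e : j % (k : ℤ) = i % (k : ℤ) + d - k := by
          rw [ej, Int.add_emod, Int.emod_eq_of_lt (by omega : (0 : ℤ) ≤ d) (by omega)]
          rw [← Int.sub_emod_right]
          exact Int.emod_eq_of_lt (by omega) (by omega)
        have hne : (⟨(j % (k : ℤ)).toNat, hlt j⟩ : Fin k) ≠
            ⟨(i % (k : ℤ)).toNat, hlt i⟩ := by
          rw [Ne, Fin.mk.injEq]; omega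
        apply hsymm
        rw [hrel _ _ hne, hcyc _ _ (by show (j % (k : ℤ)).toNat < (i % (k : ℤ)).toNat; omega)]
        show ¬ ((i % (k : ℤ)).toNat = (j % (k : ℤ)).toNat + 1 ∨
          ((j % (k : ℤ)).toNat = 0 ∧ (i % (k : ℤ)).toNat = k - 1))
        omega
  have hmod : (k : ℤ) % 2 = 1 := by
    obtain ⟨m, hm⟩ := hodd
    omega
  by_cases hk13 : 13 ≤ k
  · exact AH_false h H (by omega) hmod
  · -- small cases
    have hcases : k = 5 ∨ k = 7 ∨ k = 9 ∨ k = 11 := by
      obtain ⟨m, hm⟩ := hodd
      omega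
    have hadj : ∀ a b : ℕ, a < k → b < k → adjc k a b = true →
        ¬ R2 (CA G) (v (a : ℤ)) (v (b : ℤ)) := by
      intro a b ha hb hab
      have key : ∀ a b : ℕ, a < k → b < k → (a + 1) % k = b →
          ¬ R2 (CA G) (v (a : ℤ)) (v (b : ℤ)) := by
        intro a b ha hb hab
        have := H.non (a : ℤ)
        have e : v ((a : ℤ) + 1) = v (b : ℤ) := by
          by_cases hl : a + 1 < k
          · rw [Nat.mod_eq_of_lt hl] at hab
            rw [← hab]
            push_cast
            rfl
          · have ea : a + 1 = k := by omega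
            rw [ea, Nat.mod_self] at hab
            rw [← hab]
            have := H.per 0
            rw [← ea] at this
            push_cast at this ⊢
            rw [zero_add] at this
            exact this
        rw [e] at this
        exact this
      simp only [adjc, Bool.or_eq_true, decide_eq_true_eq] at hab
      rcases hab with hab | hab
      · exact key a b ha hb hab
      · exact fun hh => key b a hb ha hab (hsymm _ _ hh)
    have hfar : ∀ a b : ℕ, a < k → b < k → a ≠ b → adjc k a b = false →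
        R2 (CA G) (v (a : ℤ)) (v (b : ℤ)) := by
      have key : ∀ a b : ℕ, a < k → b < k → a < b → adjc k a b = false →
          R2 (CA G) (v (a : ℤ)) (v (b : ℤ)) := by
        intro a b ha hb hab hadj'
        simp only [adjc, Bool.or_eq_false_iff, decide_eq_false_iff_not] at hadj'
        obtain ⟨n1, n2⟩ := hadj'
        rw [Nat.mod_eq_of_lt (by omega : a + 1 < k)] at n1
        apply H.far
        · omega
        · by_cases hb1 : b + 1 < k
          · omega
          · have eb : b + 1 = k := by omega
            rw [eb, Nat.mod_self] at n2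
            omega
      intro a b ha hb hab hadj'
      rcases lt_or_gt_of_ne hab with hlt' | hlt'
      · exact key a b ha hb hlt' hadj'
      · apply hsymm
        apply key b a hb ha hlt'
        simp only [adjc] at hadj' ⊢
        rw [Bool.or_comm]
        exact hadj'
    rcases hcases with rfl | rfl | rfl | rfl
    · have := validK5 V (CA G) dm h (fun n => v (n : ℤ))
      refine this ?_ ?_ ?_ ?_
      · intro p hp
        have : p.1 < 5 ∧ p.2 < 5 ∧ adjc 5 p.1 p.2 = true := by
          revert p
          decide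
        exact hadj _ _ this.1 this.2.1 this.2.2
      · intro p hp
        have : p.1 < 5 ∧ p.2 < 5 ∧ p.1 ≠ p.2 ∧ adjc 5 p.1 p.2 = false := by
          revert p
          decide
        exact hfar _ _ this.1 this.2.1 this.2.2.1 this.2.2.2
      · intro p hp
        simp [lemK5] at hp
      · intro p hp
        simp [lemK5] at hp
    · exact cyc7_false V (CA G) dm h (fun n => v (n : ℤ)) hadj hfar
    · exact cyc9_false V (CA G) dm h (fun n => v (n : ℤ)) hadj hfar
    · exact cyc11_false V (CA G) dm h (fun n => v (n : ℤ)) hadj hfar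

end Pool.Agent.P6ED
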